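import Mathlib
import Pool.Agent.Lib.MP_f9aece_nt_n4.Defs
import Pool.Agent.Lib.MP_f9aece_nt_j4.I2Base

/-!
Mesoscopic moments of zeta, general exponents: definitions.
-/

set_option autoImplicit false

namespace Pool.Agent.Lib.MS

open MeasureTheory Set Filter Topology Complex
open scoped ComplexConjugate
open scoped ArithmeticFunction.Omega
open Pool.Agent.Lib.MP_f9aece_nt (DP pair BK K1 ev PP VV Smo expo EE)
open Pool.Agent.Lib.MP_f9aece_nt_h40 (ind)
open Pool.Agent.Lib.MP_f9aece_nt_h85 (rz Rst)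
open Pool.Agent.Lib.J4 (Sg Yg Jok Vs En V2 SU)

/-! ### measures -/

/-- polynomials of length at most `X` -/
def Len (X : ℝ) (P : DP) : Prop := ∀ n, P.coeff n ≠ 0 → 1 ≤ n ∧ (n : ℝ) ≤ X

/-- the mean value property of a probability measure, for polynomials of length at most `X` -/
structure MVP (ν : Measure ℝ) (X η : ℝ) : Prop where
  prob : IsProbabilityMeasure ν
  mv : ∀ P Q : DP, Len X P → Len X Q →
    ‖∫ t, ev t P * conj (ev t Q) ∂ν - ((BK K1 P Q : ℝ) : ℂ)‖ ≤ η * Real.sqrt (En P * En Q)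

/-- the uniform probability measure on `[x, x + T]` -/
noncomputable def un (x T : ℝ) : Measure ℝ := (ENNReal.ofReal T)⁻¹ • volume.restrict (Icc x (x + T))

/-! ### coefficients as arithmetic functions -/

/-- the coefficients at the positive integers -/
noncomputable def af (f : DP) : ArithmeticFunction ℝ := ⟨fun n => if n = 0 then 0 else f.coeff n, by simp⟩

/-- the arithmetic function one -/
noncomputable def zr : ArithmeticFunction ℝ := ⟨fun n => if n = 0 then 0 else 1, by simp⟩

/-- coefficients of the exponential of `c` times the sum over all primes -/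
noncomputable def ex (c : ℝ) : ArithmeticFunction ℝ :=
  ⟨fun n => if n = 0 then 0 else ∏ p ∈ n.primeFactors, c ^ n.factorization p / ((n.factorization p).factorial : ℝ),
    by simp⟩

/-- coefficients of the `q`-th power of zeta times the exponential -/
noncomputable def hq (q : ℕ) (c : ℝ) : ArithmeticFunction ℝ := zr ^ q * ex c

/-! ### parameters -/

/-- the parameters: `q` is the exponent, `v`, `p0`, `Y`, `J` determine the groups -/
structure Par where
  q : ℕ
  v : ℕ
  p0 : ℕ
  J : ℕ
  Y : ℝ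

/-- standing assumptions -/
structure Par.Ok (A : Par) : Prop where
  hq : 1 ≤ A.q
  hv : 4 ≤ A.v
  hp : 1000 ≤ A.p0
  hY : 0 < A.Y
  hJ : Jok A.v A.p0 A.Y A.J

/-- the groups of primes -/
noncomputable def Par.S (A : Par) (g : ℕ) : Finset ℕ := Sg A.v A.p0 A.Y g

/-- the scales -/
noncomputable def Par.y (A : Par) (g : ℕ) : ℝ := Yg A.v A.Y g

/-- size parameter of a group -/
def Par.r (A : Par) (g : ℕ) : ℕ := A.q ^ 2 * A.v * (g + 1)

/-- thresholds -/
noncomputable def Par.R (A : Par) (g : ℕ) : ℝ := 1000 * (A.r g : ℝ)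

/-- degree of the truncated exponentials -/
def Par.K (A : Par) (g : ℕ) : ℕ := 50000 * A.q * A.r g

/-- degree of the powers -/
def Par.M (A : Par) (g : ℕ) : ℕ := 100000 * A.q * A.r g

/-- limit for the number of prime factors -/
def Par.κ (A : Par) (g : ℕ) : ℕ := 50000 * A.r g * (g + 1)

/-- smooth polynomial of the groups `i ≤ g < J` -/
noncomputable def Par.EI (A : Par) (i : ℕ) : DP := ∏ g ∈ Finset.Ico i A.J, ind (A.κ g) (A.S g)

/-- product over the groups `i ≤ g < J`: powers of prime sums for `g ∈ s`, truncated exponentials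
otherwise -/
noncomputable def Par.B (A : Par) (c : ℝ) (i : ℕ) (s : Finset ℕ) : DP :=
  (∏ g ∈ Finset.Ico i A.J \ s, expo c (A.K g) (A.S g)) * ∏ g ∈ s, PP (A.S g) ^ A.M g

/-- weight of a set of groups -/
noncomputable def Par.W (A : Par) (s : Finset ℕ) : ℝ := ∏ g ∈ s, (A.R g ^ (2 * A.M g))⁻¹

/-- sum of reciprocals of the groups `i ≤ g < J` -/
noncomputable def Par.V (A : Par) (i : ℕ) : ℝ := Vs A.v A.p0 A.Y i A.J

/-- all primes of the groups `i ≤ g < J` -/
noncomputable def Par.SU (A : Par) (i : ℕ) : Finset ℕ := J4.SU A.v A.p0 A.Y i A.J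

open Classical in
/-- the polynomial with coefficients `u (log n / L)` over the integers up to `e^L` without prime
factors in `(p0, e^y]` -/
noncomputable def RW (u : ℝ → ℝ) (p0 : ℕ) (y L : ℝ) : DP :=
  ∑ n ∈ (Finset.Icc 1 ⌊Real.exp L⌋₊).filter (fun n => n ∈ Smo (Rst p0 y)),
    MonoidAlgebra.single n (u (Real.log n / L))

/-- window polynomials -/
noncomputable def Par.QW (A : Par) (u : ℝ → ℝ) (L : ℝ) (i : ℕ) : DP :=
  RW u A.p0 (A.y (i + 1)) L - RW u A.p0 (A.y i) L * ind (A.κ i) (A.S i)

/-- the truncated zeta polynomial -/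
noncomputable def TZ (u : ℝ → ℝ) (L : ℝ) : DP :=
  ∑ n ∈ Finset.Icc 1 ⌊Real.exp L⌋₊, MonoidAlgebra.single n (u (Real.log n / L))

/-- cut-off functions -/
structure Cut (B Lam : ℝ) (u : ℝ → ℝ) : Prop where
  bd : ∀ x, |u x| ≤ B
  lip : ∀ x y, |u x - u y| ≤ Lam * |x - y|
  zero : ∀ x, 1 ≤ x → u x = 0

/-- bound for the logarithms of the lengths of the polynomials over the groups `≥ i` -/
noncomputable def Par.ell (A : Par) (i : ℕ) : ℝ :=
  if i < A.J then 400000 * A.q ^ 3 * A.v * (i + 1) ^ 2 * A.y i else 0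

end Pool.Agent.Lib.MS
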