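import Mathlib
import Pool.Agent.Lib.MP_f9aece_nt_ms.Defs

/-!
Mesoscopic moments of zeta: statements about the groups of primes, general exponent `q`.
Module `X` proves `theorem x : X`.
-/

set_option autoImplicit false

namespace Pool.Agent.Lib.MS

open MeasureTheory Set Filter Topology Complex
open scoped ComplexConjugate
open scoped ArithmeticFunction.Omega
open Pool.Agent.Lib.MP_f9aece_nt (DP pair BK K1 ev PP VV Smo expo EE)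
open Pool.Agent.Lib.MP_f9aece_nt_h40 (ind)
open Pool.Agent.Lib.MP_f9aece_nt_h85 (rz Rst)
open Pool.Agent.Lib.J4 (Sg Yg Jok Vs En V2 SU)
open Pool.Agent.Lib.N4 (OmS)

/-! ### Q0: measures -/

/-- Q0: the uniform measure on an interval -/
def UnifMVP : Prop := ∀ x T X : ℝ, 0 < T → 1 ≤ X → MVP (un x T) X (2 * X ^ 2 / T)

/-! ### Q1: energies -/

/-- Q1: weighted energies of the multiplicative functions `hq` -/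
def EnW : Prop := ∀ (q : ℕ) (b : ℝ), 0 ≤ b → ∃ C : ℝ, 0 ≤ C ∧ ∀ S : Finset ℕ, (∀ p ∈ S, p.Prime) →
  ∀ y : ℕ → ℝ, (∀ p ∈ S, 0 ≤ y p ∧ y p ≤ 1 / 2) → ∀ c : ℝ, |c| ≤ b →
  ∀ F : Finset ℕ, (∀ n ∈ F, n ∈ Smo (S : Set ℕ)) →
  ∑ n ∈ F, hq q c n ^ 2 * ∏ p ∈ S, y p ^ n.factorization p
    ≤ Real.exp (∑ p ∈ S, ((q + c) ^ 2 * y p + C * y p ^ 2))

/-- Q2: blocks, power of the indicator times truncated exponential -/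
def BlockE : Prop := ∀ q : ℕ, 1 ≤ q → ∃ C : ℝ, 0 ≤ C ∧ ∀ (S : Finset ℕ) (r κ M : ℕ) (c : ℝ),
  (∀ p ∈ S, p.Prime ∧ 1000 ≤ p) → 1 ≤ r → q ^ 2 * VV S ≤ 2 * r → |c| ≤ q → 50000 * r ≤ κ →
  50000 * r ≤ M →
  En (ind κ S ^ q * expo c M S) ≤ Real.exp ((q + c) ^ 2 * VV S + C * V2 S + Real.exp (-r))

/-- Q3: blocks, power of the indicator times power of the prime sum -/
def BlockP : Prop := ∀ q : ℕ, 1 ≤ q → ∃ C : ℝ, 0 ≤ C ∧ ∀ (S : Finset ℕ) (r κ : ℕ),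
  (∀ p ∈ S, p.Prime ∧ 1000 ≤ p) → 1 ≤ r → q ^ 2 * VV S ≤ 2 * r →
  ((1000 * (r : ℝ)) ^ (2 * (100000 * q * r)))⁻¹ * En (ind κ S ^ q * PP S ^ (100000 * q * r))
    ≤ Real.exp (C * V2 S) * Real.exp (-r)

/-- Q4: sums over the sets of groups -/
def SumE : Prop := ∀ q : ℕ, 1 ≤ q → ∃ C : ℝ, 0 ≤ C ∧ ∀ A : Par, A.q = q → A.Ok →
  ∀ (i : ℕ) (c : ℝ), |c| ≤ q →
  ∑ s ∈ (Finset.Ico i A.J).powerset, A.W s * En (A.EI i ^ q * A.B c i s)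
    ≤ Real.exp ((q + c) ^ 2 * A.V i + C / A.p0 + 4 * Real.exp (-(A.v : ℝ)))

/-- Q5: the same without the indicators -/
def SumB : Prop := ∀ q : ℕ, 1 ≤ q → ∃ C : ℝ, 0 ≤ C ∧ ∀ A : Par, A.q = q → A.Ok →
  ∀ (i : ℕ) (c : ℝ), |c| ≤ q →
  ∑ s ∈ (Finset.Ico i A.J).powerset, A.W s * En (A.B c i s)
    ≤ Real.exp (c ^ 2 * A.V i + C / A.p0 + 4 * Real.exp (-(A.v : ℝ)))

/-! ### Q6: pointwise inequality, lengths, the inequality for one level -/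

/-- Q6: the pointwise inequality and the two majorants -/
def PtYoung : Prop := ∀ A : Par, A.Ok → ∀ (i : ℕ) (k : ℝ), 0 < k → (A.q : ℝ) - 1 ≤ k → k ≤ A.q →
  ∀ t : ℝ, ∃ G H : ℝ, 0 < G ∧ 0 < H ∧
    (∀ z : ℂ, ‖z‖ ^ (2 * k) = (‖z‖ ^ (2 * A.q) * G) ^ (k / A.q) * H ^ (1 - k / A.q)) ∧
    G ≤ Real.exp (Real.exp (-(A.v : ℝ))) * ∑ s ∈ (Finset.Ico i A.J).powerset,
      A.W s * ‖ev t (A.B (k - A.q) i s)‖ ^ 2 ∧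
    H ≤ Real.exp (Real.exp (-(A.v : ℝ))) * ∑ s ∈ (Finset.Ico i A.J).powerset,
      A.W s * ‖ev t (A.B k i s)‖ ^ 2

/-- Q7: lengths and supports -/
def LenB : Prop := ∀ A : Par, A.Ok → ∀ i : ℕ, i ≤ A.J → ∀ (c : ℝ) (s : Finset ℕ),
  s ∈ (Finset.Ico i A.J).powerset → ∀ n : ℕ,
  ((A.EI i ^ A.q * A.B c i s).coeff n ≠ 0 →
    n ∈ Smo (A.SU i : Set ℕ) ∧ 1 ≤ n ∧ Real.log n ≤ A.ell i) ∧
  ((A.B c i s).coeff n ≠ 0 → n ∈ Smo (A.SU i : Set ℕ) ∧ 1 ≤ n ∧ Real.log n ≤ A.ell i) ∧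
  ((A.EI i).coeff n ≠ 0 → n ∈ Smo (A.SU i : Set ℕ) ∧ 1 ≤ n ∧ Real.log n ≤ A.ell i)

/-- Q8: one level -/
def Level : Prop := ∀ q : ℕ, 1 ≤ q → ∃ C : ℝ, 1 ≤ C ∧ ∀ A : Par, A.q = q → A.Ok →
  ∀ k : ℝ, 0 < k → (q : ℝ) - 1 ≤ k → k ≤ q → ∀ i : ℕ, i ≤ A.J →
  ∀ (X N η : ℝ) (ν : Measure ℝ), MVP ν X η → η ≤ 1 → 0 ≤ N → N ^ q * Real.exp (A.ell i) ≤ X →
  ∀ F : DP, (∀ n, F.coeff n ≠ 0 → n ∈ Smo (Rst A.p0 (A.y i)) ∧ (n : ℝ) ≤ N) →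
  ∫ t, ‖ev t (F * A.EI i)‖ ^ (2 * k) ∂ν ≤ C * En (F ^ q) ^ (k / q) * Real.exp (k ^ 2 * A.V i)

/-- Q9: sums over primes -/
def Mert : Prop := ∃ C : ℝ, 0 ≤ C ∧ ∀ A : Par, A.Ok → ∀ i : ℕ,
  A.V i ≤ Real.log (A.y i + 1) + C

/-! ### Q10: rough numbers -/

/-- Q10: energy of the numbers without prime factors in `(p0, e^y]` -/
def RoughQ : Prop := ∀ q p0 : ℕ, 2 ≤ p0 → ∃ C : ℝ, 1 ≤ C ∧ ∀ y X : ℝ, 0 ≤ y → 0 ≤ X →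
  ∀ B : Finset ℕ, (∀ n ∈ B, n ∈ Smo (Rst p0 y) ∧ Real.log n ≤ X) →
  ∑ n ∈ B, (zr ^ q) n ^ 2 * (n : ℝ)⁻¹ ≤ C * ((X + y + 1) / (y + 1)) ^ (q ^ 2)

/-- Q11: the same, with many prime factors in one group -/
def OmQ : Prop := ∀ q p0 : ℕ, 1000 ≤ p0 → ∃ C : ℝ, 1 ≤ C ∧ ∀ y y' X : ℝ, 0 ≤ y' → y' ≤ y →
  0 ≤ X → ∀ S : Finset ℕ, (∀ p, p ∈ S ↔ p.Prime ∧ p0 < p ∧ y' < Real.log p ∧ Real.log p ≤ y) →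
  ∀ (κ : ℕ) (B : Finset ℕ), (∀ n ∈ B, n ∈ Smo (Rst p0 y') ∧ Real.log n ≤ X ∧ κ < OmS S n) →
  ∑ n ∈ B, (zr ^ q) n ^ 2 * (n : ℝ)⁻¹
    ≤ C * ((1 / 2) ^ κ * Real.exp (2 * q ^ 2 * VV S) * ((X + y + 1) / (y + 1)) ^ (q ^ 2))

/-- Q12: energy of the `q`-th power of a polynomial over rough numbers -/
def RoughEn : Prop := ∀ q p0 : ℕ, 1 ≤ q → 2 ≤ p0 → ∃ C : ℝ, 1 ≤ C ∧ ∀ y X a : ℝ, 0 ≤ y → 0 ≤ X →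
  0 ≤ a → ∀ f : DP, (∀ n, |f.coeff n| ≤ a ∧ (f.coeff n ≠ 0 → n ∈ Smo (Rst p0 y) ∧
    Real.log n ≤ X)) →
  En (f ^ q) ≤ C * a ^ (2 * q) * ((X + y + 1) / (y + 1)) ^ (q ^ 2)

/-- Q13: energy of the `q`-th power of a window -/
def WinEn : Prop := ∀ q p0 : ℕ, 1 ≤ q → 1000 ≤ p0 → ∃ C : ℝ, 1 ≤ C ∧ ∀ y y' X a b : ℝ, 0 ≤ y' →
  y' ≤ y → 0 ≤ X → 0 ≤ a → a ≤ b → ∀ S : Finset ℕ,
  (∀ p, p ∈ S ↔ p.Prime ∧ p0 < p ∧ y' < Real.log p ∧ Real.log p ≤ y) → ∀ (κ : ℕ) (f : DP),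
  (∀ n, |f.coeff n| ≤ b ∧ (OmS S n ≤ κ → |f.coeff n| ≤ a) ∧
    (f.coeff n ≠ 0 → n ∈ Smo (Rst p0 y') ∧ Real.log n ≤ X)) →
  En (f ^ q) ≤ C * (a ^ (2 * q) * ((X + y' + 1) / (y' + 1)) ^ (q ^ 2)
    + b ^ (2 * q) * ((1 / 2) ^ κ * Real.exp (2 * q ^ 2 * VV S) * ((X + y + 1) / (y + 1)) ^ (q ^ 2)))

/-! ### Q14: the telescoping decomposition and the windows -/

/-- Q14: telescoping -/
def Telescope : Prop := ∀ A : Par, A.Ok → ∀ (u : ℝ → ℝ) (L : ℝ), 0 ≤ L →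
  TZ u L = RW u A.p0 A.Y L * A.EI 0 + ∑ i ∈ Finset.range A.J, A.QW u L i * A.EI (i + 1)

/-- Q15: coefficients of the window polynomials -/
def QCoeff : Prop := ∀ A : Par, A.Ok → ∀ (B Lam : ℝ) (u : ℝ → ℝ), Cut B Lam u → ∀ L : ℝ, 0 < L →
  (∀ i < A.J, (A.κ i : ℝ) * A.y i ≤ L) → ∀ i < A.J, ∀ n : ℕ,
  |(A.QW u L i).coeff n| ≤ 2 * B ∧
  (OmS (A.S i) n ≤ A.κ i → |(A.QW u L i).coeff n| ≤ Lam * (A.κ i * A.y i / L)) ∧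
  ((A.QW u L i).coeff n ≠ 0 → n ∈ Smo (Rst A.p0 (A.y (i + 1))) ∧ Real.log n ≤ 2 * L)

/-- Q16: energy of the windows, for `Y = L e^(-2v)` -/
def WinQ : Prop := ∀ q p0 : ℕ, 1 ≤ q → 1000 ≤ p0 → ∀ B Lam : ℝ, ∃ C : ℝ, 1 ≤ C ∧ ∃ v0 : ℕ,
  ∀ A : Par, A.q = q → A.p0 = p0 → v0 ≤ A.v → A.Ok → ∀ L : ℝ, A.Y = L * Real.exp (-(2 * A.v)) →
  1 ≤ L → ∀ u : ℝ → ℝ, Cut B Lam u → ∀ i < A.J,
  En (A.QW u L i ^ q) ≤ C * ((L / (A.y (i + 1) + 1)) ^ (q ^ 2)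
    * ((A.κ i * A.y i / L) ^ (2 * q) + (1 / 2) ^ A.κ i * Real.exp (4 * q ^ 2 * A.v * (i + 1))))

/-- Q17: the numerical inequality for the sum over the windows -/
def NumWin : Prop := ∀ (q : ℕ) (k : ℝ), 1 ≤ q → 0 < k → (q : ℝ) - 1 < k → k ≤ q →
  ∃ (C : ℝ) (v0 : ℕ), 1 ≤ C ∧ ∀ A : Par, A.q = q → v0 ≤ A.v → A.Ok → ∀ L : ℝ,
  A.Y = L * Real.exp (-(2 * A.v)) → 1 ≤ L → ∀ i < A.J,
  ((L / (A.y (i + 1) + 1)) ^ (q ^ 2) * ((A.κ i * A.y i / L) ^ (2 * q)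
      + (1 / 2) ^ A.κ i * Real.exp (4 * q ^ 2 * A.v * (i + 1)))) ^ (k / q)
    * (A.y (i + 1) + 1) ^ (k ^ 2)
  ≤ C * (A.v : ℝ) ^ (2 * k) * (1 / 16) ^ ((2 * k + 1) * i)
    * (L ^ (k ^ 2) * Real.exp (-(k * A.v) - 2 * k * A.v * (1 - (q - k))))

/-- Q18: all windows together -/
def Windows : Prop := ∀ (q : ℕ) (k : ℝ), 1 ≤ q → 0 < k → (q : ℝ) - 1 < k → k ≤ q →
  ∀ (p0 : ℕ), 1000 ≤ p0 → ∀ B Lam ε : ℝ, 0 < ε → ∃ v0 : ℕ, ∀ v : ℕ, v0 ≤ v → ∃ C0 : ℝ, 1 ≤ C0 ∧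
  ∀ A : Par, A.q = q → A.v = v → A.p0 = p0 → A.Ok → ∀ L : ℝ, C0 ≤ L →
  A.Y = L * Real.exp (-(2 * A.v)) → ∀ (X η : ℝ) (ν : Measure ℝ), MVP ν X η → η ≤ 1 →
  Real.exp (C0 * L) ≤ X → ∀ u : ℝ → ℝ, Cut B Lam u →
  ∫ t, ‖ev t (TZ u L) - ev t (RW u p0 A.Y L * A.EI 0)‖ ^ (2 * k) ∂ν
    ≤ ε * (L ^ (k ^ 2) * Real.exp (-(2 * k * v * (1 - (q - k)))))

end Pool.Agent.Lib.MS
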