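import Mathlib
import Pool.Agent.Lib.MP_f9aece_nt_ms.StmtsQ
import Pool.Agent.Lib.MP_f9aece_nt_h97.SmoSum

/-!
Coefficients of Dirichlet polynomials as arithmetic functions: black box for the modules Q1 - Q13.
-/

set_option autoImplicit false

namespace Pool.Agent.Lib.MS

open MeasureTheory Set Filter Topology Complex
open scoped ComplexConjugate
open scoped ArithmeticFunction.Omega
open Pool.Agent.Lib.MP_f9aece_nt (DP pair BK K1 ev PP VV Smo expo EE)
open Pool.Agent.Lib.MP_f9aece_nt_h40 (ind)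
open Pool.Agent.Lib.MP_f9aece_nt_h85 (rz Rst)
open Pool.Agent.Lib.J4 (Sg Yg Jok Vs En V2 SU)

lemma af_apply (f : DP) {n : ℕ} (hn : n ≠ 0) : af f n = f.coeff n := by
  change (if n = 0 then (0 : ℝ) else f.coeff n) = f.coeff n
  rw [if_neg hn]

lemma af_one : af 1 = 1 := by
  ext n
  rcases eq_or_ne n 0 with h | h
  · subst h; simp
  · rw [af_apply _ h, ArithmeticFunction.one_apply, MonoidAlgebra.one_def, MonoidAlgebra.coeff_single,
      Finsupp.single_apply]
    simp [eq_comm]

lemma af_mul (f g : DP) : af (f * g) = af f * af g := by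
  ext n
  rcases eq_or_ne n 0 with h | h
  · subst h; simp
  · rw [af_apply _ h, ArithmeticFunction.mul_apply,
      MonoidAlgebra.coeff_mul_antidiag f g n n.divisorsAntidiagonal (by
        intro p
        rw [Nat.mem_divisorsAntidiagonal]
        exact ⟨fun h1 => h1.1, fun h1 => ⟨h1, h⟩⟩)]
    refine Finset.sum_congr rfl fun p hp => ?_
    have h1 := (Nat.mem_divisorsAntidiagonal.mp hp).1
    have h2 : p.1 ≠ 0 := by rintro h0; rw [h0, zero_mul] at h1; exact h h1.symm
    have h3 : p.2 ≠ 0 := by rintro h0; rw [h0, mul_zero] at h1; exact h h1.symm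
    rw [af_apply _ h2, af_apply _ h3]

lemma af_pow (f : DP) (k : ℕ) : af (f ^ k) = af f ^ k := by
  induction k with
  | zero => rw [pow_zero, pow_zero, af_one]
  | succ k ih => rw [pow_succ, pow_succ, af_mul, ih]

lemma af_prod {ι : Type} (s : Finset ι) (f : ι → DP) : af (∏ i ∈ s, f i) = ∏ i ∈ s, af (f i) := by
  classical
  induction s using Finset.induction_on with
  | empty => simp [af_one]
  | insert a s ha ih => rw [Finset.prod_insert ha, Finset.prod_insert ha, af_mul, ih]

/-- energy in terms of the arithmetic function -/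
lemma En_af {f : DP} (hf : ∀ n, f.coeff n ≠ 0 → 1 ≤ n) :
    En f = ∑ n ∈ f.coeff.support, af f n ^ 2 * (n : ℝ)⁻¹ := by
  unfold En
  rw [MP_f9aece_nt.BK_K1_eq, MP_f9aece_nt.pair_def]
  refine Finset.sum_congr rfl fun n hn => ?_
  have h1 : n ≠ 0 := by
    have := hf n (Finsupp.mem_support_iff.mp hn)
    omega
  rw [af_apply _ h1]
  ring

/-- monotonicity of the convolution -/
lemma abs_mul_le {f g F G : ArithmeticFunction ℝ} (hf : ∀ n, |f n| ≤ F n) (hg : ∀ n, |g n| ≤ G n)
    (n : ℕ) : |(f * g) n| ≤ (F * G) n := by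
  rw [ArithmeticFunction.mul_apply, ArithmeticFunction.mul_apply]
  refine (Finset.abs_sum_le_sum_abs _ _).trans (Finset.sum_le_sum fun p _ => ?_)
  rw [abs_mul]
  exact mul_le_mul (hf _) (hg _) (abs_nonneg _) ((abs_nonneg _).trans (hf _))

lemma abs_pow_le {f F : ArithmeticFunction ℝ} (hf : ∀ n, |f n| ≤ F n) (k n : ℕ) :
    |(f ^ k) n| ≤ (F ^ k) n := by
  induction k generalizing n with
  | zero =>
    rw [pow_zero, pow_zero, ArithmeticFunction.one_apply]
    split_ifs <;> simp
  | succ k ih =>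
    rw [pow_succ, pow_succ]
    exact abs_mul_le ih hf n

/-- local agreement -/
lemma mul_agree {f g F G : ArithmeticFunction ℝ} {n : ℕ} (hf : ∀ d, d ∣ n → f d = F d)
    (hg : ∀ d, d ∣ n → g d = G d) : (f * g) n = (F * G) n := by
  rw [ArithmeticFunction.mul_apply, ArithmeticFunction.mul_apply]
  refine Finset.sum_congr rfl fun p hp => ?_
  have h1 := (Nat.mem_divisorsAntidiagonal.mp hp).1
  rw [hf _ ⟨p.2, h1.symm⟩, hg _ ⟨p.1, by rw [mul_comm]; exact h1.symm⟩]

lemma pow_agree {f F : ArithmeticFunction ℝ} {n : ℕ} (hf : ∀ d, d ∣ n → f d = F d) (k : ℕ) :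
    (f ^ k) n = (F ^ k) n := by
  have h : ∀ k : ℕ, ∀ d, d ∣ n → (f ^ k) d = (F ^ k) d := by
    intro k
    induction k with
    | zero => intro d _; rfl
    | succ k ih =>
      intro d hd
      rw [pow_succ, pow_succ]
      exact mul_agree (fun e he => ih e (he.trans hd)) fun e he => hf e (he.trans hd)
  exact h k n dvd_rfl

lemma zr_apply {n : ℕ} (hn : n ≠ 0) : zr n = 1 := by
  change (if n = 0 then (0 : ℝ) else 1) = 1
  rw [if_neg hn]

lemma zr_mult : ArithmeticFunction.IsMultiplicative zr := by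
  rw [ArithmeticFunction.IsMultiplicative.iff_ne_zero]
  refine ⟨zr_apply one_ne_zero, fun {m n} hm hn _ => ?_⟩
  rw [zr_apply hm, zr_apply hn, zr_apply (mul_ne_zero hm hn), one_mul]

lemma mult_pow {f : ArithmeticFunction ℝ} (hf : f.IsMultiplicative) (q : ℕ) :
    ArithmeticFunction.IsMultiplicative (f ^ q) := by
  induction q with
  | zero => rw [pow_zero]; exact ArithmeticFunction.isMultiplicative_one
  | succ k ih => rw [pow_succ]; exact ih.mul hf

lemma zr_pow_mult (q : ℕ) : ArithmeticFunction.IsMultiplicative (zr ^ q) := mult_pow zr_mult q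

lemma abs_zr_le (n : ℕ) : |zr n| ≤ zr n := by
  rcases eq_or_ne n 0 with h | h
  · subst h; simp
  · rw [zr_apply h, abs_one]

lemma zr_pow_nonneg (q n : ℕ) : 0 ≤ (zr ^ q) n :=
  (abs_nonneg _).trans (abs_pow_le abs_zr_le q n)

lemma ex_apply (c : ℝ) {n : ℕ} (hn : n ≠ 0) : ex c n =
    ∏ p ∈ n.primeFactors, c ^ n.factorization p / ((n.factorization p).factorial : ℝ) := by
  change (if n = 0 then (0 : ℝ) else _) = _
  rw [if_neg hn]

lemma ex_mult (c : ℝ) : ArithmeticFunction.IsMultiplicative (ex c) := by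
  rw [ArithmeticFunction.IsMultiplicative.iff_ne_zero]
  refine ⟨by rw [ex_apply c one_ne_zero]; simp, fun {m n} hm hn hmn => ?_⟩
  rw [ex_apply c hm, ex_apply c hn, ex_apply c (mul_ne_zero hm hn),
    Nat.Coprime.primeFactors_mul hmn, Finset.prod_union (Nat.Coprime.disjoint_primeFactors hmn)]
  congr 1
  · refine Finset.prod_congr rfl fun p hp => ?_
    have h1 : n.factorization p = 0 := by
      apply Nat.factorization_eq_zero_of_not_dvd
      intro hd
      have h2 := Nat.mem_primeFactors.mp hp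
      have h3 := Nat.dvd_gcd h2.2.1 hd
      rw [hmn] at h3
      exact h2.1.one_lt.ne' (Nat.dvd_one.mp h3)
    rw [Nat.factorization_mul hm hn, Finsupp.add_apply, h1, add_zero]
  · refine Finset.prod_congr rfl fun p hp => ?_
    have h1 : m.factorization p = 0 := by
      apply Nat.factorization_eq_zero_of_not_dvd
      intro hd
      have h2 := Nat.mem_primeFactors.mp hp
      have h3 := Nat.dvd_gcd hd h2.2.1
      rw [hmn] at h3
      exact h2.1.one_lt.ne' (Nat.dvd_one.mp h3)
    rw [Nat.factorization_mul hm hn, Finsupp.add_apply, h1, zero_add]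

lemma ex_zero : ex 0 = 1 := by
  ext n
  rcases eq_or_ne n 0 with h | h
  · subst h; simp
  rw [ex_apply 0 h, ArithmeticFunction.one_apply]
  split_ifs with h1
  · subst h1; simp
  · obtain ⟨p, hp, hd⟩ := Nat.exists_prime_and_dvd h1
    refine Finset.prod_eq_zero (Nat.mem_primeFactors.mpr ⟨hp, hd, h⟩) ?_
    have h2 : n.factorization p ≠ 0 := by
      have := hp.factorization_pos_of_dvd h hd
      omega
    rw [zero_pow h2, zero_div]

lemma ex_prime_pow (c : ℝ) {p : ℕ} (hp : p.Prime) (j : ℕ) :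
    ex c (p ^ j) = c ^ j / (j.factorial : ℝ) := by
  rcases Nat.eq_zero_or_pos j with h | h
  · subst h; rw [pow_zero, ex_apply c one_ne_zero]; simp
  · rw [ex_apply c (pow_ne_zero j hp.ne_zero), Nat.primeFactors_prime_pow h.ne' hp,
      Finset.prod_singleton, Nat.Prime.factorization_pow hp, Finsupp.single_eq_same]

lemma abs_ex_le (c : ℝ) (n : ℕ) : |ex c n| ≤ ex |c| n := by
  rcases eq_or_ne n 0 with h | h
  · subst h; simp
  · rw [ex_apply c h, ex_apply _ h, Finset.abs_prod]
    refine le_of_eq (Finset.prod_congr rfl fun p _ => ?_)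
    rw [abs_div, abs_pow, Nat.abs_cast]

lemma Omega_eq {n : ℕ} : Ω n = ∑ p ∈ n.primeFactors, n.factorization p := by
  rw [ArithmeticFunction.cardFactors_eq_sum_factorization, Finsupp.sum, Nat.support_factorization]

lemma ex_scale (c : ℝ) {n : ℕ} (hn : n ≠ 0) : ex c n = c ^ Ω n * ex 1 n := by
  rw [ex_apply c hn, ex_apply 1 hn, Omega_eq, ← Finset.prod_pow_eq_pow_sum,
    ← Finset.prod_mul_distrib]
  refine Finset.prod_congr rfl fun p _ => ?_
  rw [one_pow]
  ring

lemma hq_mult (q : ℕ) (c : ℝ) : ArithmeticFunction.IsMultiplicative (hq q c) :=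
  (zr_pow_mult q).mul (ex_mult c)

lemma hq_zero (q : ℕ) : hq q 0 = zr ^ q := by
  unfold hq
  rw [ex_zero, mul_one]

lemma abs_hq_le (q : ℕ) (c : ℝ) (n : ℕ) : |hq q c n| ≤ hq q |c| n :=
  abs_mul_le (fun n => abs_pow_le abs_zr_le q n) (abs_ex_le c) n

lemma hq_nonneg (q : ℕ) {c : ℝ} (hc : 0 ≤ c) (n : ℕ) : 0 ≤ hq q c n := by
  have h := abs_hq_le q c n
  rw [abs_of_nonneg hc] at h
  exact (abs_nonneg _).trans h

/-- a multiplicative function at a smooth number -/
lemma mult_smo {f : ArithmeticFunction ℝ} (hf : f.IsMultiplicative) {S : Finset ℕ} {n : ℕ}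
    (hn : n ∈ Smo (S : Set ℕ)) : f n = ∏ p ∈ S, f (p ^ n.factorization p) := by
  rw [ArithmeticFunction.IsMultiplicative.multiplicative_factorization f hf hn.1, Finsupp.prod,
    Nat.support_factorization]
  exact MP_f9aece_nt_h97.prod_factorization_smo hn (fun p k => f (p ^ k)) fun p => by
    rw [pow_zero]; exact hf.map_one

open Classical in
lemma af_ind {S : Finset ℕ} (hS : ∀ p ∈ S, p.Prime) (κ n : ℕ) :
    af (ind κ S) n = if n ∈ Smo (S : Set ℕ) ∧ Ω n ≤ κ then 1 else 0 := by
  rcases eq_or_ne n 0 with h | h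
  · subst h
    rw [if_neg fun h => h.1.1 rfl]
    simp
  · rw [af_apply _ h, MP_f9aece_nt_h40.coeff_ind]
    simp only [MP_f9aece_nt_h40.mem_indS hS]

lemma ex_smo {S : Finset ℕ} (hS : ∀ p ∈ S, p.Prime) {n : ℕ} (hn : n ∈ Smo (S : Set ℕ)) :
    ex 1 n = ∏ p ∈ S, (((n.factorization p).factorial : ℝ))⁻¹ := by
  rw [mult_smo (ex_mult 1) hn]
  refine Finset.prod_congr rfl fun p hp => ?_
  rw [ex_prime_pow 1 (hS p hp), one_pow, one_div]

lemma ex_div {S : Finset ℕ} (hS : ∀ p ∈ S, p.Prime) {n p : ℕ} (hn : n ∈ Smo (S : Set ℕ))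
    (hp : p ∈ S) (hd : p ∣ n) : ex 1 (n / p) = (n.factorization p : ℝ) * ex 1 n := by
  have hpp := hS p hp
  have hn' : n / p ∈ Smo (S : Set ℕ) := MP_f9aece_nt_h97.dvd_smo hn (Nat.div_dvd_of_dvd hd)
  rw [ex_smo hS hn, ex_smo hS hn', ← Finset.mul_prod_erase S _ hp, ← Finset.mul_prod_erase S _ hp,
    ← mul_assoc]
  have hf : (n / p).factorization = n.factorization - p.factorization := Nat.factorization_div hd
  have h1 : 0 < n.factorization p := hpp.factorization_pos_of_dvd hn.1 hd
  congr 1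
  · rw [hf, Finsupp.tsub_apply, hpp.factorization_self]
    obtain ⟨a, ha⟩ : ∃ a, n.factorization p = a + 1 := ⟨n.factorization p - 1, by omega⟩
    rw [ha, Nat.add_sub_cancel, Nat.factorial_succ]
    push_cast
    have : (a.factorial : ℝ) ≠ 0 := by positivity
    have h3 : ((a : ℝ) + 1) ≠ 0 := by positivity
    field_simp
  · refine Finset.prod_congr rfl fun s hs => ?_
    have hsp : s ≠ p := (Finset.mem_erase.mp hs).1
    have h2 : p.factorization s = 0 := by
      apply Nat.factorization_eq_zero_of_not_dvd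
      intro h3
      rcases (Nat.dvd_prime hpp).mp h3 with h4 | h4
      · exact (hS s (Finset.mem_erase.mp hs).2).one_lt.ne' h4
      · exact hsp h4
    rw [hf, Finsupp.tsub_apply, h2, Nat.sub_zero]

open Classical in
lemma af_PP_pow {S : Finset ℕ} (hS : ∀ p ∈ S, p.Prime) (r n : ℕ) :
    af (PP S ^ r) n = if n ∈ Smo (S : Set ℕ) ∧ Ω n = r then (r.factorial : ℝ) * ex 1 n else 0 := by
  rcases eq_or_ne n 0 with h | h
  · subst h
    rw [if_neg fun h => h.1.1 rfl]
    simp
  split_ifs with hc
  · obtain ⟨h1, h2⟩ := hc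
    induction r generalizing n with
    | zero =>
      have h3 : n = 1 := by
        by_contra h4
        obtain ⟨p, hp, hd⟩ := Nat.exists_prime_and_dvd h4
        have h5 := ArithmeticFunction.cardFactors_pos_iff_one_lt.mpr
          (by have := hp.one_lt; have := Nat.le_of_dvd (Nat.pos_of_ne_zero h) hd; omega : 1 < n)
        omega
      subst h3
      rw [pow_zero, af_one, ex_apply 1 one_ne_zero]
      simp
    | succ r ih =>
      rw [af_apply _ h, MP_f9aece_nt.coeff_PP_pow_succ hS]
      have h3 : ∀ p ∈ S.filter (fun p => p ∣ n), (PP S ^ r).coeff (n / p)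
          = (r.factorial : ℝ) * ((n.factorization p : ℝ) * ex 1 n) := by
        intro p hp
        rw [Finset.mem_filter] at hp
        have hpp := hS p hp.1
        have hn0 : n / p ≠ 0 := by
          rw [Nat.div_ne_zero_iff_of_dvd hp.2]
          exact ⟨h, hpp.ne_zero⟩
        have hO : Ω (n / p) = r := by
          have h4 : p * (n / p) = n := Nat.mul_div_cancel' hp.2
          have h5 := ArithmeticFunction.cardFactors_mul hpp.ne_zero hn0
          rw [h4, h2, ArithmeticFunction.cardFactors_apply_prime hpp] at h5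
          omega
        rw [← af_apply _ hn0, ih (n / p) hn0
          (MP_f9aece_nt_h97.dvd_smo h1 (Nat.div_dvd_of_dvd hp.2)) hO, ex_div hS h1 hp.1 hp.2]
      rw [Finset.sum_congr rfl h3, ← Finset.mul_sum, ← Finset.sum_mul, Nat.factorial_succ]
      have h4 : ∑ p ∈ S.filter (fun p => p ∣ n), (n.factorization p : ℝ) = ((r + 1 : ℕ) : ℝ) := by
        rw [← h2, Omega_eq]
        push_cast
        symm
        refine Finset.sum_subset (fun p hp => ?_) fun p hp1 hp2 => ?_
        · have h5 := Nat.mem_primeFactors.mp hp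
          rw [Finset.mem_filter]
          exact ⟨h1.2 p h5.1 h5.2.1, h5.2.1⟩
        · rw [Finset.mem_filter] at hp1
          exact absurd (Nat.mem_primeFactors.mpr ⟨hS p hp1.1, hp1.2, h⟩) hp2
      rw [h4]
      push_cast
      ring
  · by_contra h1
    apply hc
    rw [af_apply _ h] at h1
    have h2 := (MP_f9aece_nt.cone_PP_pow hS r n).2 h1
    exact h2

lemma af_add (f g : DP) : af (f + g) = af f + af g := by
  ext n
  rcases eq_or_ne n 0 with h | h
  · subst h; simp
  · rw [ArithmeticFunction.add_apply, af_apply _ h, af_apply _ h, af_apply _ h,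
      MonoidAlgebra.coeff_add, Finsupp.add_apply]

lemma af_smul_apply (c : ℝ) (f : DP) (n : ℕ) : af (c • f) n = c * af f n := by
  rcases eq_or_ne n 0 with h | h
  · subst h; simp
  · rw [af_apply _ h, af_apply _ h, MonoidAlgebra.coeff_smul, Finsupp.smul_apply, smul_eq_mul]

lemma af_sum_apply {ι : Type} (s : Finset ι) (f : ι → DP) (n : ℕ) :
    af (∑ i ∈ s, f i) n = ∑ i ∈ s, af (f i) n := by
  classical
  induction s using Finset.induction_on with
  | empty =>
    rw [Finset.sum_empty, Finset.sum_empty]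
    rcases eq_or_ne n 0 with h | h
    · subst h; simp
    · rw [af_apply _ h]; simp
  | insert a s ha ih =>
    rw [Finset.sum_insert ha, Finset.sum_insert ha, af_add, ArithmeticFunction.add_apply, ih]

open Classical in
lemma af_expo {S : Finset ℕ} (hS : ∀ p ∈ S, p.Prime) (c : ℝ) (M n : ℕ) :
    af (expo c M S) n = if n ∈ Smo (S : Set ℕ) ∧ Ω n ≤ M then ex c n else 0 := by
  unfold expo
  rw [af_sum_apply]
  simp only [af_smul_apply, af_PP_pow hS]
  split_ifs with h
  · obtain ⟨h1, h2⟩ := h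
    rw [Finset.sum_eq_single (Ω n)]
    · rw [if_pos ⟨h1, rfl⟩, ex_scale c h1.1]
      have : ((Ω n).factorial : ℝ) ≠ 0 := by positivity
      field_simp
    · intro r _ hr
      rw [if_neg fun h => hr h.2.symm, mul_zero]
    · intro h3
      exact absurd (Finset.mem_range.mpr (by omega)) h3
  · refine Finset.sum_eq_zero fun r hr => ?_
    rw [if_neg, mul_zero]
    rintro ⟨h1, h2⟩
    rw [Finset.mem_range] at hr
    exact h ⟨h1, by omega⟩

/-- supports -/
lemma af_supp {A : Set ℕ} {f : DP} : (∀ n, f.coeff n ≠ 0 → n ∈ Smo A) ↔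
    (∀ n, af f n ≠ 0 → n ∈ Smo A) ∧ f.coeff 0 = 0 := by
  constructor
  · intro h
    refine ⟨fun n hn => ?_, ?_⟩
    · rcases eq_or_ne n 0 with h0 | h0
      · subst h0; simp at hn
      · rw [af_apply _ h0] at hn
        exact h n hn
    · by_contra h0
      exact (h 0 h0).1 rfl
  · rintro ⟨h, h1⟩ n hn
    rcases eq_or_ne n 0 with h0 | h0
    · subst h0; exact absurd h1 hn
    · refine h n ?_
      rwa [af_apply _ h0]

end Pool.Agent.Lib.MS
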