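import Mathlib
import Pool.Agent.Lib.MP_f9aece_nt_ms.Coeffs
import Pool.Agent.Lib.MP_f9aece_nt_j4.EnNorm

/-!
Mesoscopic moments of zeta, module Q0.

Expand both polynomials; the diagonal terms give T BK K1 P Q, each off-diagonal term a != b is at most |P_a||Q_b|/sqrt(ab) * 2/|log(a/b)| <= 2X |P_a||Q_b|/sqrt(ab), and (sum |P_a|/sqrt a)^2 <= X En P (Cauchy-Schwarz, at most X terms). Models: MP_f9aece_nt/MeanValue.lean (mv, term_integral, term_eq), MP_f9aece_nt_h4/MVT.lean, J4.H24.evha_le. Also prove that un x T is a probability measure. (about 150 lines)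
-/

set_option autoImplicit false

namespace Pool.Agent.Lib.MS

open MeasureTheory Set Filter Topology Complex
open scoped ComplexConjugate
open scoped ArithmeticFunction.Omega
open Pool.Agent.Lib.MP_f9aece_nt (DP pair BK K1 ev PP VV Smo expo EE)
open Pool.Agent.Lib.MP_f9aece_nt_h40 (ind)
open Pool.Agent.Lib.MP_f9aece_nt_h85 (rz Rst)
open Pool.Agent.Lib.J4 (Sg Yg Jok Vs En V2 SU)
open Pool.Agent.Lib.N4 (OmS)

private lemma Q0_log {a b : ℕ} {H : ℝ} (ha : 1 ≤ a) (hb : 1 ≤ b) (haH : (a : ℝ) ≤ H)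
    (hbH : (b : ℝ) ≤ H) (hab : a ≠ b) : 1 / H ≤ |Real.log b - Real.log a| := by
  wlog h : a < b generalizing a b with hw
  · rw [abs_sub_comm]
    exact hw hb ha hbH haH hab.symm (lt_of_le_of_ne (not_lt.mp h) hab.symm)
  have ha0 : (0 : ℝ) < a := by exact_mod_cast ha
  have hb0 : (0 : ℝ) < b := by exact_mod_cast hb
  have hH0 : 0 < H := by linarith
  have h1 : (a : ℝ) + 1 ≤ b := by exact_mod_cast h
  have h2 := Real.one_sub_inv_le_log_of_pos (div_pos hb0 ha0)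
  rw [Real.log_div hb0.ne' ha0.ne', inv_div] at h2
  have h3 : 1 / H ≤ 1 - (a : ℝ) / b := by
    have : 1 - (a : ℝ) / b = (b - a) / b := by field_simp
    rw [this, div_le_div_iff₀ hH0 hb0]
    nlinarith
  exact h3.trans (h2.trans (le_abs_self _))

private lemma Q0_prob {x T : ℝ} (hT : 0 < T) : IsProbabilityMeasure (un x T) := by
  refine ⟨?_⟩
  have h1 : ENNReal.ofReal T ≠ 0 := by
    rw [Ne, ENNReal.ofReal_eq_zero, not_le]
    exact hT
  rw [un, Measure.smul_apply, smul_eq_mul, Measure.restrict_apply MeasurableSet.univ, univ_inter,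
    Real.volume_Icc, add_sub_cancel_left, ENNReal.inv_mul_cancel h1 ENNReal.ofReal_ne_top]

private lemma Q0_char {x T ξ : ℝ} (hT : 0 < T) (hξ : ξ ≠ 0) :
    ‖charFun (un x T) ξ‖ ≤ 2 / T * (1 / |ξ|) := by
  rw [charFun_apply_real, un, integral_smul_measure, ENNReal.toReal_inv,
    ENNReal.toReal_ofReal hT.le, integral_Icc_eq_integral_Ioc,
    ← intervalIntegral.integral_of_le (by linarith)]
  have hc : (ξ : ℂ) * I ≠ 0 := mul_ne_zero (by exact_mod_cast hξ) I_ne_zero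
  have h1 : ∫ t in x..(x + T), cexp (ξ * t * I) = ∫ t in x..(x + T), cexp ((ξ * I) * t) := by
    refine intervalIntegral.integral_congr fun t _ => ?_
    congr 1
    ring
  rw [h1, integral_exp_mul_complex hc, norm_smul, norm_div, norm_mul, Complex.norm_real, norm_I,
    mul_one, Real.norm_eq_abs, Real.norm_eq_abs, abs_of_pos (inv_pos.2 hT)]
  have e1 : ∀ t : ℝ, ‖cexp (ξ * I * t)‖ = 1 := by
    intro t
    have : (ξ * I * t : ℂ) = ((ξ * t : ℝ) : ℂ) * I := by push_cast; ring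
    rw [this, Complex.norm_exp_ofReal_mul_I]
  have h2 : ‖cexp (ξ * I * ((x + T : ℝ) : ℂ)) - cexp (ξ * I * ((x : ℝ) : ℂ))‖ ≤ 2 := by
    refine (norm_sub_le _ _).trans ?_
    rw [e1, e1]
    norm_num
  have h3 : 0 < |ξ| := abs_pos.2 hξ
  calc T⁻¹ * (‖cexp (ξ * I * ((x + T : ℝ) : ℂ)) - cexp (ξ * I * ((x : ℝ) : ℂ))‖ / |ξ|)
      ≤ T⁻¹ * (2 / |ξ|) := by gcongr
    _ = 2 / T * (1 / |ξ|) := by
      field_simp

private lemma Q0_sum {ν : Measure ℝ} [IsProbabilityMeasure ν] {ρ X : ℝ}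
    (hρ : ∀ a b : ℕ, 1 ≤ a → 1 ≤ b → (a : ℝ) ≤ X → (b : ℝ) ≤ X → a ≠ b →
      ‖charFun ν (Real.log b - Real.log a)‖ ≤ ρ)
    (hρ0 : 0 ≤ ρ) {f g : DP} (hf : Len X f) (hg : Len X g) :
    ‖(∫ t, ev t f * conj (ev t g) ∂ν) - ((BK K1 f g : ℝ) : ℂ)‖
      ≤ ρ * (J4.evha f * J4.evha g) := by
  have hfs : ∀ a ∈ f.coeff.support, 1 ≤ a ∧ (a : ℝ) ≤ X :=
    fun a ha => hf a (Finsupp.mem_support_iff.mp ha)
  have hgs : ∀ a ∈ g.coeff.support, 1 ≤ a ∧ (a : ℝ) ≤ X :=
    fun a ha => hg a (Finsupp.mem_support_iff.mp ha)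
  have h1 : ∀ t : ℝ, ev t f * conj (ev t g) = ∑ a ∈ f.coeff.support, ∑ b ∈ g.coeff.support,
      ((f.coeff a * g.coeff b : ℝ) : ℂ) *
        ((a : ℂ) ^ (-(1 / 2 + I * t : ℂ)) * conj ((b : ℂ) ^ (-(1 / 2 + I * t : ℂ)))) := by
    intro t
    rw [MP_f9aece_nt.ev_apply, MP_f9aece_nt.ev_apply, map_sum, Finset.sum_mul_sum]
    refine Finset.sum_congr rfl fun a _ => Finset.sum_congr rfl fun b _ => ?_
    rw [map_mul, Complex.conj_ofReal]
    push_cast
    ring
  simp_rw [h1]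
  rw [integral_finsetSum _ (fun a ha => integrable_finsetSum _ (fun b hb =>
    (MP_f9aece_nt.integrable_term ν (hfs a ha).1 (hgs b hb).1).const_mul _))]
  have h2 : ∀ a ∈ f.coeff.support, ∫ t, ∑ b ∈ g.coeff.support,
      ((f.coeff a * g.coeff b : ℝ) : ℂ) *
        ((a : ℂ) ^ (-(1 / 2 + I * t : ℂ)) * conj ((b : ℂ) ^ (-(1 / 2 + I * t : ℂ)))) ∂ν
      = ∑ b ∈ g.coeff.support, ((f.coeff a * g.coeff b : ℝ) : ℂ) *
        ((((a : ℝ) ^ (-(1 / 2) : ℝ) * (b : ℝ) ^ (-(1 / 2) : ℝ) : ℝ) : ℂ)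
        * charFun ν (Real.log b - Real.log a)) := by
    intro a ha
    rw [integral_finsetSum _ (fun b hb =>
      (MP_f9aece_nt.integrable_term ν (hfs a ha).1 (hgs b hb).1).const_mul _)]
    refine Finset.sum_congr rfl fun b hb => ?_
    rw [integral_const_mul, MP_f9aece_nt.term_integral ν (hfs a ha).1 (hgs b hb).1]
  rw [Finset.sum_congr rfl h2]
  have h3 : ((BK K1 f g : ℝ) : ℂ) = ∑ a ∈ f.coeff.support, ∑ b ∈ g.coeff.support,
      ((f.coeff a * g.coeff b * K1 a b : ℝ) : ℂ) := by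
    rw [BK, MP_f9aece_nt.pair_def]
    push_cast
    refine Finset.sum_congr rfl fun a _ => ?_
    rw [MP_f9aece_nt.pair_def]
    push_cast
    rw [Finset.mul_sum]
    refine Finset.sum_congr rfl fun b _ => ?_
    ring
  rw [h3, ← Finset.sum_sub_distrib]
  simp_rw [← Finset.sum_sub_distrib]
  have hhalf : ∀ a : ℕ, (a : ℝ) ^ (-(1 / 2) : ℝ) = (Real.sqrt a)⁻¹ := by
    intro a
    rw [Real.rpow_neg (Nat.cast_nonneg _), Real.sqrt_eq_rpow]
  have h4 : ∀ a ∈ f.coeff.support, ∀ b ∈ g.coeff.support,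
      ‖((f.coeff a * g.coeff b : ℝ) : ℂ) *
        ((((a : ℝ) ^ (-(1 / 2) : ℝ) * (b : ℝ) ^ (-(1 / 2) : ℝ) : ℝ) : ℂ)
        * charFun ν (Real.log b - Real.log a))
        - ((f.coeff a * g.coeff b * K1 a b : ℝ) : ℂ)‖
      ≤ ρ * ((|f.coeff a| / Real.sqrt a) * (|g.coeff b| / Real.sqrt b)) := by
    intro a ha b hb
    have ha1 := (hfs a ha).1
    have hb1 := (hgs b hb).1
    by_cases hab : a = b
    · subst hab
      rw [sub_self, charFun_zero]
      have e : (a : ℝ) ^ (-(1 / 2) : ℝ) * (a : ℝ) ^ (-(1 / 2) : ℝ) = (a : ℝ)⁻¹ := by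
        rw [← Real.rpow_add (by exact_mod_cast ha1), ← Real.rpow_neg_one]
        norm_num
      rw [e, K1, if_pos rfl, probReal_univ]
      have : ((f.coeff a * g.coeff a : ℝ) : ℂ) * ((((a : ℝ)⁻¹ : ℝ) : ℂ) * ((1 : ℝ) : ℂ))
          - ((f.coeff a * g.coeff a * (a : ℝ)⁻¹ : ℝ) : ℂ) = 0 := by
        push_cast
        ring
      rw [this, norm_zero]
      positivity
    · rw [K1, if_neg hab]
      simp only [mul_zero, Complex.ofReal_zero, sub_zero]
      rw [norm_mul, norm_mul, Complex.norm_real, Complex.norm_real, Real.norm_eq_abs,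
        Real.norm_eq_abs, abs_mul, abs_of_nonneg
          (by positivity : (0 : ℝ) ≤ (a : ℝ) ^ (-(1 / 2) : ℝ) * (b : ℝ) ^ (-(1 / 2) : ℝ)),
        hhalf, hhalf]
      have := hρ a b ha1 hb1 (hfs a ha).2 (hgs b hb).2 hab
      calc |f.coeff a| * |g.coeff b| * ((Real.sqrt a)⁻¹ * (Real.sqrt b)⁻¹
            * ‖charFun ν (Real.log b - Real.log a)‖)
          ≤ |f.coeff a| * |g.coeff b| * ((Real.sqrt a)⁻¹ * (Real.sqrt b)⁻¹ * ρ) := by
            gcongr
        _ = _ := by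
          rw [div_eq_mul_inv, div_eq_mul_inv]
          ring
  refine (norm_sum_le _ _).trans ?_
  refine (Finset.sum_le_sum fun a ha => (norm_sum_le _ _).trans
    (Finset.sum_le_sum fun b hb => h4 a ha b hb)).trans (le_of_eq ?_)
  rw [J4.evha, J4.evha, Finset.sum_mul_sum, Finset.mul_sum]
  refine Finset.sum_congr rfl fun a _ => ?_
  rw [Finset.mul_sum]

theorem unifMVP : UnifMVP := by
  intro x T X hT hX
  have hX0 : 0 < X := by linarith
  have hprob : IsProbabilityMeasure (un x T) := Q0_prob hT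
  refine ⟨hprob, fun P Q hP hQ => ?_⟩
  have h1 := Q0_sum (ν := un x T) (ρ := 2 / T * X) (X := X) (fun a b ha hb haX hbX hab => by
    have h2 := Q0_log ha hb haX hbX hab
    have hne : Real.log b - Real.log a ≠ 0 := by
      intro h
      rw [h, abs_zero] at h2
      exact absurd h2 (not_le.2 (by positivity))
    refine (Q0_char hT hne).trans ?_
    have h3 : 0 < |Real.log b - Real.log a| := abs_pos.2 hne
    refine mul_le_mul_of_nonneg_left ?_ (by positivity)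
    rw [div_le_iff₀ h3]
    rw [div_le_iff₀ hX0] at h2
    linarith) (by positivity) hP hQ
  refine h1.trans ?_
  have h2 := J4.H24.evha_le hX0.le hP
  have h3 := J4.H24.evha_le hX0.le hQ
  have h4 : J4.evha P * J4.evha Q ≤ X * Real.sqrt (En P * En Q) := by
    have h5 : J4.evha P * J4.evha Q
        ≤ (Real.sqrt X * Real.sqrt (En P)) * (Real.sqrt X * Real.sqrt (En Q)) :=
      mul_le_mul h2 h3 (J4.H24.evha_nonneg _) (by positivity)
    refine h5.trans (le_of_eq ?_)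
    rw [Real.sqrt_mul (J4.H24.En_nonneg24 P)]
    calc Real.sqrt X * Real.sqrt (En P) * (Real.sqrt X * Real.sqrt (En Q))
        = (Real.sqrt X * Real.sqrt X) * (Real.sqrt (En P) * Real.sqrt (En Q)) := by ring
      _ = X * (Real.sqrt (En P) * Real.sqrt (En Q)) := by rw [Real.mul_self_sqrt hX0.le]
  calc 2 / T * X * (J4.evha P * J4.evha Q) ≤ 2 / T * X * (X * Real.sqrt (En P * En Q)) :=
        mul_le_mul_of_nonneg_left h4 (by positivity)
    _ = 2 * X ^ 2 / T * Real.sqrt (En P * En Q) := by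
      ring

end Pool.Agent.Lib.MS
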