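import Mathlib

/-!
Mesoscopic moments of zeta: the final statements and the passage from Dirichlet polynomials to
averages of zeta over short windows.
-/

set_option autoImplicit false

namespace Pool.Agent.Lib.MS

open MeasureTheory Set Filter Topology Complex

/-- the Dirichlet polynomial with the cut-off `w (log n / L)` -/
noncomputable def ZS (w : ℝ → ℂ) (L t : ℝ) : ℂ :=
  ∑ n ∈ Finset.Icc 1 ⌊Real.exp L⌋₊, w (Real.log n / L) * (n : ℂ) ^ (-(1 / 2 + I * t : ℂ))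

/-- First theorem: all moments of the truncated zeta polynomials over long intervals -/
def MomentsT1 : Prop := ∀ (w : ℝ → ℂ) (Lam : ℝ), (∀ x y, ‖w x - w y‖ ≤ Lam * |x - y|) → w 0 = 1 →
  (∀ x, 1 ≤ x → w x = 0) → ∀ k : ℝ, 0 < k → ∃ c : ℝ, 0 < c ∧ ∀ ε : ℝ, 0 < ε → ∃ C : ℝ, 0 < C ∧
  ∀ L T : ℝ, C ≤ L → 1 ≤ T → C * L ≤ Real.log T → ∀ x : ℝ,
  |T⁻¹ * (∫ t in x..(x + T), ‖ZS w L t‖ ^ (2 * k)) - c * L ^ (k ^ 2)| ≤ ε * L ^ (k ^ 2)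

/-- the transform of `φ` -/
noncomputable def psi (φ : ℝ → ℂ) (r : ℝ) : ℂ := ∫ v, φ v * cexp (-(I * ((r * v : ℝ) : ℂ)))

/-- windows: integrable with the weight `1 + |v|`, integral one, transform supported in `[-R, R]` -/
structure Adm (φ : ℝ → ℂ) (R : ℝ) : Prop where
  hR : 0 < R
  int : Integrable (fun v : ℝ => ((1 + |v| : ℝ) : ℂ) * φ v)
  one : ∫ v, φ v = 1
  supp : ∀ r, R ≤ |r| → psi φ r = 0

/-- the average of zeta over a window of width `H` at height `t` -/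
noncomputable def ZW (φ : ℝ → ℂ) (H t : ℝ) : ℂ :=
  ∫ v, riemannZeta (1 / 2 + I * ((t + H * v : ℝ) : ℂ)) * φ v

/-- Second theorem: all moments of the averages of zeta over short windows -/
def MomentsT2 : Prop := ∀ (φ : ℝ → ℂ) (R : ℝ), Adm φ R → ∀ k : ℝ, 0 < k → ∃ c : ℝ, 0 < c ∧
  ∀ ε : ℝ, 0 < ε → ∃ C : ℝ, 0 < C ∧ ∀ H T : ℝ, 0 < H → C * H ≤ 1 → 1 ≤ T → C ≤ H * Real.log T →
  ∀ x : ℝ, |T⁻¹ * (∫ t in x..(x + T), ‖ZW φ H t‖ ^ (2 * k)) - c * H ^ (-(k ^ 2))|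
    ≤ ε * H ^ (-(k ^ 2))

/-- the contribution of the pole -/
noncomputable def Res (φ : ℝ → ℂ) (R H t : ℝ) : ℂ :=
  ∫ ρ in (-(R / H))..(R / H), cexp ((1 / 2 - I * t) * ρ) * psi φ (H * ρ)

/-- Z2: averages of zeta are Dirichlet polynomials, up to the contribution of the pole -/
def ZIdent : Prop := ∀ (φ : ℝ → ℂ) (R : ℝ), Adm φ R → ∀ H t : ℝ, 0 < H →
  ZW φ H t = ZS (fun r => psi φ (R * r)) (R / H) t - Res φ R H t

/-- Z3: the transform is bounded, Lipschitz and continuously differentiable -/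
def PsiLip : Prop := ∀ (φ : ℝ → ℂ) (R : ℝ), Adm φ R → ∃ (B : ℝ) (ψ' : ℝ → ℂ), 1 ≤ B ∧
  (∀ r, ‖psi φ r‖ ≤ B) ∧ (∀ r s, ‖psi φ r - psi φ s‖ ≤ B * |r - s|) ∧
  (∀ r, HasDerivAt (psi φ) (ψ' r) r) ∧ Continuous ψ' ∧ (∀ r, ‖ψ' r‖ ≤ B)

/-- Z4: bound for the contribution of the pole -/
def ResBound : Prop := ∀ (φ : ℝ → ℂ) (R : ℝ), Adm φ R → ∃ C : ℝ, 1 ≤ C ∧ ∀ H t : ℝ, 0 < H → H ≤ 1 →
  ‖Res φ R H t‖ ≤ C * Real.exp (R / (2 * H)) / (1 + |t|)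

/-- Z5: moments of a function of size `1 / (1 + |t|)` -/
def ResMom : Prop := ∀ k : ℝ, 0 < k → ∀ T x : ℝ, 1 ≤ T →
  T⁻¹ * (∫ t in x..(x + T), (1 / (1 + |t|)) ^ (2 * k)) ≤ 3 * T ^ (-(min k (1 / 2)))

/-- Z6: comparison of powers -/
def PowClose : Prop := ∀ β ε : ℝ, 0 < β → 0 < ε → ∃ C : ℝ, 1 ≤ C ∧ ∀ a b : ℂ,
  ‖a + b‖ ^ β ≤ (1 + ε) * ‖a‖ ^ β + C * ‖b‖ ^ β

end Pool.Agent.Lib.MS
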