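import Mathlib
import Pool.Agent.Lib.MP_f9aece_nt.EM

/-!
Mesoscopic moments of zeta, module Z1: approximation of zeta by a finite sum on the critical line,
with the pole term, for all real ordinates.
-/

set_option autoImplicit false

namespace Pool.Agent.Lib.MS

open MeasureTheory Set Filter Topology Complex
open scoped ComplexConjugate
open Pool.Agent.Lib.MP_f9aece_nt

namespace Z1I

/-- the approximating expression -/
noncomputable def ap (N : ℕ) (s : ℂ) : ℂ :=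
  ∑ n ∈ Finset.Icc 1 N, (n : ℂ) ^ (-s) + (N : ℂ) ^ (1 - s) / (s - 1)

lemma sum_rpow_le (N : ℕ) : ∑ n ∈ Finset.Icc 1 N, (n : ℝ) ^ (-(1 / 2) : ℝ) ≤ 2 * Real.sqrt N := by
  induction N with
  | zero => simp
  | succ N ih =>
    rw [Finset.sum_Icc_succ_top (by omega)]
    have h1 : (((N + 1 : ℕ) : ℝ)) ^ (-(1 / 2) : ℝ) = 1 / Real.sqrt ((N + 1 : ℕ) : ℝ) := by
      rw [Real.rpow_neg (Nat.cast_nonneg _), ← Real.sqrt_eq_rpow, one_div]
    rw [h1]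
    have h2 : 0 < Real.sqrt ((N + 1 : ℕ) : ℝ) := Real.sqrt_pos.mpr (by positivity)
    have h3 : Real.sqrt N ≤ Real.sqrt ((N + 1 : ℕ) : ℝ) := Real.sqrt_le_sqrt (by push_cast; linarith)
    have h4 : Real.sqrt ((N + 1 : ℕ) : ℝ) ^ 2 = N + 1 := by
      rw [Real.sq_sqrt (by positivity)]; push_cast; ring
    have h5 : Real.sqrt (N : ℝ) ^ 2 = N := Real.sq_sqrt (Nat.cast_nonneg _)
    have h6 : 1 / Real.sqrt ((N + 1 : ℕ) : ℝ) ≤ 2 * (Real.sqrt ((N + 1 : ℕ) : ℝ) - Real.sqrt N) := by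
      rw [div_le_iff₀ h2]
      nlinarith [Real.sqrt_nonneg (N : ℝ)]
    linarith

lemma norm_sum_le' {N : ℕ} {s : ℂ} (hs : s.re = 1 / 2) :
    ‖∑ n ∈ Finset.Icc 1 N, (n : ℂ) ^ (-s)‖ ≤ 2 * Real.sqrt N := by
  refine (norm_sum_le _ _).trans (le_trans (le_of_eq ?_) (sum_rpow_le N))
  refine Finset.sum_congr rfl fun n hn => ?_
  rw [Complex.norm_natCast_cpow_of_pos (Finset.mem_Icc.mp hn).1, Complex.neg_re, hs]

lemma norm_pole_le {N : ℕ} (hN : 1 ≤ N) {s : ℂ} (hs : s.re = 1 / 2) :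
    ‖(N : ℂ) ^ (1 - s) / (s - 1)‖ ≤ 2 * Real.sqrt N := by
  rw [norm_div, Complex.norm_natCast_cpow_of_pos hN]
  have h1 : (1 - s).re = 1 / 2 := by simp [hs]; norm_num
  have h2 : 1 / 2 ≤ ‖s - 1‖ := by
    have h3 := Complex.abs_re_le_norm (s - 1)
    have h4 : (s - 1).re = -(1 / 2) := by simp [hs]; norm_num
    rw [h4, abs_neg, abs_of_pos (by norm_num)] at h3
    exact h3
  rw [h1, ← Real.sqrt_eq_rpow, div_le_iff₀ (by linarith)]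
  nlinarith [Real.sqrt_nonneg (N : ℝ)]

/-- in the quadrant, `τ ≤ N` -/
lemma approx_quad {τ : ℝ} (hτ : 0 < τ) {N : ℕ} (hN : 1 ≤ N) (hτN : τ ≤ N) :
    ‖riemannZeta (1 / 2 + I * τ) - ap N (1 / 2 + I * τ)‖ ≤ 7 * (1 + τ) * (N : ℝ) ^ (-(1 / 2) : ℝ) := by
  set s : ℂ := 1 / 2 + I * τ with hs
  have hsre : s.re = 1 / 2 := by simp [hs]
  have hsim : s.im = τ := by simp [hs]
  have hq : s ∈ quad := ⟨by rw [hsre]; norm_num, by rw [hsim]; exact hτ⟩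
  have hN0 : (0 : ℝ) < N := by exact_mod_cast hN
  have hN1 : (1 : ℝ) ≤ N := by exact_mod_cast hN
  have hs1 := quad_ne_one hq
  rw [zeta_eq_sum hq hN]
  unfold ap
  have e : ∑ n ∈ Finset.Icc 1 N, (n : ℂ) ^ (-s) - (N : ℂ) ^ (-s) / 2
      + (N : ℂ) ^ (1 - s) / (s - 1) + ∑' n : ℕ, trap (n + N) s
      - (∑ n ∈ Finset.Icc 1 N, (n : ℂ) ^ (-s) + (N : ℂ) ^ (1 - s) / (s - 1))
      = - ((N : ℂ) ^ (-s) / 2) + ∑' n : ℕ, trap (n + N) s := by ring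
  rw [e]
  have hA : ‖-((N : ℂ) ^ (-s) / 2)‖ ≤ (N : ℝ) ^ (-(1 / 2) : ℝ) := by
    rw [norm_neg, norm_div, Complex.norm_natCast_cpow_of_pos hN]
    simp only [Complex.neg_re, hsre, Complex.norm_ofNat]
    have : (0 : ℝ) ≤ (N : ℝ) ^ (-(1 / 2) : ℝ) := by positivity
    linarith
  have hsum : Summable (fun n : ℕ => 1 / ((n + N : ℕ) : ℝ) ^ 2) := by
    exact (summable_nat_add_iff (f := fun n : ℕ => 1 / ((n : ℕ) : ℝ) ^ 2) N).mpr
      (Real.summable_one_div_nat_pow.mpr (by norm_num : 1 < 2))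
  have hns : ‖s‖ ≤ τ + 1 / 2 := by
    calc ‖s‖ ≤ ‖(1 / 2 : ℂ)‖ + ‖I * (τ : ℂ)‖ := norm_add_le _ _
      _ = 1 / 2 + τ := by
          rw [norm_mul, Complex.norm_I, Complex.norm_real, Real.norm_eq_abs, abs_of_pos hτ]
          norm_num
      _ = _ := by ring
  have hns1 : ‖s + 1‖ ≤ τ + 3 / 2 := by
    calc ‖s + 1‖ ≤ ‖s‖ + ‖(1 : ℂ)‖ := norm_add_le _ _
      _ ≤ _ := by rw [norm_one]; linarith
  have hterm : ∀ n : ℕ, ‖trap (n + N) s‖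
      ≤ ((τ + 1 / 2) * (τ + 3 / 2) / 2 * (N : ℝ) ^ (-(1 / 2) : ℝ)) * (1 / ((n + N : ℕ) : ℝ) ^ 2) := by
    intro n
    have hnN : 1 ≤ n + N := by omega
    have h0 : (0 : ℝ) < ((n + N : ℕ) : ℝ) := by exact_mod_cast hnN
    refine (trap_bound hnN hq.1.le hs1).trans ?_
    rw [hsre]
    have h1 : (((n + N : ℕ)) : ℝ) ^ (-(1 / 2) - 2 : ℝ)
        ≤ (N : ℝ) ^ (-(1 / 2) : ℝ) * (1 / ((n + N : ℕ) : ℝ) ^ 2) := by
      rw [Real.rpow_sub h0, one_div (((n + N : ℕ) : ℝ) ^ 2), ← div_eq_mul_inv]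
      have h2 : ((n + N : ℕ) : ℝ) ^ (-(1 / 2) : ℝ) ≤ (N : ℝ) ^ (-(1 / 2) : ℝ) := by
        refine Real.rpow_le_rpow_of_nonpos hN0 ?_ (by norm_num)
        exact_mod_cast (Nat.le_add_left N n)
      have h3 : ((n + N : ℕ) : ℝ) ^ (2 : ℝ) = ((n + N : ℕ) : ℝ) ^ 2 := by
        exact_mod_cast Real.rpow_natCast ((n + N : ℕ) : ℝ) 2
      rw [h3]
      gcongr
    calc ‖s‖ * ‖s + 1‖ * (((n + N : ℕ)) : ℝ) ^ (-(1 / 2) - 2 : ℝ) / 2
        ≤ (τ + 1 / 2) * (τ + 3 / 2) * ((N : ℝ) ^ (-(1 / 2) : ℝ) * (1 / ((n + N : ℕ) : ℝ) ^ 2)) / 2 := by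
          gcongr
      _ = _ := by ring
  have hB : ‖∑' n : ℕ, trap (n + N) s‖ ≤ 6 * (1 + τ) * (N : ℝ) ^ (-(1 / 2) : ℝ) := by
    calc ‖∑' n : ℕ, trap (n + N) s‖
        ≤ ∑' n : ℕ, ((τ + 1 / 2) * (τ + 3 / 2) / 2 * (N : ℝ) ^ (-(1 / 2) : ℝ)) * (1 / ((n + N : ℕ) : ℝ) ^ 2) :=
          tsum_of_norm_bounded ((hsum.mul_left _).hasSum) hterm
      _ = ((τ + 1 / 2) * (τ + 3 / 2) / 2 * (N : ℝ) ^ (-(1 / 2) : ℝ)) * ∑' n : ℕ, (1 / ((n + N : ℕ) : ℝ) ^ 2) :=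
          tsum_mul_left
      _ ≤ ((τ + 1 / 2) * (τ + 3 / 2) / 2 * (N : ℝ) ^ (-(1 / 2) : ℝ)) * (2 / N) := by
          gcongr
          exact tail_sum_sq N hN
      _ = ((τ + 1 / 2) * (τ + 3 / 2) / N) * (N : ℝ) ^ (-(1 / 2) : ℝ) := by ring
      _ ≤ 6 * (1 + τ) * (N : ℝ) ^ (-(1 / 2) : ℝ) := by
          gcongr
          rw [div_le_iff₀ hN0]
          nlinarith
  have hC : (N : ℝ) ^ (-(1 / 2) : ℝ) ≤ (1 + τ) * (N : ℝ) ^ (-(1 / 2) : ℝ) := by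
    have : (0 : ℝ) ≤ (N : ℝ) ^ (-(1 / 2) : ℝ) := by positivity
    nlinarith
  calc ‖-((N : ℂ) ^ (-s) / 2) + ∑' n : ℕ, trap (n + N) s‖
      ≤ (1 + τ) * (N : ℝ) ^ (-(1 / 2) : ℝ) + 6 * (1 + τ) * (N : ℝ) ^ (-(1 / 2) : ℝ) :=
        (norm_add_le _ _).trans (add_le_add (hA.trans hC) hB)
    _ = _ := by ring

lemma rpow_half_mul {x : ℝ} (hx : 0 < x) : x ^ (-(1 / 2) : ℝ) * Real.sqrt x = 1 := by
  rw [Real.sqrt_eq_rpow, ← Real.rpow_add hx]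
  norm_num

/-- positive ordinates -/
lemma approx_pos {τ : ℝ} (hτ : 0 < τ) {N : ℕ} (hN : 1 ≤ N) :
    ‖riemannZeta (1 / 2 + I * τ) - ap N (1 / 2 + I * τ)‖ ≤ 50 * (1 + τ) * (N : ℝ) ^ (-(1 / 2) : ℝ) := by
  have hN0 : (0 : ℝ) < N := by exact_mod_cast hN
  have hN1 : (1 : ℝ) ≤ N := by exact_mod_cast hN
  rcases le_or_gt τ N with h | h
  · refine (approx_quad hτ hN h).trans ?_
    gcongr
    norm_num
  · set s : ℂ := 1 / 2 + I * τ with hs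
    have hsre : s.re = 1 / 2 := by simp [hs]
    obtain ⟨M, hM⟩ : ∃ M, M = ⌈τ⌉₊ := ⟨_, rfl⟩
    have hM1 : τ ≤ M := by rw [hM]; exact Nat.le_ceil τ
    have hM2 : (M : ℝ) ≤ 2 * τ := by
      rw [hM]
      have := Nat.ceil_lt_add_one hτ.le
      linarith
    have hM3 : 1 ≤ M := by
      have : (0 : ℝ) < M := by linarith
      exact_mod_cast this
    have hM0 : (0 : ℝ) < M := by exact_mod_cast hM3
    have h1 := approx_quad hτ hM3 hM1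
    rw [← hs] at h1
    have hsτ : Real.sqrt N ≤ Real.sqrt τ := Real.sqrt_le_sqrt h.le
    have hsM : Real.sqrt M ≤ 2 * Real.sqrt τ := by
      rw [show (2 : ℝ) = Real.sqrt 4 by
        rw [show (4 : ℝ) = 2 ^ 2 by norm_num, Real.sqrt_sq (by norm_num)], ← Real.sqrt_mul (by norm_num)]
      exact Real.sqrt_le_sqrt (by linarith)
    have hτ0 := Real.sqrt_nonneg τ
    have hap : ∀ K : ℕ, 1 ≤ K → ‖ap K s‖ ≤ 4 * Real.sqrt K := by
      intro K hK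
      unfold ap
      refine (norm_add_le _ _).trans ?_
      have h2 := norm_sum_le' (N := K) hsre
      have h3 := norm_pole_le hK hsre
      linarith
    have h2 : (M : ℝ) ^ (-(1 / 2) : ℝ) ≤ τ ^ (-(1 / 2) : ℝ) :=
      Real.rpow_le_rpow_of_nonpos hτ hM1 (by norm_num)
    have h3 : (1 + τ) * τ ^ (-(1 / 2) : ℝ) ≤ 2 * Real.sqrt τ := by
      have h4 : 1 + τ ≤ 2 * τ := by linarith
      calc (1 + τ) * τ ^ (-(1 / 2) : ℝ) ≤ 2 * τ * τ ^ (-(1 / 2) : ℝ) := by gcongr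
        _ = 2 * Real.sqrt τ * (τ ^ (-(1 / 2) : ℝ) * Real.sqrt τ) := by
            nth_rewrite 1 [← Real.mul_self_sqrt hτ.le]
            ring
        _ = 2 * Real.sqrt τ := by rw [rpow_half_mul hτ, mul_one]
    have h4 : ‖riemannZeta s‖ ≤ 22 * Real.sqrt τ := by
      have h5 : ‖riemannZeta s‖ ≤ ‖ap M s‖ + ‖riemannZeta s - ap M s‖ := by
        have : riemannZeta s = ap M s + (riemannZeta s - ap M s) := by ring
        calc ‖riemannZeta s‖ = ‖ap M s + (riemannZeta s - ap M s)‖ := by rw [← this]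
          _ ≤ _ := norm_add_le _ _
      have h6 := hap M hM3
      have h7 : 7 * (1 + τ) * (M : ℝ) ^ (-(1 / 2) : ℝ) ≤ 14 * Real.sqrt τ := by
        calc 7 * (1 + τ) * (M : ℝ) ^ (-(1 / 2) : ℝ) ≤ 7 * (1 + τ) * τ ^ (-(1 / 2) : ℝ) := by gcongr
          _ = 7 * ((1 + τ) * τ ^ (-(1 / 2) : ℝ)) := by ring
          _ ≤ 7 * (2 * Real.sqrt τ) := by gcongr
          _ = _ := by ring
      linarith
    have h5 : ‖riemannZeta s - ap N s‖ ≤ 26 * Real.sqrt τ := by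
      have h6 := hap N hN
      have h7 := norm_sub_le (riemannZeta s) (ap N s)
      linarith
    refine h5.trans ?_
    have h6 : Real.sqrt τ ≤ τ * (N : ℝ) ^ (-(1 / 2) : ℝ) := by
      have h7 : 1 ≤ Real.sqrt τ * (N : ℝ) ^ (-(1 / 2) : ℝ) := by
        have h8 := rpow_half_mul hN0
        have h9 : 0 ≤ (N : ℝ) ^ (-(1 / 2) : ℝ) := by positivity
        nlinarith
      calc Real.sqrt τ = Real.sqrt τ * 1 := (mul_one _).symm
        _ ≤ Real.sqrt τ * (Real.sqrt τ * (N : ℝ) ^ (-(1 / 2) : ℝ)) := by gcongr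
        _ = (Real.sqrt τ * Real.sqrt τ) * (N : ℝ) ^ (-(1 / 2) : ℝ) := by ring
        _ = _ := by rw [Real.mul_self_sqrt hτ.le]
    have h7 : 0 ≤ (N : ℝ) ^ (-(1 / 2) : ℝ) := by positivity
    nlinarith

lemma natCast_cpow_conj (n : ℕ) (s : ℂ) : (n : ℂ) ^ (conj s) = conj ((n : ℂ) ^ s) := by
  rw [Complex.cpow_conj _ _ (by rw [Complex.natCast_arg]; exact Real.pi_ne_zero.symm), Complex.conj_natCast]

lemma ap_conj (N : ℕ) (s : ℂ) : ap N (conj s) = conj (ap N s) := by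
  unfold ap
  simp only [map_add, map_sum, map_div₀, map_sub, map_one]
  have e1 : ∀ n : ℕ, (n : ℂ) ^ (-conj s) = conj ((n : ℂ) ^ (-s)) := by
    intro n
    rw [← natCast_cpow_conj, map_neg]
  have e2 : (N : ℂ) ^ (1 - conj s) = conj ((N : ℂ) ^ (1 - s)) := by
    rw [← natCast_cpow_conj, map_sub, map_one]
  rw [e2]
  simp only [e1]

end Z1I

open Z1I

/-- Z1: approximation of zeta on the critical line with the pole term -/
theorem zApprox {τ : ℝ} (hτ : τ ≠ 0) {N : ℕ} (hN : 1 ≤ N) :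
    ‖riemannZeta (1 / 2 + I * τ) - (∑ n ∈ Finset.Icc 1 N, (n : ℂ) ^ (-(1 / 2 + I * τ : ℂ))
      + (N : ℂ) ^ (1 - (1 / 2 + I * τ : ℂ)) / ((1 / 2 + I * τ : ℂ) - 1))‖
      ≤ 50 * (1 + |τ|) * (N : ℝ) ^ (-(1 / 2) : ℝ) := by
  change ‖riemannZeta (1 / 2 + I * τ) - ap N (1 / 2 + I * τ)‖ ≤ _
  rcases lt_or_gt_of_ne hτ with h | h
  · have h1 := approx_pos (τ := -τ) (by linarith) hN
    have e1 : (1 / 2 + I * ((-τ : ℝ) : ℂ)) = conj (1 / 2 + I * (τ : ℂ)) := by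
      rw [map_add, map_mul, Complex.conj_I, Complex.conj_ofReal, map_div₀, map_one, Complex.conj_ofNat]
      push_cast
      ring
    rw [e1, riemannZeta_conj, ap_conj, ← map_sub, Complex.norm_conj] at h1
    rw [abs_of_neg h]
    exact h1
  · rw [abs_of_pos h]
    exact approx_pos h hN

end Pool.Agent.Lib.MS
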