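import Mathlib
import Pool.Agent.Lib.MP_f9aece_nt_ms.StmtsZ
import Pool.Agent.Lib.MP_f9aece_nt_ms.Z1Approx

/-!
Mesoscopic moments of zeta, module Z2: averages of zeta over short windows are Dirichlet
polynomials, up to the contribution of the pole.
-/

set_option autoImplicit false

namespace Pool.Agent.Lib.MS

open MeasureTheory Set Filter Topology Complex

namespace Z2I

variable {φ : ℝ → ℂ} {R : ℝ}

lemma adm_int (h : Adm φ R) : Integrable φ := by
  have h1 : Integrable (fun v : ℝ => (((1 + |v|)⁻¹ : ℝ) : ℂ) * (((1 + |v| : ℝ) : ℂ) * φ v)) := by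
    refine h.int.bdd_mul (c := 1) ?_ ?_
    · exact (Complex.continuous_ofReal.comp (Continuous.inv₀ (by fun_prop)
        (fun v => by positivity))).aestronglyMeasurable
    · refine Eventually.of_forall fun v => ?_
      rw [Complex.norm_real, Real.norm_of_nonneg (by positivity)]
      exact inv_le_one_of_one_le₀ (by linarith [abs_nonneg v])
  refine h1.congr (Eventually.of_forall fun v => ?_)
  have h2 : ((1 + |v| : ℝ) : ℂ) ≠ 0 := by
    rw [Complex.ofReal_ne_zero]; positivity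
  simp only [Complex.ofReal_inv]
  field_simp

lemma adm_norm (h : Adm φ R) : Integrable (fun v : ℝ => (1 + |v|) * ‖φ v‖) := by
  refine h.int.norm.congr (Eventually.of_forall fun v => ?_)
  simp only [norm_mul, Complex.norm_real]
  rw [Real.norm_of_nonneg (by positivity)]

/-- the approximation at the point `τ` -/
noncomputable def A (N : ℕ) (τ : ℝ) : ℂ :=
  ∑ n ∈ Finset.Icc 1 N, (n : ℂ) ^ (-(1 / 2 + I * τ : ℂ))
    + (N : ℂ) ^ (1 - (1 / 2 + I * τ : ℂ)) / ((1 / 2 + I * τ : ℂ) - 1)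

lemma line_ne (τ : ℝ) : (1 / 2 + I * (τ : ℂ)) ≠ 1 := by
  intro h
  have := congrArg Complex.re h
  simp at this

lemma line_sub (τ : ℝ) : (1 / 2 + I * (τ : ℂ)) - 1 ≠ 0 := sub_ne_zero.mpr (line_ne τ)

lemma cont_zeta : Continuous (fun τ : ℝ => riemannZeta (1 / 2 + I * (τ : ℂ))) := by
  rw [continuous_iff_continuousAt]
  intro τ
  have h1 : ContinuousAt riemannZeta (1 / 2 + I * (τ : ℂ)) :=
    (differentiableAt_riemannZeta (line_ne τ)).continuousAt
  exact ContinuousAt.comp (f := fun τ : ℝ => (1 / 2 + I * (τ : ℂ))) h1 (by fun_prop)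

lemma cont_cpow {n : ℕ} (hn : 1 ≤ n) {g : ℝ → ℂ} (hg : Continuous g) :
    Continuous (fun τ : ℝ => (n : ℂ) ^ g τ) := by
  have hn0 : (n : ℂ) ≠ 0 := by
    rw [Nat.cast_ne_zero]; omega
  exact Continuous.const_cpow hg (Or.inl hn0)

lemma cont_A {N : ℕ} (hN : 1 ≤ N) : Continuous (A N) := by
  unfold A
  refine Continuous.add (continuous_finsetSum _ fun n hn => ?_) (Continuous.div ?_ (by fun_prop) line_sub)
  · exact cont_cpow (Finset.mem_Icc.mp hn).1 (by fun_prop)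
  · exact cont_cpow hN (by fun_prop)

lemma norm_A {N : ℕ} (hN : 1 ≤ N) (τ : ℝ) : ‖A N τ‖ ≤ 4 * Real.sqrt N := by
  unfold A
  refine (norm_add_le _ _).trans ?_
  have hs : (1 / 2 + I * (τ : ℂ)).re = 1 / 2 := by simp
  have h2 := Z1I.norm_sum_le' (N := N) hs
  have h3 := Z1I.norm_pole_le hN hs
  linarith

lemma zeta_sub_A {τ : ℝ} (hτ : τ ≠ 0) {N : ℕ} (hN : 1 ≤ N) :
    ‖riemannZeta (1 / 2 + I * τ) - A N τ‖ ≤ 50 * (1 + |τ|) * (N : ℝ) ^ (-(1 / 2) : ℝ) :=
  zApprox hτ hN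

lemma ae_ne {H t : ℝ} (hH : 0 < H) : ∀ᵐ v : ℝ, t + H * v ≠ 0 := by
  have h1 : ∀ᵐ v : ℝ, v ≠ -t / H := by
    simp [ae_iff]
  filter_upwards [h1] with v hv h
  apply hv
  field_simp
  linarith

lemma weight_le {H t : ℝ} (hH : 0 < H) (v : ℝ) : 1 + |t + H * v| ≤ (1 + |t| + H) * (1 + |v|) := by
  have h1 := abs_add_le t (H * v)
  rw [abs_mul, abs_of_pos hH] at h1
  nlinarith [abs_nonneg t, abs_nonneg v, mul_nonneg (abs_nonneg t) (abs_nonneg v)]

/-- a continuous function bounded by a multiple of the weight is integrable against `φ` -/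
lemma int_mul (h : Adm φ R) {f : ℝ → ℂ} (hf : Continuous f) {C : ℝ}
    (hC : ∀ᵐ v : ℝ, ‖f v‖ ≤ C * (1 + |v|)) : Integrable (fun v => f v * φ v) := by
  refine Integrable.mono' ((adm_norm h).const_mul C)
    (hf.aestronglyMeasurable.mul (adm_int h).aestronglyMeasurable) ?_
  filter_upwards [hC] with v hv
  rw [norm_mul]
  calc ‖f v‖ * ‖φ v‖ ≤ C * (1 + |v|) * ‖φ v‖ := by gcongr
    _ = _ := by ring

lemma cont_lin (H t : ℝ) : Continuous (fun v : ℝ => t + H * v) := by fun_prop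

lemma int_A (h : Adm φ R) {N : ℕ} (hN : 1 ≤ N) (H t : ℝ) :
    Integrable (fun v => A N (t + H * v) * φ v) := by
  refine int_mul h ((cont_A hN).comp (cont_lin H t)) (C := 4 * Real.sqrt N)
    (Eventually.of_forall fun v => (norm_A hN _).trans ?_)
  have := abs_nonneg v
  have h2 : 0 ≤ 4 * Real.sqrt N := by positivity
  nlinarith

lemma int_zeta (h : Adm φ R) {H : ℝ} (hH : 0 < H) (t : ℝ) :
    Integrable (fun v => riemannZeta (1 / 2 + I * ((t + H * v : ℝ) : ℂ)) * φ v) := by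
  refine int_mul h (cont_zeta.comp (cont_lin H t)) (C := 54 * (1 + |t| + H)) ?_
  filter_upwards [ae_ne (t := t) hH] with v hv
  have h1 := zeta_sub_A hv (le_refl 1)
  have h2 := norm_A (le_refl 1) (t + H * v)
  simp only [Nat.cast_one, Real.one_rpow, Real.sqrt_one, mul_one] at h1 h2
  have h3 := weight_le (t := t) hH v
  have h4 : ‖riemannZeta (1 / 2 + I * ((t + H * v : ℝ) : ℂ))‖
      ≤ ‖riemannZeta (1 / 2 + I * ((t + H * v : ℝ) : ℂ)) - A 1 (t + H * v)‖ + ‖A 1 (t + H * v)‖ := by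
    have := norm_add_le (riemannZeta (1 / 2 + I * ((t + H * v : ℝ) : ℂ)) - A 1 (t + H * v)) (A 1 (t + H * v))
    rwa [sub_add_cancel] at this
  have h5 : (0 : ℝ) ≤ |t + H * v| := abs_nonneg _
  change ‖riemannZeta (1 / 2 + I * ((t + H * v : ℝ) : ℂ))‖ ≤ _
  nlinarith

/-- the approximation error -/
lemma stepA (h : Adm φ R) {H : ℝ} (hH : 0 < H) (t : ℝ) {N : ℕ} (hN : 1 ≤ N) :
    ‖ZW φ H t - ∫ v, A N (t + H * v) * φ v‖
      ≤ 50 * (1 + |t| + H) * (∫ v, (1 + |v|) * ‖φ v‖) * (N : ℝ) ^ (-(1 / 2) : ℝ) := by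
  unfold ZW
  rw [← integral_sub (int_zeta h hH t) (int_A h hN H t)]
  have h1 : 50 * (1 + |t| + H) * (∫ v, (1 + |v|) * ‖φ v‖) * (N : ℝ) ^ (-(1 / 2) : ℝ)
      = ∫ v, 50 * (1 + |t| + H) * (N : ℝ) ^ (-(1 / 2) : ℝ) * ((1 + |v|) * ‖φ v‖) := by
    rw [integral_const_mul]; ring
  rw [h1]
  refine norm_integral_le_of_norm_le ((adm_norm h).const_mul _) ?_
  filter_upwards [ae_ne (t := t) hH] with v hv
  rw [← sub_mul, norm_mul]
  have h2 := zeta_sub_A hv hN
  have h3 := weight_le (t := t) hH v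
  calc ‖riemannZeta (1 / 2 + I * ((t + H * v : ℝ) : ℂ)) - A N (t + H * v)‖ * ‖φ v‖
      ≤ 50 * ((1 + |t| + H) * (1 + |v|)) * (N : ℝ) ^ (-(1 / 2) : ℝ) * ‖φ v‖ := by
        gcongr
        refine h2.trans ?_
        gcongr
    _ = _ := by ring

/-- the terms of the sum -/
lemma term (h : Adm φ R) {n : ℕ} (hn : 1 ≤ n) (H t : ℝ) :
    ∫ v, (n : ℂ) ^ (-(1 / 2 + I * ((t + H * v : ℝ) : ℂ))) * φ v
      = psi φ (H * Real.log n) * (n : ℂ) ^ (-(1 / 2 + I * t : ℂ)) := by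
  have hn0 : (n : ℂ) ≠ 0 := by rw [Nat.cast_ne_zero]; omega
  unfold psi
  rw [mul_comm, ← integral_const_mul]
  refine integral_congr_ae (Eventually.of_forall fun v => ?_)
  simp only
  have h1 : (n : ℂ) ^ (-(1 / 2 + I * ((t + H * v : ℝ) : ℂ)))
      = (n : ℂ) ^ (-(1 / 2 + I * t : ℂ)) * cexp (-(I * ((H * Real.log n * v : ℝ) : ℂ))) := by
    rw [Complex.cpow_def_of_ne_zero hn0, Complex.cpow_def_of_ne_zero hn0, ← Complex.exp_add]
    congr 1
    rw [← Complex.natCast_log]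
    push_cast
    ring
  rw [h1]; ring

lemma psi_zero_of (h : Adm φ R) {H r : ℝ} (hH : 0 < H) (hr : R / H ≤ |r|) : psi φ (H * r) = 0 := by
  refine h.supp _ ?_
  rw [abs_mul, abs_of_pos hH]
  rw [div_le_iff₀ hH] at hr
  linarith

/-- the pole term -/
lemma pole (h : Adm φ R) {N : ℕ} (hN : 1 ≤ N) {H : ℝ} (hH : 0 < H) (t : ℝ)
    (hX : R / H ≤ Real.log N) :
    ∫ v, (N : ℂ) ^ (1 - (1 / 2 + I * ((t + H * v : ℝ) : ℂ)))
      / ((1 / 2 + I * ((t + H * v : ℝ) : ℂ)) - 1) * φ v = - Res φ R H t := by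
  have hN0 : (N : ℂ) ≠ 0 := by rw [Nat.cast_ne_zero]; omega
  obtain ⟨X, hXd⟩ : ∃ X, X = Real.log N := ⟨_, rfl⟩
  have h1 : ∀ τ : ℝ, (N : ℂ) ^ (1 - (1 / 2 + I * (τ : ℂ))) / ((1 / 2 + I * (τ : ℂ)) - 1)
      = - ∫ ρ in Iic X, cexp ((1 / 2 - I * τ) * ρ) := by
    intro τ
    have h2 : 0 < (1 / 2 - I * (τ : ℂ)).re := by simp
    rw [integral_exp_mul_complex_Iic h2, Complex.cpow_def_of_ne_zero hN0, ← Complex.natCast_log, ← hXd]
    have h3 : (1 / 2 - I * (τ : ℂ)) ≠ 0 := by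
      intro h4
      rw [h4] at h2
      simp at h2
    have h4 := line_sub τ
    rw [← neg_div_neg_eq, neg_div, neg_inj]
    congr 1
    · congr 1; ring
    · ring
  have h2 : ∀ v : ℝ, (N : ℂ) ^ (1 - (1 / 2 + I * ((t + H * v : ℝ) : ℂ)))
      / ((1 / 2 + I * ((t + H * v : ℝ) : ℂ)) - 1) * φ v
      = - ∫ ρ in Iic X, cexp ((1 / 2 - I * t) * ρ) * (φ v * cexp (-(I * ((H * ρ * v : ℝ) : ℂ)))) := by
    intro v
    rw [h1, neg_mul, ← integral_mul_const]
    congr 1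
    refine setIntegral_congr_fun measurableSet_Iic fun ρ _ => ?_
    change cexp ((1 / 2 - I * ((t + H * v : ℝ) : ℂ)) * ρ) * φ v
      = cexp ((1 / 2 - I * t) * ρ) * (φ v * cexp (-(I * ((H * ρ * v : ℝ) : ℂ))))
    have h3 : cexp ((1 / 2 - I * ((t + H * v : ℝ) : ℂ)) * ρ)
        = cexp ((1 / 2 - I * t) * ρ) * cexp (-(I * ((H * ρ * v : ℝ) : ℂ))) := by
      rw [← Complex.exp_add]
      congr 1
      push_cast
      ring
    rw [h3]; ring
  simp only [h2]
  rw [integral_neg, neg_inj]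
  have hint : Integrable (Function.uncurry fun (v ρ : ℝ) =>
      cexp ((1 / 2 - I * t) * ρ) * (φ v * cexp (-(I * ((H * ρ * v : ℝ) : ℂ)))))
      (volume.prod (volume.restrict (Iic X))) := by
    have h3 : 0 < (1 / 2 - I * (t : ℂ)).re := by simp
    have h4 : Integrable (fun ρ : ℝ => cexp ((1 / 2 - I * t) * ρ)) (volume.restrict (Iic X)) :=
      integrableOn_exp_mul_complex_Iic h3 X
    have h5 := (adm_int h).mul_prod h4
    have h6 : Integrable (fun z : ℝ × ℝ => cexp (-(I * ((H * z.2 * z.1 : ℝ) : ℂ)))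
        * (φ z.1 * cexp ((1 / 2 - I * t) * z.2))) (volume.prod (volume.restrict (Iic X))) := by
      refine h5.bdd_mul (c := 1) ?_ ?_
      · exact Continuous.aestronglyMeasurable (by fun_prop)
      · refine Eventually.of_forall fun z => ?_
        rw [Complex.norm_exp]
        simp
    refine h6.congr (Eventually.of_forall fun z => ?_)
    simp only [Function.uncurry]
    ring
  rw [integral_integral_swap hint]
  have h3 : ∀ ρ : ℝ, ∫ v, cexp ((1 / 2 - I * t) * ρ) * (φ v * cexp (-(I * ((H * ρ * v : ℝ) : ℂ))))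
      = cexp ((1 / 2 - I * t) * ρ) * psi φ (H * ρ) := by
    intro ρ
    rw [integral_const_mul]
    rfl
  simp only [h3]
  unfold Res
  have hR : 0 < R / H := div_pos h.hR hH
  rw [intervalIntegral.integral_of_le (by linarith)]
  refine (setIntegral_eq_of_subset_of_forall_sdiff_eq_zero measurableSet_Iic ?_ ?_)
  · intro ρ hρ
    rw [mem_Iic, hXd]
    exact hρ.2.trans hX
  · intro ρ hρ
    have h4 : R / H ≤ |ρ| := by
      rw [le_abs]
      by_contra hcon
      push Not at hcon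
      exact hρ.2 ⟨by linarith [hcon.2], hcon.1.le⟩
    rw [psi_zero_of h hH h4, mul_zero]

/-- the average of the approximation -/
lemma stepB (h : Adm φ R) {N : ℕ} (hN : 1 ≤ N) {H : ℝ} (hH : 0 < H) (t : ℝ)
    (hX : R / H ≤ Real.log N) :
    ∫ v, A N (t + H * v) * φ v = ZS (fun r => psi φ (R * r)) (R / H) t - Res φ R H t := by
  have hi1 : ∀ n ∈ Finset.Icc 1 N,
      Integrable (fun v => (n : ℂ) ^ (-(1 / 2 + I * ((t + H * v : ℝ) : ℂ))) * φ v) := by
    intro n hn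
    have hn1 := (Finset.mem_Icc.mp hn).1
    refine int_mul h ((cont_cpow hn1 (g := fun τ : ℝ => -(1 / 2 + I * (τ : ℂ))) (by fun_prop)).comp
      (cont_lin H t)) (C := 1) (Eventually.of_forall fun v => ?_)
    change ‖(n : ℂ) ^ (-(1 / 2 + I * ((t + H * v : ℝ) : ℂ)))‖ ≤ _
    rw [Complex.norm_natCast_cpow_of_pos hn1]
    have h1 : (-(1 / 2 + I * ((t + H * v : ℝ) : ℂ))).re = -(1 / 2) := by simp
    rw [h1]
    have h2 : (n : ℝ) ^ (-(1 / 2) : ℝ) ≤ 1 :=
      Real.rpow_le_one_of_one_le_of_nonpos (by exact_mod_cast hn1) (by norm_num)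
    linarith [abs_nonneg v]
  have hi2 : Integrable (fun v => (N : ℂ) ^ (1 - (1 / 2 + I * ((t + H * v : ℝ) : ℂ)))
      / ((1 / 2 + I * ((t + H * v : ℝ) : ℂ)) - 1) * φ v) := by
    have hc : Continuous (fun τ : ℝ => (N : ℂ) ^ (1 - (1 / 2 + I * (τ : ℂ)))
      / ((1 / 2 + I * (τ : ℂ)) - 1)) :=
      Continuous.div (cont_cpow hN (by fun_prop)) (by fun_prop) line_sub
    refine int_mul h (hc.comp (cont_lin H t)) (C := 2 * Real.sqrt N) (Eventually.of_forall fun v => ?_)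
    have hs : (1 / 2 + I * ((t + H * v : ℝ) : ℂ)).re = 1 / 2 := by simp
    have h3 := Z1I.norm_pole_le hN hs
    refine h3.trans ?_
    have h4 : 0 ≤ 2 * Real.sqrt N := by positivity
    nlinarith [abs_nonneg v]
  have h1 : ∀ v : ℝ, A N (t + H * v) * φ v
      = ∑ n ∈ Finset.Icc 1 N, (n : ℂ) ^ (-(1 / 2 + I * ((t + H * v : ℝ) : ℂ))) * φ v
        + (N : ℂ) ^ (1 - (1 / 2 + I * ((t + H * v : ℝ) : ℂ)))
          / ((1 / 2 + I * ((t + H * v : ℝ) : ℂ)) - 1) * φ v := by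
    intro v
    unfold A
    rw [add_mul, Finset.sum_mul]
  simp only [h1]
  rw [integral_add (integrable_finsetSum _ hi1) hi2, integral_finsetSum _ hi1, pole h hN hH t hX,
    ← sub_eq_add_neg]
  congr 1
  unfold ZS
  have hN0 : (0 : ℝ) < N := by exact_mod_cast (by omega : 0 < N)
  have hsub : Finset.Icc 1 ⌊Real.exp (R / H)⌋₊ ⊆ Finset.Icc 1 N := by
    refine Finset.Icc_subset_Icc le_rfl ?_
    refine Nat.floor_le_of_le ?_
    calc Real.exp (R / H) ≤ Real.exp (Real.log N) := Real.exp_le_exp.mpr hX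
      _ = N := Real.exp_log hN0
  rw [← Finset.sum_subset hsub]
  · refine Finset.sum_congr rfl fun n hn => ?_
    rw [term h (Finset.mem_Icc.mp hn).1]
    congr 2
    have := h.hR
    field_simp
  · intro n hn hn2
    have hn1 := (Finset.mem_Icc.mp hn).1
    rw [term h hn1]
    have h4 : R / H ≤ |Real.log n| := by
      have h5 : ⌊Real.exp (R / H)⌋₊ < n := by
        by_contra hcon
        exact hn2 (Finset.mem_Icc.mpr ⟨hn1, by omega⟩)
      have h6 : Real.exp (R / H) < n := (Nat.floor_lt (Real.exp_pos _).le).mp h5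
      have h7 : R / H < Real.log n := by
        rw [Real.lt_log_iff_exp_lt (by exact_mod_cast (by omega : 0 < n))]
        exact h6
      exact h7.le.trans (le_abs_self _)
    rw [psi_zero_of h hH h4, zero_mul]

end Z2I

open Z2I

theorem zIdent : ZIdent := by
  intro φ R h H t hH
  rw [← sub_eq_zero, ← norm_eq_zero]
  obtain ⟨C, hC⟩ : ∃ C, C = 50 * (1 + |t| + H) * (∫ v, (1 + |v|) * ‖φ v‖) := ⟨_, rfl⟩
  have h1 : ∀ᶠ N : ℕ in atTop, ‖ZW φ H t - (ZS (fun r => psi φ (R * r)) (R / H) t - Res φ R H t)‖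
      ≤ C * (N : ℝ) ^ (-(1 / 2) : ℝ) := by
    filter_upwards [eventually_ge_atTop 1, (Real.tendsto_log_atTop.comp
      tendsto_natCast_atTop_atTop).eventually_ge_atTop (R / H)] with N hN hX
    rw [← stepB h hN hH t hX, hC]
    exact stepA h hH t hN
  have h2 : Tendsto (fun N : ℕ => C * (N : ℝ) ^ (-(1 / 2) : ℝ)) atTop (𝓝 (C * 0)) :=
    Tendsto.const_mul _ ((tendsto_rpow_neg_atTop (by norm_num : (0 : ℝ) < 1 / 2)).comp
      tendsto_natCast_atTop_atTop)
  rw [mul_zero] at h2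
  exact le_antisymm (ge_of_tendsto h2 h1) (norm_nonneg _)

end Pool.Agent.Lib.MS
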