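import Pool.Agent.Lib.MP_f9aece_nt_ms.StmtsZ

/-!
Mesoscopic moments of zeta, module Z6: comparison of powers.
-/

set_option autoImplicit false

namespace Pool.Agent.Lib.MS

theorem powClose : PowClose := by
  intro β ε hβ hε
  obtain ⟨δ, hδ, hδ1⟩ : ∃ δ : ℝ, 0 < δ ∧ (1 + δ) ^ β = 1 + ε := by
    refine ⟨(1 + ε) ^ (1 / β) - 1, ?_, ?_⟩
    · have : 1 < (1 + ε) ^ (1 / β) := Real.one_lt_rpow (by linarith) (by positivity)
      linarith
    · rw [add_sub_cancel, ← Real.rpow_mul (by linarith), one_div_mul_cancel hβ.ne', Real.rpow_one]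
  refine ⟨(1 + 1 / δ) ^ β, Real.one_le_rpow (by
    have : 0 < 1 / δ := by positivity
    linarith) hβ.le, fun a b => ?_⟩
  have h0 : 0 ≤ ‖a‖ ^ β := Real.rpow_nonneg (norm_nonneg _) _
  have h1 : 0 ≤ ‖b‖ ^ β := Real.rpow_nonneg (norm_nonneg _) _
  rcases le_total ‖b‖ (δ * ‖a‖) with h | h
  · have h2 : ‖a + b‖ ≤ (1 + δ) * ‖a‖ := by
      refine (norm_add_le a b).trans ?_
      linarith
    have h3 : ‖a + b‖ ^ β ≤ ((1 + δ) * ‖a‖) ^ β :=
      Real.rpow_le_rpow (norm_nonneg _) h2 hβ.le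
    rw [Real.mul_rpow (by positivity) (norm_nonneg _), hδ1] at h3
    have h4 : 0 ≤ (1 + 1 / δ) ^ β * ‖b‖ ^ β := by positivity
    linarith
  · have h2 : ‖a + b‖ ≤ (1 + 1 / δ) * ‖b‖ := by
      refine (norm_add_le a b).trans ?_
      have h5 : ‖a‖ ≤ 1 / δ * ‖b‖ := by
        rw [one_div, ← div_eq_inv_mul, le_div_iff₀ hδ]
        linarith
      linarith
    have h3 : ‖a + b‖ ^ β ≤ ((1 + 1 / δ) * ‖b‖) ^ β :=
      Real.rpow_le_rpow (norm_nonneg _) h2 hβ.le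
    rw [Real.mul_rpow (by positivity) (norm_nonneg _)] at h3
    have h4 : 0 ≤ (1 + ε) * ‖a‖ ^ β := by positivity
    linarith

end Pool.Agent.Lib.MS
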