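import Mathlib
import Pool.Agent.Lib.MP_f9aece_nt_ms.Coeffs
import Pool.Agent.Lib.MP_f9aece_nt_h6.Groups
import Pool.Agent.Lib.MP_f9aece_nt.PrimeSums

/-!
Mesoscopic moments of zeta, module Q10: energy of the rough numbers.
-/

set_option autoImplicit false

namespace Pool.Agent.Lib.MS

open MeasureTheory Set Filter Topology Complex
open scoped ComplexConjugate
open scoped ArithmeticFunction.Omega
open Pool.Agent.Lib.MP_f9aece_nt (DP pair BK K1 ev PP VV Smo expo EE)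
open Pool.Agent.Lib.MP_f9aece_nt_h40 (ind)
open Pool.Agent.Lib.MP_f9aece_nt_h85 (rz Rst)
open Pool.Agent.Lib.J4 (Sg Yg Jok Vs En V2 SU)
open Pool.Agent.Lib.N4 (OmS)

namespace Q10

/-- primes between `e^y` and `e^X` -/
lemma tail_bound (q : ℕ) {y X : ℝ} (hy : 0 ≤ y) (hX : 0 ≤ X) (s : Finset ℕ)
    (hs : ∀ p ∈ s, p.Prime ∧ y < Real.log p ∧ Real.log p ≤ X) :
    Real.exp (q ^ 2 * VV s) ≤ (3 * Real.exp (1 + 2 * Real.log 4)) ^ (q ^ 2)
      * ((X + y + 1) / (y + 1)) ^ (q ^ 2) := by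
  have hy1 : 0 < y + 1 := by linarith
  have hl4 : 0 ≤ Real.log 4 := Real.log_nonneg (by norm_num)
  have hratio : 1 ≤ (X + y + 1) / (y + 1) := by
    rw [le_div_iff₀ hy1]
    linarith
  have hC : 1 ≤ 3 * Real.exp (1 + 2 * Real.log 4) := by
    have := Real.one_le_exp (by positivity : 0 ≤ 1 + 2 * Real.log 4)
    linarith
  have key : Real.exp (VV s) ≤ 3 * Real.exp (1 + 2 * Real.log 4) * ((X + y + 1) / (y + 1)) := by
    set y' := max y (1 / 2) with hy'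
    have hy'0 : 0 < y' := lt_of_lt_of_le (by norm_num) (le_max_right _ _)
    have hy'2 : 1 / 2 ≤ y' := le_max_right _ _
    have hy'3 : (y + 1) / 3 ≤ y' := by
      rcases le_total y (1 / 2) with h | h
      · linarith
      · have : y ≤ y' := le_max_left _ _
        linarith
    have hs' : ∀ p ∈ s, p.Prime ∧ y' < Real.log p ∧ Real.log p ≤ X := by
      intro p hp
      obtain ⟨h1, h2, h3⟩ := hs p hp
      refine ⟨h1, max_lt h2 ?_, h3⟩
      have h4 : Real.log 2 ≤ Real.log p :=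
        Real.log_le_log (by norm_num) (by exact_mod_cast h1.two_le)
      have h5 := Real.log_two_gt_d9
      linarith
    rcases le_or_gt y' X with hX' | hX'
    · have h1 := MP_f9aece_nt_h6.VV_le_log hy'0 hX' s hs'
      have h2 : Real.log 4 / y' ≤ 2 * Real.log 4 := by
        rw [div_le_iff₀ hy'0]
        nlinarith
      have hXp : 0 < X := hy'0.trans_le hX'
      calc Real.exp (VV s) ≤ Real.exp (1 + 2 * Real.log 4 + Real.log (X / y')) :=
            Real.exp_le_exp.mpr (by linarith)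
        _ = Real.exp (1 + 2 * Real.log 4) * (X / y') := by
            rw [Real.exp_add, Real.exp_log (by positivity)]
        _ ≤ Real.exp (1 + 2 * Real.log 4) * (3 * ((X + y + 1) / (y + 1))) := by
            refine mul_le_mul_of_nonneg_left ?_ (Real.exp_pos _).le
            rw [div_le_iff₀ hy'0]
            have h3 : 3 * ((X + y + 1) / (y + 1)) * ((y + 1) / 3) = X + y + 1 := by
              field_simp
            have h4 : 3 * ((X + y + 1) / (y + 1)) * ((y + 1) / 3)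
                ≤ 3 * ((X + y + 1) / (y + 1)) * y' :=
              mul_le_mul_of_nonneg_left hy'3 (by positivity)
            linarith
        _ = _ := by ring
    · have hemp : s = ∅ := by
        rw [Finset.eq_empty_iff_forall_notMem]
        intro p hp
        obtain ⟨_, h2, h3⟩ := hs' p hp
        linarith
      have : VV s = 0 := by rw [hemp]; simp [VV]
      rw [this, Real.exp_zero]
      calc (1 : ℝ) = 1 * 1 := by ring
        _ ≤ _ := mul_le_mul hC hratio (by norm_num) (by linarith)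
  have h0 : Real.exp (q ^ 2 * VV s) = Real.exp (VV s) ^ (q ^ 2) := by
    rw [← Real.exp_nat_mul]
    push_cast
    rfl
  rw [h0, ← mul_pow]
  exact pow_le_pow_left₀ (Real.exp_pos _).le key _

/-- the prime factors of a rough number -/
lemma mem_of_dvd {p0 : ℕ} {y X : ℝ} {n p : ℕ} (hn : n ∈ Smo (Rst p0 y)) (hX : Real.log n ≤ X)
    (hp : p.Prime) (hd : p ∣ n) : p ≤ ⌊Real.exp X⌋₊ ∧ Real.log p ≤ X ∧ (p ≤ p0 ∨ y < Real.log p) := by
  have hn0 : n ≠ 0 := hn.1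
  have hpn : p ≤ n := Nat.le_of_dvd (Nat.pos_of_ne_zero hn0) hd
  have hp0 : (0 : ℝ) < p := by exact_mod_cast hp.pos
  have hlog : Real.log p ≤ X :=
    (Real.log_le_log hp0 (by exact_mod_cast hpn)).trans hX
  refine ⟨?_, hlog, ?_⟩
  · rw [Nat.le_floor_iff (Real.exp_pos _).le]
    exact (Real.log_le_iff_le_exp hp0).mp hlog
  · have h := hn.2 p hp hd
    change ¬ (p0 < p ∧ p ≤ ⌊Real.exp y⌋₊) at h
    rw [not_and_or, not_lt, not_le] at h
    rcases h with h | h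
    · exact Or.inl h
    · right
      rw [Nat.floor_lt (Real.exp_pos _).le] at h
      exact (Real.lt_log_iff_exp_lt hp0).mpr h

lemma inv_prime_le_half {p : ℕ} (hp : p.Prime) : (p : ℝ)⁻¹ ≤ 1 / 2 := by
  have h2 : (2 : ℝ) ≤ p := by exact_mod_cast hp.two_le
  rw [← one_div]
  exact one_div_le_one_div_of_le (by norm_num) h2

lemma sq_sum_le_one (s : Finset ℕ) (hs : ∀ p ∈ s, p.Prime) : ∑ p ∈ s, ((p : ℝ)⁻¹) ^ 2 ≤ 1 := by
  have := MP_f9aece_nt.sum_inv_sq_le 1 le_rfl s fun p hp => (hs p hp).one_lt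
  simpa using this

lemma sum_le_card (p0 : ℕ) (s : Finset ℕ) (hs : ∀ p ∈ s, p.Prime ∧ p ≤ p0) :
    ∑ p ∈ s, (p : ℝ)⁻¹ ≤ p0 := by
  have h1 : ∑ p ∈ s, (p : ℝ)⁻¹ ≤ ∑ p ∈ Finset.Icc 1 p0, (1 : ℝ) := by
    refine (Finset.sum_le_sum fun p hp => ?_).trans
      (Finset.sum_le_sum_of_subset_of_nonneg (fun p hp => ?_) fun _ _ _ => zero_le_one)
    · have := inv_prime_le_half (hs p hp).1
      linarith
    · exact Finset.mem_Icc.mpr ⟨(hs p hp).1.one_le, (hs p hp).2⟩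
  simpa using h1

end Q10

open Classical in
theorem roughQ (h : EnW) : RoughQ := by
  intro q p0 _
  obtain ⟨C0, hC0, hE⟩ := h q 0 le_rfl
  set D : ℝ := 3 * Real.exp (1 + 2 * Real.log 4) with hD
  have hl4 : 0 ≤ Real.log 4 := Real.log_nonneg (by norm_num)
  have hD1 : 1 ≤ D := by
    have := Real.one_le_exp (by positivity : 0 ≤ 1 + 2 * Real.log 4)
    linarith
  refine ⟨Real.exp (q ^ 2 * p0 + C0) * D ^ (q ^ 2), ?_, ?_⟩
  · have h1 : 1 ≤ Real.exp ((q : ℝ) ^ 2 * p0 + C0) := Real.one_le_exp (by positivity)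
    have h2 : 1 ≤ D ^ (q ^ 2) := one_le_pow₀ hD1
    calc (1 : ℝ) = 1 * 1 := by ring
      _ ≤ _ := mul_le_mul h1 h2 (by norm_num) (by linarith)
  intro y X hy hX B hB
  set T : Finset ℕ := (Finset.range (⌊Real.exp X⌋₊ + 1)).filter
    (fun p => p.Prime ∧ Real.log p ≤ X ∧ (p ≤ p0 ∨ y < Real.log p)) with hT
  have hTp : ∀ p ∈ T, p.Prime := fun p hp => (Finset.mem_filter.mp hp).2.1
  have hBT : ∀ n ∈ B, n ∈ Smo (T : Set ℕ) := by
    intro n hn
    refine ⟨(hB n hn).1.1, fun p hp hd => ?_⟩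
    obtain ⟨h1, h2, h3⟩ := Q10.mem_of_dvd (hB n hn).1 (hB n hn).2 hp hd
    rw [Finset.mem_coe, hT, Finset.mem_filter]
    exact ⟨Finset.mem_range.mpr (by omega), hp, h2, h3⟩
  have h1 := hE T hTp (fun p => (p : ℝ)⁻¹)
    (fun p hp => ⟨by positivity, Q10.inv_prime_le_half (hTp p hp)⟩) 0 (by simp) B hBT
  have h2 : ∑ n ∈ B, (zr ^ q) n ^ 2 * (n : ℝ)⁻¹
      = ∑ n ∈ B, hq q 0 n ^ 2 * ∏ p ∈ T, (fun p : ℕ => (p : ℝ)⁻¹) p ^ n.factorization p := by
    refine Finset.sum_congr rfl fun n hn => ?_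
    rw [hq_zero, MP_f9aece_nt_h97.inv_smo (hBT n hn)]
  rw [h2]
  refine h1.trans ?_
  set T1 := T.filter (fun p => p ≤ p0) with hT1
  set T2 := T.filter (fun p => ¬ p ≤ p0) with hT2
  have hsplit : ∑ p ∈ T, ((q + 0 : ℝ) ^ 2 * (p : ℝ)⁻¹ + C0 * ((p : ℝ)⁻¹) ^ 2)
      = q ^ 2 * ∑ p ∈ T1, (p : ℝ)⁻¹ + q ^ 2 * VV T2 + C0 * ∑ p ∈ T, ((p : ℝ)⁻¹) ^ 2 := by
    rw [Finset.sum_add_distrib, ← Finset.mul_sum, ← Finset.mul_sum, add_zero,
      ← Finset.sum_filter_add_sum_filter_not T (fun p => p ≤ p0) (fun p => (p : ℝ)⁻¹), mul_add]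
    rfl
  have h3 : ∑ p ∈ T1, (p : ℝ)⁻¹ ≤ p0 := Q10.sum_le_card p0 T1 fun p hp => by
    rw [hT1, Finset.mem_filter] at hp
    exact ⟨hTp p hp.1, hp.2⟩
  have h4 : ∑ p ∈ T, ((p : ℝ)⁻¹) ^ 2 ≤ 1 := Q10.sq_sum_le_one T hTp
  have h5 := Q10.tail_bound q hy hX T2 fun p hp => by
    rw [hT2, Finset.mem_filter, hT, Finset.mem_filter] at hp
    obtain ⟨⟨_, h5, h6, h7⟩, h8⟩ := hp
    exact ⟨h5, h7.resolve_left h8, h6⟩
  calc Real.exp (∑ p ∈ T, ((q + 0 : ℝ) ^ 2 * (p : ℝ)⁻¹ + C0 * ((p : ℝ)⁻¹) ^ 2))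
      ≤ Real.exp ((q ^ 2 * p0 + C0) + q ^ 2 * VV T2) := by
        rw [hsplit]
        refine Real.exp_le_exp.mpr ?_
        have h6 : (q : ℝ) ^ 2 * ∑ p ∈ T1, (p : ℝ)⁻¹ ≤ q ^ 2 * p0 :=
          mul_le_mul_of_nonneg_left h3 (by positivity)
        have h7 : C0 * ∑ p ∈ T, ((p : ℝ)⁻¹) ^ 2 ≤ C0 * 1 := mul_le_mul_of_nonneg_left h4 hC0
        linarith
    _ = Real.exp (q ^ 2 * p0 + C0) * Real.exp (q ^ 2 * VV T2) := Real.exp_add _ _
    _ ≤ Real.exp (q ^ 2 * p0 + C0) * (D ^ (q ^ 2) * ((X + y + 1) / (y + 1)) ^ (q ^ 2)) :=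
        mul_le_mul_of_nonneg_left h5 (Real.exp_pos _).le
    _ = _ := by ring

end Pool.Agent.Lib.MS
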