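import Mathlib
import Pool.Agent.Lib.MP_f9aece_nt_ms.Q10RoughQ

/-!
Mesoscopic moments of zeta, module Q11: energy of the numbers with many prime factors in one group
(Rankin's method).
-/

set_option autoImplicit false

namespace Pool.Agent.Lib.MS

open MeasureTheory Set Filter Topology Complex
open scoped ComplexConjugate
open scoped ArithmeticFunction.Omega
open Pool.Agent.Lib.MP_f9aece_nt (DP pair BK K1 ev PP VV Smo expo EE)
open Pool.Agent.Lib.MP_f9aece_nt_h40 (ind)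
open Pool.Agent.Lib.MP_f9aece_nt_h85 (rz Rst)
open Pool.Agent.Lib.J4 (Sg Yg Jok Vs En V2 SU)
open Pool.Agent.Lib.N4 (OmS)

namespace Q11

open Classical in
/-- the weights -/
noncomputable def w (S : Finset ℕ) (p : ℕ) : ℝ := (if p ∈ S then 2 else 1) * (p : ℝ)⁻¹

lemma w_nonneg (S : Finset ℕ) (p : ℕ) : 0 ≤ w S p := by
  unfold w
  split_ifs <;> positivity

lemma w_le (S : Finset ℕ) (p : ℕ) : w S p ≤ 2 * (p : ℝ)⁻¹ := by
  unfold w
  have : (0 : ℝ) ≤ (p : ℝ)⁻¹ := by positivity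
  split_ifs
  · exact le_rfl
  · linarith

lemma w_le_half {S : Finset ℕ} (hS : ∀ p ∈ S, 1000 < p) {p : ℕ} (hp : p.Prime) :
    w S p ≤ 1 / 2 := by
  unfold w
  split_ifs with h
  · have h2 : (1000 : ℝ) < p := by exact_mod_cast hS p h
    have h3 : (p : ℝ)⁻¹ ≤ 1 / 1000 := by
      rw [← one_div]
      exact one_div_le_one_div_of_le (by norm_num) h2.le
    linarith
  · rw [one_mul]
    exact Q10.inv_prime_le_half hp

open Classical in
lemma prod_w {S T : Finset ℕ} {n : ℕ} (hS : ∀ p ∈ S, p.Prime) (hn : n ∈ Smo (T : Set ℕ)) :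
    ∏ p ∈ T, w S p ^ n.factorization p = 2 ^ OmS S n * (n : ℝ)⁻¹ := by
  have h1 : ∏ p ∈ T, w S p ^ n.factorization p
      = (∏ p ∈ T, (if p ∈ S then (2 : ℝ) else 1) ^ n.factorization p)
        * ∏ p ∈ T, ((p : ℝ)⁻¹) ^ n.factorization p := by
    rw [← Finset.prod_mul_distrib]
    refine Finset.prod_congr rfl fun p _ => ?_
    unfold w
    rw [mul_pow]
  have h2 : ∏ p ∈ T, (if p ∈ S then (2 : ℝ) else 1) ^ n.factorization p = 2 ^ OmS S n := by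
    have h3 : ∏ p ∈ T, (if p ∈ S then (2 : ℝ) else 1) ^ n.factorization p
        = ∏ p ∈ T.filter (fun p => p ∈ S), (2 : ℝ) ^ n.factorization p := by
      rw [Finset.prod_filter]
      refine Finset.prod_congr rfl fun p _ => ?_
      split_ifs <;> simp
    have h4 : ∏ p ∈ T.filter (fun p => p ∈ S), (2 : ℝ) ^ n.factorization p
        = ∏ p ∈ S, (2 : ℝ) ^ n.factorization p := by
      refine Finset.prod_subset (fun p hp => (Finset.mem_filter.mp hp).2) fun p hp hp' => ?_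
      have h5 : n.factorization p = 0 := by
        apply Nat.factorization_eq_zero_of_not_dvd
        intro hd
        exact hp' (Finset.mem_filter.mpr ⟨hn.2 p (hS p hp) hd, hp⟩)
      rw [h5, pow_zero]
    rw [h3, h4, Finset.prod_pow_eq_pow_sum]
    rfl
  rw [h1, h2, MP_f9aece_nt_h97.inv_smo hn]

end Q11

open Classical in
theorem omQ (h : EnW) : OmQ := by
  intro q p0 hp0
  obtain ⟨C0, hC0, hE⟩ := h q 0 le_rfl
  set D : ℝ := 3 * Real.exp (1 + 2 * Real.log 4) with hD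
  have hl4 : 0 ≤ Real.log 4 := Real.log_nonneg (by norm_num)
  have hD1 : 1 ≤ D := by
    have := Real.one_le_exp (by positivity : 0 ≤ 1 + 2 * Real.log 4)
    linarith
  refine ⟨Real.exp (q ^ 2 * p0 + 4 * C0) * D ^ (q ^ 2), ?_, ?_⟩
  · have h1 : 1 ≤ Real.exp ((q : ℝ) ^ 2 * p0 + 4 * C0) := Real.one_le_exp (by positivity)
    have h2 : 1 ≤ D ^ (q ^ 2) := one_le_pow₀ hD1
    calc (1 : ℝ) = 1 * 1 := by ring
      _ ≤ _ := mul_le_mul h1 h2 (by norm_num) (by linarith)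
  intro y y' X hy' hyy hX S hS κ B hB
  have hy : 0 ≤ y := hy'.trans hyy
  have hSp : ∀ p ∈ S, p.Prime := fun p hp => ((hS p).mp hp).1
  have hSk : ∀ p ∈ S, 1000 < p := fun p hp => lt_of_le_of_lt hp0 ((hS p).mp hp).2.1
  set T : Finset ℕ := (Finset.range (⌊Real.exp X⌋₊ + 1)).filter
    (fun p => p.Prime ∧ Real.log p ≤ X ∧ (p ≤ p0 ∨ y' < Real.log p)) with hT
  have hTp : ∀ p ∈ T, p.Prime := fun p hp => (Finset.mem_filter.mp hp).2.1
  have hBT : ∀ n ∈ B, n ∈ Smo (T : Set ℕ) := by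
    intro n hn
    refine ⟨(hB n hn).1.1, fun p hp hd => ?_⟩
    obtain ⟨h1, h2, h3⟩ := Q10.mem_of_dvd (hB n hn).1 (hB n hn).2.1 hp hd
    rw [Finset.mem_coe, hT, Finset.mem_filter]
    exact ⟨Finset.mem_range.mpr (by omega), hp, h2, h3⟩
  have h1 := hE T hTp (Q11.w S)
    (fun p hp => ⟨Q11.w_nonneg S p, Q11.w_le_half hSk (hTp p hp)⟩) 0 (by simp) B hBT
  have h2 : ∑ n ∈ B, (zr ^ q) n ^ 2 * (n : ℝ)⁻¹
      ≤ (1 / 2) ^ κ * ∑ n ∈ B, hq q 0 n ^ 2 * ∏ p ∈ T, Q11.w S p ^ n.factorization p := by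
    rw [Finset.mul_sum]
    refine Finset.sum_le_sum fun n hn => ?_
    rw [hq_zero, Q11.prod_w hSp (hBT n hn)]
    have h3 : (1 : ℝ) ≤ (1 / 2) ^ κ * 2 ^ OmS S n := by
      have h4 : (2 : ℝ) ^ κ ≤ 2 ^ OmS S n :=
        pow_le_pow_right₀ (by norm_num) (hB n hn).2.2.le
      rw [one_div, inv_pow, ← div_eq_inv_mul, le_div_iff₀ (by positivity), one_mul]
      exact h4
    have h5 : 0 ≤ (zr ^ q) n ^ 2 * (n : ℝ)⁻¹ := by positivity
    calc (zr ^ q) n ^ 2 * (n : ℝ)⁻¹ = 1 * ((zr ^ q) n ^ 2 * (n : ℝ)⁻¹) := (one_mul _).symm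
      _ ≤ ((1 / 2) ^ κ * 2 ^ OmS S n) * ((zr ^ q) n ^ 2 * (n : ℝ)⁻¹) :=
          mul_le_mul_of_nonneg_right h3 h5
      _ = _ := by ring
  set T1 : Finset ℕ := T.filter (fun p => p ≤ p0) with hT1
  set T2 : Finset ℕ := (T.filter (fun p => ¬ p ≤ p0)).filter (fun p : ℕ => Real.log p ≤ y) with hT2
  set T3 : Finset ℕ := (T.filter (fun p => ¬ p ≤ p0)).filter (fun p : ℕ => ¬ Real.log p ≤ y) with hT3
  have hT2S : T2 ⊆ S := by
    intro p hp
    rw [hT2, Finset.mem_filter, Finset.mem_filter, hT, Finset.mem_filter] at hp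
    obtain ⟨⟨⟨_, a1, _, a2⟩, a3⟩, a4⟩ := hp
    exact (hS p).mpr ⟨a1, by omega, a2.resolve_left a3, a4⟩
  have hsum : ∑ p ∈ T, Q11.w S p = ∑ p ∈ T1, Q11.w S p + (∑ p ∈ T2, Q11.w S p
      + ∑ p ∈ T3, Q11.w S p) := by
    rw [hT2, hT3, Finset.sum_filter_add_sum_filter_not (T.filter (fun p => ¬ p ≤ p0))
      (fun p : ℕ => Real.log p ≤ y) (Q11.w S), hT1,
      Finset.sum_filter_add_sum_filter_not T (fun p => p ≤ p0) (Q11.w S)]
  have hb1 : ∑ p ∈ T1, Q11.w S p ≤ p0 := by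
    have h3 : ∑ p ∈ T1, Q11.w S p = ∑ p ∈ T1, (p : ℝ)⁻¹ := by
      refine Finset.sum_congr rfl fun p hp => ?_
      rw [hT1, Finset.mem_filter] at hp
      unfold Q11.w
      rw [if_neg fun hs => by have := ((hS p).mp hs).2.1; omega, one_mul]
    rw [h3]
    exact Q10.sum_le_card p0 T1 fun p hp => by
      rw [hT1, Finset.mem_filter] at hp
      exact ⟨hTp p hp.1, hp.2⟩
  have hb2 : ∑ p ∈ T2, Q11.w S p ≤ 2 * VV S := by
    calc ∑ p ∈ T2, Q11.w S p ≤ ∑ p ∈ T2, 2 * (p : ℝ)⁻¹ :=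
          Finset.sum_le_sum fun p _ => Q11.w_le S p
      _ ≤ ∑ p ∈ S, 2 * (p : ℝ)⁻¹ :=
          Finset.sum_le_sum_of_subset_of_nonneg hT2S fun _ _ _ => by positivity
      _ = 2 * VV S := by rw [← Finset.mul_sum]; rfl
  have hb3 : ∑ p ∈ T3, Q11.w S p = VV T3 := by
    refine Finset.sum_congr rfl fun p hp => ?_
    rw [hT3, Finset.mem_filter] at hp
    unfold Q11.w
    rw [if_neg fun hs => hp.2 ((hS p).mp hs).2.2.2, one_mul]
  have hsq : ∑ p ∈ T, Q11.w S p ^ 2 ≤ 4 := by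
    calc ∑ p ∈ T, Q11.w S p ^ 2 ≤ ∑ p ∈ T, 4 * ((p : ℝ)⁻¹) ^ 2 := by
          refine Finset.sum_le_sum fun p _ => ?_
          have h3 := pow_le_pow_left₀ (Q11.w_nonneg S p) (Q11.w_le S p) 2
          calc Q11.w S p ^ 2 ≤ (2 * (p : ℝ)⁻¹) ^ 2 := h3
            _ = _ := by ring
      _ = 4 * ∑ p ∈ T, ((p : ℝ)⁻¹) ^ 2 := by rw [← Finset.mul_sum]
      _ ≤ 4 * 1 := mul_le_mul_of_nonneg_left (Q10.sq_sum_le_one T hTp) (by norm_num)
      _ = 4 := by norm_num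
  have h5 := Q10.tail_bound q hy hX T3 fun p hp => by
    rw [hT3, Finset.mem_filter, Finset.mem_filter, hT, Finset.mem_filter] at hp
    obtain ⟨⟨⟨_, a1, a2, _⟩, _⟩, a4⟩ := hp
    exact ⟨a1, not_le.mp a4, a2⟩
  have hexp : ∑ p ∈ T, ((q + 0 : ℝ) ^ 2 * Q11.w S p + C0 * Q11.w S p ^ 2)
      ≤ (q ^ 2 * p0 + 4 * C0) + 2 * q ^ 2 * VV S + q ^ 2 * VV T3 := by
    rw [Finset.sum_add_distrib, ← Finset.mul_sum, ← Finset.mul_sum, add_zero, hsum, hb3]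
    have e1 : (q : ℝ) ^ 2 * ∑ p ∈ T1, Q11.w S p ≤ q ^ 2 * p0 :=
      mul_le_mul_of_nonneg_left hb1 (by positivity)
    have e2 : (q : ℝ) ^ 2 * ∑ p ∈ T2, Q11.w S p ≤ q ^ 2 * (2 * VV S) :=
      mul_le_mul_of_nonneg_left hb2 (by positivity)
    have e3 : C0 * ∑ p ∈ T, Q11.w S p ^ 2 ≤ C0 * 4 := mul_le_mul_of_nonneg_left hsq hC0
    nlinarith
  have hfin : Real.exp (∑ p ∈ T, ((q + 0 : ℝ) ^ 2 * Q11.w S p + C0 * Q11.w S p ^ 2))
      ≤ Real.exp (q ^ 2 * p0 + 4 * C0) * Real.exp (2 * q ^ 2 * VV S)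
        * (D ^ (q ^ 2) * ((X + y + 1) / (y + 1)) ^ (q ^ 2)) := by
    refine (Real.exp_le_exp.mpr hexp).trans ?_
    rw [Real.exp_add, Real.exp_add]
    exact mul_le_mul_of_nonneg_left h5 (by positivity)
  calc ∑ n ∈ B, (zr ^ q) n ^ 2 * (n : ℝ)⁻¹
      ≤ (1 / 2) ^ κ * ∑ n ∈ B, hq q 0 n ^ 2 * ∏ p ∈ T, Q11.w S p ^ n.factorization p := h2
    _ ≤ (1 / 2) ^ κ * (Real.exp (q ^ 2 * p0 + 4 * C0) * Real.exp (2 * q ^ 2 * VV S)
        * (D ^ (q ^ 2) * ((X + y + 1) / (y + 1)) ^ (q ^ 2))) :=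
        mul_le_mul_of_nonneg_left (h1.trans hfin) (by positivity)
    _ = _ := by ring

end Pool.Agent.Lib.MS
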