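import Mathlib
import Pool.Agent.Lib.MP_f9aece_nt_ms.Coeffs

/-!
Mesoscopic moments of zeta, module Q12.

|af (f^q) n| <= a^q (zr^q) n (abs_pow_le with F = a zr, smul), support of f^q: Smo (closed under products) and log n <= q X; En_af; (q X + y + 1)/(y + 1) <= q (X + y + 1)/(y + 1). (about 80 lines)
-/

set_option autoImplicit false

namespace Pool.Agent.Lib.MS

open MeasureTheory Set Filter Topology Complex
open scoped ComplexConjugate
open scoped ArithmeticFunction.Omega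
open Pool.Agent.Lib.MP_f9aece_nt (DP pair BK K1 ev PP VV Smo expo EE)
open Pool.Agent.Lib.MP_f9aece_nt_h40 (ind)
open Pool.Agent.Lib.MP_f9aece_nt_h85 (rz Rst)
open Pool.Agent.Lib.J4 (Sg Yg Jok Vs En V2 SU)
open Pool.Agent.Lib.N4 (OmS)

private lemma q12_smo_mul {A : Set ℕ} {m n : ℕ} (hm : m ∈ Smo A) (hn : n ∈ Smo A) :
    m * n ∈ Smo A := by
  refine ⟨mul_ne_zero hm.1 hn.1, fun p hp hd => ?_⟩
  rcases (Nat.Prime.dvd_mul hp).mp hd with h | h
  · exact hm.2 p hp h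
  · exact hn.2 p hp h

private lemma q12_one {A : Set ℕ} : 1 ∈ Smo A :=
  ⟨one_ne_zero, fun _ hp hd => absurd (Nat.dvd_one.mp hd) hp.one_lt.ne'⟩

private lemma q12_supp {A : Set ℕ} {X : ℝ} {f : DP}
    (hf : ∀ n, f.coeff n ≠ 0 → n ∈ Smo A ∧ Real.log n ≤ X) (k : ℕ) :
    ∀ n, (f ^ k).coeff n ≠ 0 → n ∈ Smo A ∧ Real.log n ≤ k * X := by
  induction k with
  | zero =>
    intro n hn
    have h1 : n = 1 := by
      by_contra h
      apply hn
      rw [pow_zero, MonoidAlgebra.one_def, MonoidAlgebra.coeff_single, Finsupp.single_apply,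
        if_neg (fun h' => h h'.symm)]
    subst h1
    exact ⟨q12_one, by simp⟩
  | succ k ih =>
    intro n hn
    rw [pow_succ] at hn
    have h1 := MonoidAlgebra.support_coeff_mul_subset (f ^ k) f (Finsupp.mem_support_iff.mpr hn)
    obtain ⟨a, ha, b, hb, rfl⟩ := Finset.mem_mul.mp h1
    obtain ⟨h2, h3⟩ := ih a (Finsupp.mem_support_iff.mp ha)
    obtain ⟨h4, h5⟩ := hf b (Finsupp.mem_support_iff.mp hb)
    refine ⟨q12_smo_mul h2 h4, ?_⟩
    have h6 : (a : ℝ) ≠ 0 := by exact_mod_cast h2.1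
    have h7 : (b : ℝ) ≠ 0 := by exact_mod_cast h4.1
    push_cast
    rw [Real.log_mul h6 h7]
    linarith

private lemma q12_coeff {f : DP} {a : ℝ} (hf : ∀ n, |f.coeff n| ≤ a) (k n : ℕ) :
    |(af f ^ k) n| ≤ a ^ k * (zr ^ k) n := by
  have h0 : ∀ n, |af f n| ≤ a * zr n := by
    intro n
    rcases eq_or_ne n 0 with h | h
    · subst h; simp
    · rw [af_apply _ h, zr_apply h, mul_one]
      exact hf n
  induction k generalizing n with
  | zero =>
    rw [pow_zero, pow_zero, pow_zero, ArithmeticFunction.one_apply]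
    split_ifs <;> simp
  | succ k ih =>
    rw [pow_succ, pow_succ, pow_succ, ArithmeticFunction.mul_apply, ArithmeticFunction.mul_apply,
      Finset.mul_sum]
    refine (Finset.abs_sum_le_sum_abs _ _).trans (Finset.sum_le_sum fun p _ => ?_)
    rw [abs_mul]
    calc |(af f ^ k) p.1| * |af f p.2| ≤ (a ^ k * (zr ^ k) p.1) * (a * zr p.2) :=
          mul_le_mul (ih p.1) (h0 p.2) (abs_nonneg _) ((abs_nonneg _).trans (ih p.1))
      _ = a ^ k * a * ((zr ^ k) p.1 * zr p.2) := by ring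

theorem roughEn (h : RoughQ) : RoughEn := by
  intro q p0 hq hp0
  obtain ⟨C, hC, hmain⟩ := h q p0 hp0
  refine ⟨C * (q : ℝ) ^ (q ^ 2), ?_, ?_⟩
  · have h1 : (1 : ℝ) ≤ (q : ℝ) ^ (q ^ 2) := one_le_pow₀ (by exact_mod_cast hq)
    nlinarith
  intro y X a hy hX ha f hf
  have hq1 : (1 : ℝ) ≤ q := by exact_mod_cast hq
  have hsupp := q12_supp (A := Rst p0 y) (X := X) (f := f) (fun n hn => (hf n).2 hn) q
  have hcf := q12_coeff (f := f) (fun n => (hf n).1) q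
  have hpos : ∀ n, (f ^ q).coeff n ≠ 0 → 1 ≤ n := fun n hn =>
    Nat.one_le_iff_ne_zero.mpr (hsupp n hn).1.1
  rw [En_af hpos, af_pow]
  have h1 : ∑ n ∈ (f ^ q).coeff.support, (af f ^ q) n ^ 2 * (n : ℝ)⁻¹
      ≤ ∑ n ∈ (f ^ q).coeff.support, a ^ (2 * q) * ((zr ^ q) n ^ 2 * (n : ℝ)⁻¹) := by
    refine Finset.sum_le_sum fun n _ => ?_
    have h2 : (af f ^ q) n ^ 2 ≤ (a ^ q * (zr ^ q) n) ^ 2 := by
      rw [← sq_abs]
      exact pow_le_pow_left₀ (abs_nonneg _) (hcf n) 2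
    calc (af f ^ q) n ^ 2 * (n : ℝ)⁻¹ ≤ (a ^ q * (zr ^ q) n) ^ 2 * (n : ℝ)⁻¹ :=
          mul_le_mul_of_nonneg_right h2 (by positivity)
      _ = a ^ (2 * q) * ((zr ^ q) n ^ 2 * (n : ℝ)⁻¹) := by rw [mul_comm 2 q, pow_mul]; ring
  rw [← Finset.mul_sum] at h1
  have h3 := hmain y (q * X) hy (by positivity) (f ^ q).coeff.support (fun n hn =>
    hsupp n (Finsupp.mem_support_iff.mp hn))
  have hy1 : 0 < y + 1 := by linarith
  have h4 : (q * X + y + 1) / (y + 1) ≤ q * ((X + y + 1) / (y + 1)) := by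
    rw [← mul_div_assoc]
    exact div_le_div_of_nonneg_right (by nlinarith) hy1.le
  have h5 : ((q * X + y + 1) / (y + 1)) ^ (q ^ 2) ≤ (q * ((X + y + 1) / (y + 1))) ^ (q ^ 2) :=
    pow_le_pow_left₀ (by positivity) h4 _
  have hC0 : 0 ≤ C := by linarith
  calc ∑ n ∈ (f ^ q).coeff.support, (af f ^ q) n ^ 2 * (n : ℝ)⁻¹
      ≤ a ^ (2 * q) * ∑ n ∈ (f ^ q).coeff.support, ((zr ^ q) n ^ 2 * (n : ℝ)⁻¹) := h1
    _ ≤ a ^ (2 * q) * (C * (q * ((X + y + 1) / (y + 1))) ^ (q ^ 2)) :=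
        mul_le_mul_of_nonneg_left (h3.trans (mul_le_mul_of_nonneg_left h5 hC0)) (by positivity)
    _ = C * (q : ℝ) ^ (q ^ 2) * a ^ (2 * q) * ((X + y + 1) / (y + 1)) ^ (q ^ 2) := by
        rw [mul_pow]; ring

end Pool.Agent.Lib.MS
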