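import Mathlib
import Pool.Agent.Lib.MP_f9aece_nt_ms.Coeffs

/-!
Mesoscopic moments of zeta, module Q13.

For OmS S n <= kappa all factors of n have OmS <= kappa, so |af (f^q) n| <= a^q (zr^q) n (pow_agree / monotonicity on the divisors of n), otherwise <= b^q (zr^q) n. Split the sum of En_af. Use RoughQ for y and OmQ. (about 130 lines)
-/

set_option autoImplicit false

namespace Pool.Agent.Lib.MS

open MeasureTheory Set Filter Topology Complex
open scoped ComplexConjugate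
open scoped ArithmeticFunction.Omega
open Pool.Agent.Lib.MP_f9aece_nt (DP pair BK K1 ev PP VV Smo expo EE)
open Pool.Agent.Lib.MP_f9aece_nt_h40 (ind)
open Pool.Agent.Lib.MP_f9aece_nt_h85 (rz Rst)
open Pool.Agent.Lib.J4 (Sg Yg Jok Vs En V2 SU)
open Pool.Agent.Lib.N4 (OmS)

private lemma q13_mul_ne {f g : DP} {n : ℕ} (h : (f * g).coeff n ≠ 0) :
    ∃ a b, f.coeff a ≠ 0 ∧ g.coeff b ≠ 0 ∧ a * b = n := by
  classical
  have h1 := MonoidAlgebra.support_coeff_mul_subset f g (Finsupp.mem_support_iff.mpr h)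
  obtain ⟨a, ha, b, hb, hab⟩ := Finset.mem_mul.mp h1
  exact ⟨a, b, Finsupp.mem_support_iff.mp ha, Finsupp.mem_support_iff.mp hb, hab⟩

private lemma q13_pow_supp {T : Set ℕ} {X : ℝ} {f : DP}
    (hf : ∀ n, f.coeff n ≠ 0 → n ∈ Smo T ∧ Real.log n ≤ X) (k : ℕ) :
    ∀ n, (f ^ k).coeff n ≠ 0 → n ∈ Smo T ∧ Real.log n ≤ k * X := by
  induction k with
  | zero =>
    intro n hn
    rw [pow_zero, MonoidAlgebra.one_def, MonoidAlgebra.coeff_single, Finsupp.single_apply] at hn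
    have h1 : n = 1 := by
      by_contra h
      exact hn (if_neg fun h' => h h'.symm)
    subst h1
    refine ⟨⟨one_ne_zero, fun p hp hd => ?_⟩, by simp⟩
    exact absurd (Nat.dvd_one.mp hd) hp.ne_one
  | succ k ih =>
    intro n hn
    rw [pow_succ] at hn
    obtain ⟨a, b, ha, hb, rfl⟩ := q13_mul_ne hn
    obtain ⟨h1, h2⟩ := ih a ha
    obtain ⟨h3, h4⟩ := hf b hb
    refine ⟨⟨mul_ne_zero h1.1 h3.1, fun p hp hd => ?_⟩, ?_⟩
    · rcases (hp.dvd_mul).mp hd with h | h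
      · exact h1.2 p hp h
      · exact h3.2 p hp h
    · push_cast
      rw [Real.log_mul (by exact_mod_cast h1.1) (by exact_mod_cast h3.1)]
      linarith

private lemma q13_abs_pow_le {f : ArithmeticFunction ℝ} {a : ℝ} (ha : 0 ≤ a) {n : ℕ}
    (hf : ∀ d, d ∣ n → |f d| ≤ a * zr d) (k : ℕ) : |(f ^ k) n| ≤ a ^ k * (zr ^ k) n := by
  have h : ∀ k : ℕ, ∀ d, d ∣ n → |(f ^ k) d| ≤ a ^ k * (zr ^ k) d := by
    intro k
    induction k with
    | zero =>
      intro d _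
      rw [pow_zero, pow_zero, pow_zero, one_mul, ArithmeticFunction.one_apply]
      split_ifs <;> simp
    | succ k ih =>
      intro d hd
      rw [pow_succ, pow_succ zr, ArithmeticFunction.mul_apply, ArithmeticFunction.mul_apply,
        Finset.mul_sum]
      refine (Finset.abs_sum_le_sum_abs _ _).trans (Finset.sum_le_sum fun p hp => ?_)
      have h1 := (Nat.mem_divisorsAntidiagonal.mp hp).1
      have h2 : p.1 ∣ n := dvd_trans ⟨p.2, h1.symm⟩ hd
      have h3 : p.2 ∣ n := dvd_trans ⟨p.1, by rw [mul_comm]; exact h1.symm⟩ hd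
      rw [abs_mul]
      have h4 := ih p.1 h2
      have h5 := hf p.2 h3
      calc |(f ^ k) p.1| * |f p.2| ≤ (a ^ k * (zr ^ k) p.1) * (a * zr p.2) :=
            mul_le_mul h4 h5 (abs_nonneg _) ((abs_nonneg _).trans h4)
        _ = a ^ (k + 1) * ((zr ^ k) p.1 * zr p.2) := by ring
  exact h k n dvd_rfl

private lemma q13_OmS_dvd (S : Finset ℕ) {d n : ℕ} (hn : n ≠ 0) (h : d ∣ n) :
    OmS S d ≤ OmS S n := by
  unfold OmS
  exact Finset.sum_le_sum fun p _ => (Nat.factorization_le_iff_dvd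
    (fun h0 => hn (by rw [h0] at h; exact Nat.eq_zero_of_zero_dvd h)) hn).mpr h p

private lemma q13_ratio {q : ℕ} (hq : 1 ≤ q) {X y : ℝ} (hX : 0 ≤ X) (hy : 0 ≤ y) :
    ((q * X + y + 1) / (y + 1)) ^ (q ^ 2) ≤
      (q : ℝ) ^ (q ^ 2) * ((X + y + 1) / (y + 1)) ^ (q ^ 2) := by
  rw [← mul_pow]
  have hq' : (1 : ℝ) ≤ q := by exact_mod_cast hq
  apply pow_le_pow_left₀ (by positivity)
  rw [← mul_div_assoc]
  apply div_le_div_of_nonneg_right _ (by linarith)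
  nlinarith

private lemma q13_part {f : DP} {q : ℕ} {c : ℝ} (hc : 0 ≤ c) (B : Finset ℕ)
    (hB : ∀ n ∈ B, n ≠ 0 ∧ ∀ d, d ∣ n → |f.coeff d| ≤ c) :
    ∑ n ∈ B, af (f ^ q) n ^ 2 * (n : ℝ)⁻¹ ≤ c ^ (2 * q) * ∑ n ∈ B, (zr ^ q) n ^ 2 * (n : ℝ)⁻¹ := by
  rw [Finset.mul_sum]
  refine Finset.sum_le_sum fun n hn => ?_
  obtain ⟨h1, h2⟩ := hB n hn
  have h3 : |(af f ^ q) n| ≤ c ^ q * (zr ^ q) n := by
    apply q13_abs_pow_le hc
    intro d hd
    have hd0 : d ≠ 0 := fun h0 => h1 (by rw [h0] at hd; exact Nat.eq_zero_of_zero_dvd hd)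
    rw [af_apply _ hd0, zr_apply hd0, mul_one]
    exact h2 d hd
  rw [af_pow]
  have h4 : (af f ^ q) n ^ 2 ≤ (c ^ q * (zr ^ q) n) ^ 2 := by
    rw [← sq_abs]
    exact pow_le_pow_left₀ (abs_nonneg _) h3 2
  have h5 : (0 : ℝ) ≤ (n : ℝ)⁻¹ := by positivity
  calc (af f ^ q) n ^ 2 * (n : ℝ)⁻¹ ≤ (c ^ q * (zr ^ q) n) ^ 2 * (n : ℝ)⁻¹ :=
        mul_le_mul_of_nonneg_right h4 h5
    _ = c ^ (2 * q) * ((zr ^ q) n ^ 2 * (n : ℝ)⁻¹) := by ring

theorem winEn (h1 : RoughQ) (h2 : OmQ) : WinEn := by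
  intro q p0 hq hp0
  obtain ⟨C1, hC1, h1⟩ := h1 q p0 (by omega)
  obtain ⟨C2, hC2, h2⟩ := h2 q p0 hp0
  have hq' : (1 : ℝ) ≤ q := by exact_mod_cast hq
  have hD : (1 : ℝ) ≤ (q : ℝ) ^ (q ^ 2) := one_le_pow₀ hq'
  refine ⟨(C1 + C2) * (q : ℝ) ^ (q ^ 2), by nlinarith, ?_⟩
  intro y y' X a b hy' hyy hX ha hab S hS κ f hf
  have hb : 0 ≤ b := ha.trans hab
  have hy : 0 ≤ y := hy'.trans hyy
  have hsupp := q13_pow_supp (fun n => (hf n).2.2) q
  rw [En_af (f := f ^ q) fun n hn => Nat.one_le_iff_ne_zero.mpr (hsupp n hn).1.1]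
  rw [← Finset.sum_filter_add_sum_filter_not _ (fun n => OmS S n ≤ κ)]
  have hqX : (0 : ℝ) ≤ q * X := by positivity
  have hA := q13_part (f := f) (q := q) ha ((f ^ q).coeff.support.filter (fun n => OmS S n ≤ κ))
    (by
      intro n hn
      rw [Finset.mem_filter, Finsupp.mem_support_iff] at hn
      have hn0 := (hsupp n hn.1).1.1
      exact ⟨hn0, fun d hd => (hf d).2.1 ((q13_OmS_dvd S hn0 hd).trans hn.2)⟩)
  have hB := q13_part (f := f) (q := q) hb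
    ((f ^ q).coeff.support.filter (fun n => ¬ OmS S n ≤ κ))
    (by
      intro n hn
      rw [Finset.mem_filter, Finsupp.mem_support_iff] at hn
      have hn0 := (hsupp n hn.1).1.1
      exact ⟨hn0, fun d _ => (hf d).1⟩)
  have hA2 := h1 y' (q * X) hy' hqX ((f ^ q).coeff.support.filter (fun n => OmS S n ≤ κ))
    (by
      intro n hn
      rw [Finset.mem_filter, Finsupp.mem_support_iff] at hn
      exact hsupp n hn.1)
  have hB2 := h2 y y' (q * X) hy' hyy hqX S hS κ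
    ((f ^ q).coeff.support.filter (fun n => ¬ OmS S n ≤ κ))
    (by
      intro n hn
      rw [Finset.mem_filter, Finsupp.mem_support_iff] at hn
      exact ⟨(hsupp n hn.1).1, (hsupp n hn.1).2, not_le.mp hn.2⟩)
  have hr1 := q13_ratio hq hX hy'
  have hr2 := q13_ratio hq hX hy
  set D := (q : ℝ) ^ (q ^ 2) with hDdef
  set R1 := ((X + y' + 1) / (y' + 1)) ^ (q ^ 2) with hR1
  set R2 := ((X + y + 1) / (y + 1)) ^ (q ^ 2) with hR2
  have hR1' : 0 ≤ R1 := by positivity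
  have hR2' : 0 ≤ R2 := by positivity
  set G := (1 / 2 : ℝ) ^ κ * Real.exp (2 * q ^ 2 * VV S) with hG
  have hG' : 0 ≤ G := by positivity
  have ha2 : 0 ≤ a ^ (2 * q) := by positivity
  have hb2 : 0 ≤ b ^ (2 * q) := by positivity
  have e1 : a ^ (2 * q) * (C1 * ((q * X + y' + 1) / (y' + 1)) ^ (q ^ 2)) ≤
      C1 * D * (a ^ (2 * q) * R1) := by
    have := mul_le_mul_of_nonneg_left hr1 (mul_nonneg ha2 (by linarith : (0 : ℝ) ≤ C1))
    nlinarith
  have e2 : b ^ (2 * q) * (C2 * (G * ((q * X + y + 1) / (y + 1)) ^ (q ^ 2))) ≤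
      C2 * D * (b ^ (2 * q) * (G * R2)) := by
    have := mul_le_mul_of_nonneg_left hr2 (mul_nonneg (mul_nonneg hb2 hG')
      (by linarith : (0 : ℝ) ≤ C2))
    nlinarith
  have e3 : 0 ≤ a ^ (2 * q) * R1 := mul_nonneg ha2 hR1'
  have e4 : 0 ≤ b ^ (2 * q) * (G * R2) := mul_nonneg hb2 (mul_nonneg hG' hR2')
  have e5 := mul_le_mul_of_nonneg_left hA2 ha2
  have e6 := mul_le_mul_of_nonneg_left hB2 hb2
  have e7 : 0 ≤ C2 * D * (a ^ (2 * q) * R1) := by positivity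
  have e8 : 0 ≤ C1 * D * (b ^ (2 * q) * (G * R2)) := by positivity
  calc _ ≤ C1 * D * (a ^ (2 * q) * R1) + C2 * D * (b ^ (2 * q) * (G * R2)) :=
        add_le_add (hA.trans (e5.trans e1)) (hB.trans (e6.trans e2))
    _ ≤ (C1 + C2) * D * (a ^ (2 * q) * R1 + b ^ (2 * q) * (G * R2)) := by nlinarith

end Pool.Agent.Lib.MS
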