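import Mathlib
import Pool.Agent.Lib.MP_f9aece_nt_ms.Coeffs
import Pool.Agent.Lib.MP_f9aece_nt_n4.A1

/-!
Mesoscopic moments of zeta, module Q14: telescoping.
-/

set_option autoImplicit false

namespace Pool.Agent.Lib.MS

open MeasureTheory Set Filter Topology Complex
open scoped ComplexConjugate
open scoped ArithmeticFunction.Omega
open Pool.Agent.Lib.MP_f9aece_nt (DP pair BK K1 ev PP VV Smo expo EE)
open Pool.Agent.Lib.MP_f9aece_nt_h40 (ind)
open Pool.Agent.Lib.MP_f9aece_nt_h85 (rz Rst)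
open Pool.Agent.Lib.J4 (Sg Yg Jok Vs En V2 SU)
open Pool.Agent.Lib.N4 (OmS)

namespace Q14I

lemma RW_eq_TZ (u : ℝ → ℝ) {p0 : ℕ} (hp0 : 1 ≤ p0) {y : ℝ} (hy : y ≤ Real.log p0) (L : ℝ) :
    RW u p0 y L = TZ u L := by
  classical
  have hp : (0 : ℝ) < p0 := by exact_mod_cast hp0
  have h1 : ⌊Real.exp y⌋₊ ≤ p0 := by
    have h2 : Real.exp y ≤ p0 := by
      calc Real.exp y ≤ Real.exp (Real.log p0) := Real.exp_le_exp.2 hy
        _ = p0 := Real.exp_log hp
    calc ⌊Real.exp y⌋₊ ≤ ⌊(p0 : ℝ)⌋₊ := Nat.floor_mono h2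
      _ = p0 := Nat.floor_natCast p0
  unfold RW TZ
  refine Finset.sum_congr ?_ fun _ _ => rfl
  rw [Finset.filter_eq_self]
  intro n hn
  refine ⟨Nat.one_le_iff_ne_zero.1 (Finset.mem_Icc.mp hn).1, ?_⟩
  intro p _ _ hp2
  exact absurd (lt_of_lt_of_le hp2.1 (hp2.2.trans h1)) (lt_irrefl _)

lemma EI_succ (A : Par) {i : ℕ} (h : i < A.J) :
    A.EI i = ind (A.κ i) (A.S i) * A.EI (i + 1) := by
  unfold Par.EI
  exact Finset.prod_eq_prod_Ico_succ_bot h _

lemma EI_J (A : Par) : A.EI A.J = 1 := by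
  unfold Par.EI
  rw [Finset.Ico_self, Finset.prod_empty]

lemma y_zero (A : Par) : A.y 0 = A.Y := by
  unfold Par.y Yg
  simp

end Q14I

open Q14I

theorem telescope : Telescope := by
  intro A hA u L _
  set T : ℕ → DP := fun i => RW u A.p0 (A.y i) L * A.EI i with hT
  have hstep : ∀ i ∈ Finset.range A.J, A.QW u L i * A.EI (i + 1) = T (i + 1) - T i := by
    intro i hi
    simp only [hT]
    rw [EI_succ A (Finset.mem_range.1 hi), Par.QW, sub_mul, mul_assoc]
  rw [Finset.sum_congr rfl hstep, Finset.sum_range_sub]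
  have h0 : T 0 = RW u A.p0 A.Y L * A.EI 0 := by
    simp only [hT]
    rw [y_zero]
  have hTJ : T A.J = TZ u L := by
    simp only [hT]
    rw [EI_J, mul_one]
    exact RW_eq_TZ u (by have := hA.hp; omega) hA.hJ.1 L
  rw [h0, hTJ]
  abel

end Pool.Agent.Lib.MS
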