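import Mathlib
import Pool.Agent.Lib.MP_f9aece_nt_ms.Coeffs
import Pool.Agent.Lib.MP_f9aece_nt_n4.A2

/-!
Mesoscopic moments of zeta, module Q15.

As N4 A2.lean: for n = a r, a over the primes of the group i, r in Smo (Rst p0 (y i)), the coefficient is u(log n/L) - [Omega a <= kap] u(log r/L), with u = 0 on [1, oo); log n - log r = log a <= kap y_i. Other n: coefficient 0. (about 200 lines)
-/

set_option autoImplicit false

namespace Pool.Agent.Lib.MS

open MeasureTheory Set Filter Topology Complex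
open scoped ComplexConjugate
open scoped ArithmeticFunction.Omega
open Pool.Agent.Lib.MP_f9aece_nt (DP pair BK K1 ev PP VV Smo expo EE)
open Pool.Agent.Lib.MP_f9aece_nt_h40 (ind)
open Pool.Agent.Lib.MP_f9aece_nt_h85 (rz Rst)
open Pool.Agent.Lib.J4 (Sg Yg Jok Vs En V2 SU)
open Pool.Agent.Lib.N4 (OmS)

private lemma Q15_coeff_sum (T : Finset ℕ) (f : ℕ → ℝ) (n : ℕ) :
    (∑ a ∈ T, MonoidAlgebra.single a (f a) : DP).coeff n = if n ∈ T then f n else 0 := by
  classical
  rw [MP_f9aece_nt_h97.coeff_eq_pair, MP_f9aece_nt.pair_sum]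
  simp only [MP_f9aece_nt.pair_single, mul_ite, mul_one, mul_zero, Finset.sum_ite_eq']

private lemma Q15_prod (S T : Finset ℕ) (f : ℕ → ℝ) :
    ((∑ a ∈ S, MonoidAlgebra.single a (f a)) * ∑ b ∈ T, MonoidAlgebra.single b (1 : ℝ) : DP) =
      ∑ x ∈ S ×ˢ T, MonoidAlgebra.single (x.1 * x.2) (f x.1) := by
  rw [Finset.sum_mul_sum, Finset.sum_product]
  refine Finset.sum_congr rfl fun a _ => Finset.sum_congr rfl fun b _ => ?_
  rw [MonoidAlgebra.single_mul_single, mul_one]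

private lemma Q15_prod_eq (S T : Finset ℕ) (f : ℕ → ℝ)
    (h : ∀ a ∈ S, ∀ b ∈ T, ∀ a' ∈ S, ∀ b' ∈ T, a * b = a' * b' → a = a' ∧ b = b') {a b : ℕ}
    (ha : a ∈ S) (hb : b ∈ T) :
    ((∑ a ∈ S, MonoidAlgebra.single a (f a)) *
      ∑ b ∈ T, MonoidAlgebra.single b (1 : ℝ) : DP).coeff (a * b) = f a := by
  classical
  rw [Q15_prod, MP_f9aece_nt_h97.coeff_eq_pair, MP_f9aece_nt.pair_sum]
  simp only [MP_f9aece_nt.pair_single]
  rw [Finset.sum_eq_single (a, b)]
  · simp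
  · rintro ⟨a', b'⟩ hx hne
    rw [Finset.mem_product] at hx
    rw [if_neg, mul_zero]
    intro h3
    have h4 := h a ha b hb a' hx.1 b' hx.2 h3.symm
    exact hne (Prod.ext h4.1.symm h4.2.symm)
  · intro h3
    exact absurd (Finset.mem_product.2 ⟨ha, hb⟩) h3

private lemma Q15_prod_zero (S T : Finset ℕ) (f : ℕ → ℝ) {n : ℕ}
    (h : ∀ a ∈ S, ∀ b ∈ T, a * b ≠ n) :
    ((∑ a ∈ S, MonoidAlgebra.single a (f a)) *
      ∑ b ∈ T, MonoidAlgebra.single b (1 : ℝ) : DP).coeff n = 0 := by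
  classical
  rw [Q15_prod, MP_f9aece_nt_h97.coeff_eq_pair, MP_f9aece_nt.pair_sum]
  simp only [MP_f9aece_nt.pair_single]
  apply Finset.sum_eq_zero
  rintro ⟨a, b⟩ hx
  rw [Finset.mem_product] at hx
  rw [if_neg (h a hx.1 b hx.2), mul_zero]

open Classical in
/-- the index set of `RW` -/
private noncomputable def Q15_set (p0 : ℕ) (y L : ℝ) : Finset ℕ :=
  (Finset.Icc 1 ⌊Real.exp L⌋₊).filter (fun n => n ∈ Smo (Rst p0 y))

private lemma Q15_mem {p0 : ℕ} {y L : ℝ} {n : ℕ} :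
    n ∈ Q15_set p0 y L ↔ n ∈ Smo (Rst p0 y) ∧ Real.log n ≤ L := by
  classical
  unfold Q15_set
  rw [Finset.mem_filter, Finset.mem_Icc]
  constructor
  · rintro ⟨⟨h1, h2⟩, h3⟩
    exact ⟨h3, (N4.le_floor_iff' (by omega) _).1 h2⟩
  · rintro ⟨h1, h2⟩
    have h3 : 0 < n := Nat.pos_of_ne_zero h1.1
    exact ⟨⟨h3, (N4.le_floor_iff' h3 _).2 h2⟩, h1⟩

private lemma Q15_RW (u : ℝ → ℝ) (p0 : ℕ) (y L : ℝ) :
    RW u p0 y L = ∑ n ∈ Q15_set p0 y L, MonoidAlgebra.single n (u (Real.log n / L)) := rfl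

/-- coefficients of `RW` on the rough numbers -/
private lemma Q15_coeff_RW {B Lam : ℝ} {u : ℝ → ℝ} (hu : Cut B Lam u) {p0 : ℕ} {y L : ℝ}
    (hL : 0 < L) {n : ℕ} (hn : n ∈ Smo (Rst p0 y)) :
    (RW u p0 y L).coeff n = u (Real.log n / L) := by
  rw [Q15_RW, Q15_coeff_sum]
  split_ifs with h
  · rfl
  · rw [Q15_mem] at h
    symm
    apply hu.zero
    rw [one_le_div hL]
    by_contra h2
    exact h ⟨hn, (not_le.1 h2).le⟩

theorem qCoeff : QCoeff := by
  classical
  intro A hA B Lam u hu L hL hκ i hi n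
  obtain ⟨q, v, p0, J, Y⟩ := A
  have hY : 0 < Y := hA.hY
  have hB0 : 0 ≤ B := (abs_nonneg _).trans (hu.bd 0)
  have hLam : 0 ≤ Lam := by
    have h1 := hu.lip 0 1
    have h2 : |(0 : ℝ) - 1| = 1 := by norm_num
    rw [h2, mul_one] at h1
    exact (abs_nonneg _).trans h1
  set κ := Par.κ ⟨q, v, p0, J, Y⟩ i with hκd
  have hSd : Par.S ⟨q, v, p0, J, Y⟩ i = Sg v p0 Y i := rfl
  have hyd : ∀ g, Par.y ⟨q, v, p0, J, Y⟩ g = Yg v Y g := fun _ => rfl
  have hκL : (κ : ℝ) * Yg v Y i ≤ L := hκ i hi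
  have hy0 := N4.Yg_pos' (v := v) hY i
  rw [hSd]
  simp only [hyd]
  have hdisj : ∀ p, p.Prime → p ∈ Rst p0 (Yg v Y i) → p ∉ (Sg v p0 Y i : Set ℕ) := by
    intro p _ hp hp2
    exact N4.Sg_disj_Rst hY (Finset.mem_coe.1 hp2) hp
  set T := Q15_set p0 (Yg v Y i) L with hT
  set D := MP_f9aece_nt_h40.indS κ (Sg v p0 Y i) with hD
  have hD' : ∀ b, b ∈ D ↔ b ∈ Smo (Sg v p0 Y i : Set ℕ) ∧ Ω b ≤ κ := fun b =>
    MP_f9aece_nt_h40.mem_indS N4.Sg_prime
  have huniq : ∀ a ∈ T, ∀ b ∈ D, ∀ a' ∈ T, ∀ b' ∈ D, a * b = a' * b' → a = a' ∧ b = b' := by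
    intro a ha b hb a' ha' b' hb' hab
    rw [hT, Q15_mem] at ha ha'
    rw [hD'] at hb hb'
    exact N4.factor_unique hdisj ha.1 hb.1 ha'.1 hb'.1 hab
  have hlogb : ∀ b ∈ D, Real.log b ≤ κ * Yg v Y i := by
    intro b hb
    rw [hD'] at hb
    refine MP_f9aece_nt.log_le_of_Omega (I := (Sg v p0 Y i : Set ℕ)) ?_ hy0.le hb.1 hb.2
    intro p hp
    exact ((N4.mem_Sg hY).1 (Finset.mem_coe.1 hp)).2.2.2
  -- the product polynomial
  set G : DP := RW u p0 (Yg v Y i) L * ind κ (Sg v p0 Y i) with hG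
  have hG' : G = (∑ a ∈ T, MonoidAlgebra.single a (u (Real.log a / L))) *
      ∑ b ∈ D, MonoidAlgebra.single b (1 : ℝ) := rfl
  have hQ : (Par.QW ⟨q, v, p0, J, Y⟩ u L i).coeff n
      = (RW u p0 (Yg v Y (i + 1)) L).coeff n - G.coeff n := by
    unfold Par.QW
    rw [MonoidAlgebra.coeff_sub, Finsupp.sub_apply]
    rfl
  rw [hQ]
  -- bounds of the two coefficients
  have hR1 : |(RW u p0 (Yg v Y (i + 1)) L).coeff n| ≤ B := by
    rw [Q15_RW, Q15_coeff_sum]
    split_ifs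
    · exact hu.bd _
    · rwa [abs_zero]
  have hG0 : G.coeff n ≠ 0 → ∃ a ∈ T, ∃ b ∈ D, a * b = n := by
    intro h
    by_contra h2
    push Not at h2
    apply h
    rw [hG']
    exact Q15_prod_zero T D _ h2
  have hG1 : |G.coeff n| ≤ B := by
    by_cases h : G.coeff n = 0
    · rw [h, abs_zero]
      exact hB0
    · obtain ⟨a, ha, b, hb, rfl⟩ := hG0 h
      rw [hG', Q15_prod_eq T D _ huniq ha hb]
      exact hu.bd _
  have hsupp : ∀ a ∈ T, ∀ b ∈ D, a * b ∈ Smo (Rst p0 (Yg v Y (i + 1))) ∧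
      Real.log ((a * b : ℕ) : ℝ) ≤ 2 * L := by
    intro a ha b hb
    have hlb := hlogb b hb
    rw [hT, Q15_mem] at ha
    rw [hD'] at hb
    refine ⟨?_, ?_⟩
    · apply MP_f9aece_nt.mul_mem_Smo
      · exact MP_f9aece_nt.Smo_mono (N4.Rst_mono (N4.Yg_succ_le' hY i)) ha.1
      · refine MP_f9aece_nt.Smo_mono ?_ hb.1
        intro p hp
        exact N4.Sg_sub_Rst hY (Finset.mem_coe.1 hp)
    · have ha0 : (a : ℝ) ≠ 0 := by exact_mod_cast ha.1.1
      have hb0 : (b : ℝ) ≠ 0 := by exact_mod_cast hb.1.1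
      push_cast
      rw [Real.log_mul ha0 hb0]
      linarith [ha.2]
  refine ⟨?_, ?_, ?_⟩
  · calc |(RW u p0 (Yg v Y (i + 1)) L).coeff n - G.coeff n|
        ≤ |(RW u p0 (Yg v Y (i + 1)) L).coeff n| + |G.coeff n| := abs_sub _ _
      _ ≤ 2 * B := by linarith
  · intro hOm
    by_cases hn : n ∈ Smo (Rst p0 (Yg v Y (i + 1)))
    · rw [Q15_coeff_RW hu hL hn]
      have hn0 : n ≠ 0 := hn.1
      obtain ⟨x, hx1, hx2, hx3⟩ := MP_f9aece_nt_h85.exists_factor (Sg v p0 Y i : Set ℕ) hn0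
      have hd1 : x.1 ∣ n := Dvd.intro _ hx3
      have hd2 : x.2 ∣ n := Dvd.intro_left _ hx3
      have hx1R : x.1 ∈ Smo (Rst p0 (Yg v Y i)) := by
        refine ⟨hx1.1, ?_⟩
        intro p hp hpd
        refine N4.Rst_or hY hp (hn.2 p hp (hpd.trans hd1)) ?_
        intro hpS
        exact hx1.2 p hp hpd (Finset.mem_coe.2 hpS)
      have hx2D : x.2 ∈ D := by
        rw [hD']
        refine ⟨hx2, le_trans ?_ hOm⟩
        rw [ArithmeticFunction.cardFactors_eq_sum_factorization]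
        unfold OmS
        rw [Finsupp.sum]
        have hsub : x.2.factorization.support ⊆ Sg v p0 Y i := by
          intro p hp
          rw [Nat.support_factorization] at hp
          exact Finset.mem_coe.1 (hx2.2 p (Nat.prime_of_mem_primeFactors hp)
            (Nat.dvd_of_mem_primeFactors hp))
        refine (Finset.sum_le_sum_of_subset hsub).trans ?_
        refine Finset.sum_le_sum fun p _ => ?_
        exact (Nat.factorization_le_iff_dvd hx2.1 hn0).2 hd2 p
      have hGn : G.coeff n = u (Real.log x.1 / L) := by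
        by_cases h : x.1 ∈ T
        · rw [← hx3, hG', Q15_prod_eq T D _ huniq h hx2D]
        · have h1 : G.coeff n = 0 := by
            by_contra h2
            obtain ⟨a, ha, b, hb, hab⟩ := hG0 h2
            have ha' := ha
            rw [hT, Q15_mem] at ha'
            have hb' := hb
            rw [hD'] at hb'
            have h3 := (N4.factor_unique hdisj ha'.1 hb'.1 hx1R hx2 (hab.trans hx3.symm)).1
            rw [h3] at ha
            exact h ha
          rw [h1]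
          symm
          apply hu.zero
          rw [one_le_div hL]
          by_contra h2
          exact h (by rw [hT, Q15_mem]; exact ⟨hx1R, (not_le.1 h2).le⟩)
      rw [hGn]
      refine (hu.lip _ _).trans (mul_le_mul_of_nonneg_left ?_ hLam)
      have hx10 : (x.1 : ℝ) ≠ 0 := by exact_mod_cast hx1.1
      have hx20 : (x.2 : ℝ) ≠ 0 := by exact_mod_cast hx2.1
      have hlog : Real.log n = Real.log x.1 + Real.log x.2 := by
        rw [← hx3]
        push_cast
        exact Real.log_mul hx10 hx20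
      have hl2 : 0 ≤ Real.log x.2 := Real.log_natCast_nonneg _
      rw [← sub_div, hlog, add_sub_cancel_left, abs_div, abs_of_pos hL, abs_of_nonneg hl2]
      exact div_le_div_of_nonneg_right (hlogb _ hx2D) hL.le
    · have h1 : (RW u p0 (Yg v Y (i + 1)) L).coeff n = 0 := by
        rw [Q15_RW, Q15_coeff_sum, if_neg]
        intro h
        rw [Q15_mem] at h
        exact hn h.1
      have h2 : G.coeff n = 0 := by
        by_contra h
        obtain ⟨a, ha, b, hb, rfl⟩ := hG0 h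
        exact hn (hsupp a ha b hb).1
      rw [h1, h2, sub_zero, abs_zero]
      positivity
  · intro hne
    by_cases h : G.coeff n = 0
    · rw [h, sub_zero, Q15_RW, Q15_coeff_sum] at hne
      have h2 : n ∈ Q15_set p0 (Yg v Y (i + 1)) L := by
        by_contra h3
        rw [if_neg h3] at hne
        exact hne rfl
      rw [Q15_mem] at h2
      exact ⟨h2.1, by linarith [h2.2]⟩
    · obtain ⟨a, ha, b, hb, rfl⟩ := hG0 h
      exact hsupp a ha b hb

end Pool.Agent.Lib.MS
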