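import Mathlib
import Pool.Agent.Lib.MP_f9aece_nt_ms.Coeffs
import Pool.Agent.Lib.MP_f9aece_nt_j4.GroupsH
import Pool.Agent.Lib.MP_f9aece_nt_n4.A2

/-!
Mesoscopic moments of zeta, module Q16.

WinEn with X = 2L, a = Lam kap_i y_i/L, b = 2B + Lam (kap_i y_i <= L for all i when v >= v0(q): 50000 q^2 v (i+1)^2 exp(-2v - v i(i+1)/2) <= 1), y = y_i, y' = y_(i+1) <= L, VV (A.S i) <= 2 v (i+1). (about 120 lines)
-/

set_option autoImplicit false

namespace Pool.Agent.Lib.MS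

open MeasureTheory Set Filter Topology Complex
open scoped ComplexConjugate
open scoped ArithmeticFunction.Omega
open Pool.Agent.Lib.MP_f9aece_nt (DP pair BK K1 ev PP VV Smo expo EE)
open Pool.Agent.Lib.MP_f9aece_nt_h40 (ind)
open Pool.Agent.Lib.MP_f9aece_nt_h85 (rz Rst)
open Pool.Agent.Lib.J4 (Sg Yg Jok Vs En V2 SU)
open Pool.Agent.Lib.N4 (OmS)

/-- the lengths of the indicators -/
private lemma Q16_kap {A : Par} (hA : A.Ok) {L : ℝ} (hL : 1 ≤ L)
    (hY : A.Y = L * Real.exp (-(2 * A.v))) (hv : 50000 * A.q ^ 2 ≤ A.v) (i : ℕ) :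
    (A.κ i : ℝ) * A.y i ≤ L := by
  have hv4 : (4 : ℝ) ≤ A.v := by exact_mod_cast hA.hv
  have hvR : 50000 * (A.q : ℝ) ^ 2 ≤ A.v := by exact_mod_cast hv
  have hi0 : (0 : ℝ) ≤ i := Nat.cast_nonneg i
  have hev : (A.v : ℝ) ≤ Real.exp A.v := by
    have := Real.add_one_le_exp (A.v : ℝ)
    linarith
  have e1 : (A.κ i : ℝ) * A.y i = L * ((50000 * (A.q : ℝ) ^ 2 * A.v * Real.exp (-(2 * A.v)))
      * (((i : ℝ) + 1) ^ 2 * Real.exp (-((A.v : ℝ) * i * (i + 1) / 2)))) := by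
    unfold Par.κ Par.y Par.r Yg
    rw [hY]
    push_cast
    ring
  have h1 : 50000 * (A.q : ℝ) ^ 2 * A.v * Real.exp (-(2 * A.v)) ≤ 1 := by
    rw [Real.exp_neg, ← div_eq_mul_inv, div_le_one (Real.exp_pos _)]
    have h2 : Real.exp (2 * A.v) = Real.exp A.v * Real.exp A.v := by
      rw [← Real.exp_add]
      ring_nf
    rw [h2]
    exact mul_le_mul (hvR.trans hev) hev (by positivity) (Real.exp_pos _).le
  have h2 : ((i : ℝ) + 1) ^ 2 * Real.exp (-((A.v : ℝ) * i * (i + 1) / 2)) ≤ 1 := by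
    rw [Real.exp_neg, ← div_eq_mul_inv, div_le_one (Real.exp_pos _)]
    have h3 : (i : ℝ) + 1 ≤ Real.exp i := Real.add_one_le_exp _
    calc ((i : ℝ) + 1) ^ 2 ≤ Real.exp i ^ 2 := by
          exact pow_le_pow_left₀ (by linarith) h3 2
      _ = Real.exp (2 * i) := by
          rw [← Real.exp_nat_mul]
          norm_num
      _ ≤ Real.exp ((A.v : ℝ) * i * (i + 1) / 2) := by
          apply Real.exp_le_exp.2
          nlinarith [mul_nonneg hi0 hi0, mul_nonneg hi0 (sub_nonneg.2 hv4),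
            mul_nonneg (mul_nonneg hi0 hi0) (sub_nonneg.2 hv4)]
  rw [e1]
  have h3 : (50000 * (A.q : ℝ) ^ 2 * A.v * Real.exp (-(2 * A.v)))
      * (((i : ℝ) + 1) ^ 2 * Real.exp (-((A.v : ℝ) * i * (i + 1) / 2))) ≤ 1 :=
    mul_le_one₀ h1 (by positivity) h2
  exact mul_le_of_le_one_right (by linarith) h3

theorem winQ (h1 : WinEn) (h2 : QCoeff) : WinQ := by
  intro q p0 hq hp0 B Lam
  obtain ⟨C0, hC0, hW⟩ := h1 q p0 hq hp0
  set D : ℝ := 2 * |B| + |Lam| + 1 with hD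
  have hD1 : 1 ≤ D := by
    have := abs_nonneg B
    have := abs_nonneg Lam
    linarith
  have hD0 : 0 ≤ D := by linarith
  refine ⟨C0 * D ^ (2 * q) * 4 ^ (q ^ 2), ?_, 50000 * q ^ 2, ?_⟩
  · have s1 : 1 ≤ D ^ (2 * q) := one_le_pow₀ hD1
    have s2 : (1 : ℝ) ≤ 4 ^ (q ^ 2) := one_le_pow₀ (by norm_num)
    exact one_le_mul_of_one_le_of_one_le (one_le_mul_of_one_le_of_one_le hC0 s1) s2
  intro A hAq hAp hAv hA L hY hL u hu i hi
  have hL0 : 0 < L := by linarith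
  have hB0 : 0 ≤ B := (abs_nonneg _).trans (hu.bd 0)
  have hLam : 0 ≤ Lam := by
    have h1 := hu.lip 0 1
    have h2 : |(0 : ℝ) - 1| = 1 := by norm_num
    rw [h2, mul_one] at h1
    exact (abs_nonneg _).trans h1
  have hY0 : 0 < A.Y := hA.hY
  have hkL : ∀ j < A.J, (A.κ j : ℝ) * A.y j ≤ L := fun j _ =>
    Q16_kap hA hL hY (by rw [hAq]; exact hAv) j
  have hco := h2 A hA B Lam u hu L hL0 hkL i hi
  have hy' : 0 < A.y (i + 1) := N4.Yg_pos' hY0 (i + 1)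
  have hyy : A.y (i + 1) ≤ A.y i := N4.Yg_succ_le' hY0 i
  have hyY : A.y i ≤ L := by
    have s1 : A.y i ≤ A.Y := N4.Yg_le' hY0 i
    have s2 : A.Y ≤ L := by
      rw [hY]
      exact mul_le_of_le_one_right hL0.le (Real.exp_le_one_iff.2 (by
        have : (0 : ℝ) ≤ A.v := Nat.cast_nonneg _
        linarith))
    exact s1.trans s2
  set t : ℝ := (A.κ i : ℝ) * A.y i / L with ht
  have ht0 : 0 ≤ t := div_nonneg (mul_nonneg (Nat.cast_nonneg _) (hy'.le.trans hyy)) hL0.le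
  have ht1 : t ≤ 1 := (div_le_one hL0).2 (hkL i hi)
  have ha0 : 0 ≤ Lam * t := mul_nonneg hLam ht0
  have hab : Lam * t ≤ 2 * B + Lam := by
    have := mul_le_of_le_one_right hLam ht1
    linarith
  have hLD : Lam ≤ D := by
    rw [hD]
    have := le_abs_self Lam
    have := abs_nonneg B
    linarith
  have hbD : 2 * B + Lam ≤ D := by
    rw [hD]
    have := le_abs_self Lam
    have := le_abs_self B
    linarith
  have hmem : ∀ p, p ∈ A.S i ↔ p.Prime ∧ p0 < p ∧ A.y (i + 1) < Real.log p ∧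
      Real.log p ≤ A.y i := by
    intro p
    rw [← hAp]
    exact N4.mem_Sg hY0
  have hE := hW (A.y i) (A.y (i + 1)) (2 * L) (Lam * t) (2 * B + Lam) hy'.le hyy (by linarith)
    ha0 hab (A.S i) hmem (A.κ i) (A.QW u L i) (fun n => by
      obtain ⟨c1, c2, c3⟩ := hco n
      refine ⟨c1.trans (by linarith), c2, ?_⟩
      rw [← hAp]
      exact c3)
  have hVV : VV (A.S i) ≤ 2 * ((A.v : ℝ) * (i + 1)) := by
    have s1 := MP_f9aece_nt_h6.VV_Sg_le (p0 := A.p0) hY0 (v := (A.v : ℝ))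
      (by exact_mod_cast hA.hv) i
    have s2 : A.S i = MP_f9aece_nt_h6.Sg A.Y (A.v : ℝ) A.p0 i := J4.Sg_eq A.v A.p0 A.Y i
    rw [s2]
    refine s1.trans (le_of_eq ?_)
    unfold MP_f9aece_nt_h6.rg
    ring
  -- the two factors
  set R : ℝ := L / (A.y (i + 1) + 1) with hR
  have hR0 : 0 ≤ R := by positivity
  have r1 : (2 * L + A.y (i + 1) + 1) / (A.y (i + 1) + 1) ≤ 4 * R := by
    rw [hR, ← mul_div_assoc]
    exact div_le_div_of_nonneg_right (by linarith) (by linarith)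
  have r2 : (2 * L + A.y i + 1) / (A.y i + 1) ≤ 4 * R := by
    rw [hR, ← mul_div_assoc, div_le_div_iff₀ (by linarith) (by linarith)]
    have s1 : (2 * L + A.y i + 1) * (A.y (i + 1) + 1) ≤ (4 * L) * (A.y (i + 1) + 1) :=
      mul_le_mul_of_nonneg_right (by linarith) (by linarith)
    have s2 : (4 * L) * (A.y (i + 1) + 1) ≤ (4 * L) * (A.y i + 1) :=
      mul_le_mul_of_nonneg_left (by linarith) (by linarith)
    exact s1.trans s2
  have r3 : Real.exp (2 * q ^ 2 * VV (A.S i)) ≤ Real.exp (4 * q ^ 2 * A.v * (i + 1)) := by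
    apply Real.exp_le_exp.2
    have s1 : (0 : ℝ) ≤ 2 * (q : ℝ) ^ 2 := by positivity
    have s2 := mul_le_mul_of_nonneg_left hVV s1
    linarith
  have p1 : (Lam * t) ^ (2 * q) * ((2 * L + A.y (i + 1) + 1) / (A.y (i + 1) + 1)) ^ (q ^ 2)
      ≤ (D ^ (2 * q) * t ^ (2 * q)) * (4 * R) ^ (q ^ 2) := by
    rw [mul_pow]
    refine mul_le_mul ?_ (pow_le_pow_left₀ (by positivity) r1 _) (by positivity) (by positivity)
    exact mul_le_mul_of_nonneg_right (pow_le_pow_left₀ hLam hLD _) (by positivity)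
  have p2 : (2 * B + Lam) ^ (2 * q) * ((1 / 2) ^ A.κ i * Real.exp (2 * q ^ 2 * VV (A.S i))
      * ((2 * L + A.y i + 1) / (A.y i + 1)) ^ (q ^ 2))
      ≤ D ^ (2 * q) * ((1 / 2) ^ A.κ i * Real.exp (4 * q ^ 2 * A.v * (i + 1))
        * (4 * R) ^ (q ^ 2)) := by
    have hyi : 0 < A.y i := hy'.trans_le hyy
    refine mul_le_mul (pow_le_pow_left₀ (by linarith) hbD _) ?_ (by positivity) (by positivity)
    refine mul_le_mul ?_ (pow_le_pow_left₀ (by positivity) r2 _) (by positivity) (by positivity)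
    exact mul_le_mul_of_nonneg_left r3 (by positivity)
  refine hE.trans ?_
  calc C0 * ((Lam * t) ^ (2 * q) * ((2 * L + A.y (i + 1) + 1) / (A.y (i + 1) + 1)) ^ (q ^ 2)
        + (2 * B + Lam) ^ (2 * q) * ((1 / 2) ^ A.κ i * Real.exp (2 * q ^ 2 * VV (A.S i))
          * ((2 * L + A.y i + 1) / (A.y i + 1)) ^ (q ^ 2)))
      ≤ C0 * ((D ^ (2 * q) * t ^ (2 * q)) * (4 * R) ^ (q ^ 2)
        + D ^ (2 * q) * ((1 / 2) ^ A.κ i * Real.exp (4 * q ^ 2 * A.v * (i + 1))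
        * (4 * R) ^ (q ^ 2))) :=
        mul_le_mul_of_nonneg_left (add_le_add p1 p2) (by linarith)
    _ = C0 * D ^ (2 * q) * 4 ^ (q ^ 2) * (R ^ (q ^ 2)
        * (t ^ (2 * q) + (1 / 2) ^ A.κ i * Real.exp (4 * q ^ 2 * A.v * (i + 1)))) := by
      rw [mul_pow]
      ring

end Pool.Agent.Lib.MS
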