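import Mathlib
import Pool.Agent.Lib.MP_f9aece_nt_ms.Coeffs
import Pool.Agent.Lib.MP_f9aece_nt_j4.GroupsH
import Pool.Agent.Lib.MP_f9aece_nt_n4.A2
import Pool.Agent.Lib.MP_f9aece_nt_j4.EnNorm

/-!
Mesoscopic moments of zeta, module Q18.

Sum of the windows: (sum x_i)^(2k) <= 2^(2k) sum 2^(2k i) x_i^(2k) pointwise (both for 2k <= 1 and 2k >= 1; N4.powSum is the model), Level at i+1 for F = QW_i, N = e^(2L), X >= e^(C0 L) from 2 q L + ell(i+1); En(QW^q)^(k/q) exp(k^2 V) <= C (...)^(k/q) (y+1)^(k^2) (Mert), NumWin, geometric series, v^(2k) e^(-kv) -> 0. (about 250 lines)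
-/

set_option autoImplicit false

namespace Pool.Agent.Lib.MS

open MeasureTheory Set Filter Topology Complex
open scoped ComplexConjugate
open scoped ArithmeticFunction.Omega
open Pool.Agent.Lib.MP_f9aece_nt (DP pair BK K1 ev PP VV Smo expo EE)
open Pool.Agent.Lib.MP_f9aece_nt_h40 (ind)
open Pool.Agent.Lib.MP_f9aece_nt_h85 (rz Rst)
open Pool.Agent.Lib.J4 (Sg Yg Jok Vs En V2 SU)
open Pool.Agent.Lib.N4 (OmS)

private lemma Q18_add (p : ℝ) (hp : 0 < p) {a b : ℝ} (ha : 0 ≤ a) (hb : 0 ≤ b) :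
    (a + b) ^ p ≤ (2 : ℝ) ^ p * (a ^ p + b ^ p) := by
  have h2 : (0 : ℝ) ≤ 2 ^ p := Real.rpow_nonneg (by norm_num) _
  have h3 : 0 ≤ a ^ p := Real.rpow_nonneg ha _
  have h4 : 0 ≤ b ^ p := Real.rpow_nonneg hb _
  rcases le_total a b with h | h
  · calc (a + b) ^ p ≤ (2 * b) ^ p := Real.rpow_le_rpow (by linarith) (by linarith) hp.le
      _ = 2 ^ p * b ^ p := Real.mul_rpow (by norm_num) hb
      _ ≤ 2 ^ p * (a ^ p + b ^ p) := mul_le_mul_of_nonneg_left (by linarith) h2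
  · calc (a + b) ^ p ≤ (2 * a) ^ p := Real.rpow_le_rpow (by linarith) (by linarith) hp.le
      _ = 2 ^ p * a ^ p := Real.mul_rpow (by norm_num) ha
      _ ≤ 2 ^ p * (a ^ p + b ^ p) := mul_le_mul_of_nonneg_left (by linarith) h2

private lemma Q18_pow (p : ℝ) (hp : 0 < p) (n : ℕ) : ∀ (x : ℕ → ℝ), (∀ i, 0 ≤ x i) →
    (∑ i ∈ Finset.range n, x i) ^ p
      ≤ (2 : ℝ) ^ p * ∑ i ∈ Finset.range n, ((2 : ℝ) ^ p) ^ i * x i ^ p := by
  induction n with
  | zero =>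
    intro x _
    simp [Real.zero_rpow hp.ne']
  | succ n ih =>
    intro x hx
    have ih' := ih (fun i => x (i + 1)) fun i => hx (i + 1)
    rw [Finset.sum_range_succ', Finset.sum_range_succ']
    set S : ℝ := ∑ i ∈ Finset.range n, x (i + 1) with hS
    have hS0 : 0 ≤ S := Finset.sum_nonneg fun i _ => hx _
    have hD : (0 : ℝ) ≤ 2 ^ p := Real.rpow_nonneg (by norm_num) _
    refine (Q18_add p hp hS0 (hx 0)).trans (mul_le_mul_of_nonneg_left ?_ hD)
    have h1 : ((2 : ℝ) ^ p) ^ 0 * x 0 ^ p = x 0 ^ p := by rw [pow_zero, one_mul]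
    rw [h1]
    refine add_le_add (ih'.trans (le_of_eq ?_)) le_rfl
    rw [Finset.mul_sum]
    refine Finset.sum_congr rfl fun i _ => ?_
    rw [pow_succ]
    ring

private lemma Q18_norm (P : DP) (t : ℝ) : ‖ev t P‖ ≤ ∑ a ∈ P.coeff.support, |P.coeff a| := by
  rw [MP_f9aece_nt.ev_apply]
  refine (norm_sum_le _ _).trans (Finset.sum_le_sum fun a _ => ?_)
  rw [norm_mul, Complex.norm_real, Real.norm_eq_abs]
  refine mul_le_of_le_one_right (abs_nonneg _) ?_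
  rcases Nat.eq_zero_or_pos a with h | h
  · subst h
    rw [Nat.cast_zero, Complex.zero_cpow, norm_zero]
    · norm_num
    · intro h0
      have := congrArg Complex.re h0
      simp at this
  · rw [Complex.norm_natCast_cpow_of_pos h]
    have h1 : (1 : ℝ) ≤ a := by exact_mod_cast h
    refine Real.rpow_le_one_of_one_le_of_nonpos h1 ?_
    simp

private lemma Q18_int {ν : Measure ℝ} [IsProbabilityMeasure ν] (P : DP) {p : ℝ} (hp : 0 < p) :
    Integrable (fun t => ‖ev t P‖ ^ p) ν := by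
  have hc : Continuous fun t : ℝ => ‖ev t P‖ ^ p :=
    (MP_f9aece_nt.continuous_ev P).norm.rpow_const fun _ => Or.inr hp.le
  refine Integrable.of_bound hc.aestronglyMeasurable
    ((∑ a ∈ P.coeff.support, |P.coeff a|) ^ p) (Eventually.of_forall fun t => ?_)
  rw [Real.norm_eq_abs, abs_of_nonneg (Real.rpow_nonneg (norm_nonneg _) _)]
  exact Real.rpow_le_rpow (norm_nonneg _) (Q18_norm P t) hp.le

/-- the integral of the power of a sum of polynomials -/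
private lemma Q18_sum {ν : Measure ℝ} [IsProbabilityMeasure ν] {p : ℝ} (hp : 0 < p) (n : ℕ)
    (P : ℕ → DP) :
    ∫ t, ‖ev t (∑ i ∈ Finset.range n, P i)‖ ^ p ∂ν
      ≤ (2 : ℝ) ^ p * ∑ i ∈ Finset.range n, ((2 : ℝ) ^ p) ^ i * ∫ t, ‖ev t (P i)‖ ^ p ∂ν := by
  have hi : Integrable (fun t => (2 : ℝ) ^ p * ∑ i ∈ Finset.range n, ((2 : ℝ) ^ p) ^ i
      * ‖ev t (P i)‖ ^ p) ν :=
    (integrable_finsetSum _ fun i _ => (Q18_int (P i) hp).const_mul _).const_mul _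
  have h1 : ∫ t, ‖ev t (∑ i ∈ Finset.range n, P i)‖ ^ p ∂ν
      ≤ ∫ t, (2 : ℝ) ^ p * ∑ i ∈ Finset.range n, ((2 : ℝ) ^ p) ^ i * ‖ev t (P i)‖ ^ p ∂ν := by
    refine integral_mono (Q18_int _ hp) hi fun t => ?_
    dsimp only
    rw [map_sum]
    refine le_trans ?_ (Q18_pow p hp n (fun i => ‖ev t (P i)‖) fun i => norm_nonneg _)
    exact Real.rpow_le_rpow (norm_nonneg _) (norm_sum_le _ _) hp.le
  refine h1.trans (le_of_eq ?_)
  rw [integral_const_mul, integral_finsetSum _ fun i _ => (Q18_int (P i) hp).const_mul _]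
  congr 1
  refine Finset.sum_congr rfl fun i _ => ?_
  rw [integral_const_mul]

/-- lengths of the remaining groups -/
private lemma Q18_ell {A : Par} (hA : A.Ok) {L : ℝ} (hL : 1 ≤ L)
    (hY : A.Y = L * Real.exp (-(2 * A.v))) (i : ℕ) :
    A.ell (i + 1) ≤ 400000 * (A.q : ℝ) ^ 3 * A.v * L := by
  have hL0 : 0 < L := by linarith
  have hi0 : (0 : ℝ) ≤ i := Nat.cast_nonneg i
  have hv4 : (4 : ℝ) ≤ A.v := by exact_mod_cast hA.hv
  unfold Par.ell
  split_ifs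
  · have hYL : A.Y ≤ L := by
      rw [hY]
      exact mul_le_of_le_one_right hL0.le (Real.exp_le_one_iff.2 (by linarith))
    have h1 : (((i + 1 : ℕ) : ℝ) + 1) ^ 2 * A.y (i + 1) ≤ L := by
      unfold Par.y Yg
      have h3 : (i : ℝ) + 1 + 1 ≤ Real.exp (i + 1) := Real.add_one_le_exp _
      have h4 : (((i + 1 : ℕ) : ℝ) + 1) ^ 2
          * Real.exp (-((A.v : ℝ) * ((i + 1 : ℕ) : ℝ) * (((i + 1 : ℕ) : ℝ) + 1) / 2)) ≤ 1 := by
        rw [Real.exp_neg, ← div_eq_mul_inv, div_le_one (Real.exp_pos _)]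
        push_cast
        calc ((i : ℝ) + 1 + 1) ^ 2 ≤ Real.exp (i + 1) ^ 2 :=
              pow_le_pow_left₀ (by linarith) h3 2
          _ = Real.exp (2 * (i + 1)) := by
              rw [← Real.exp_nat_mul]
              norm_num
          _ ≤ Real.exp ((A.v : ℝ) * (i + 1) * (i + 1 + 1) / 2) := by
              apply Real.exp_le_exp.2
              have e1 : (4 : ℝ) * (i + 1) ≤ A.v * (i + 1) :=
                mul_le_mul_of_nonneg_right hv4 (by linarith)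
              have e2 : (A.v : ℝ) * (i + 1) * 1 ≤ A.v * (i + 1) * (i + 1 + 1) :=
                mul_le_mul_of_nonneg_left (by linarith) (by positivity)
              linarith
      calc (((i + 1 : ℕ) : ℝ) + 1) ^ 2 * (A.Y * Real.exp (-((A.v : ℝ) * ((i + 1 : ℕ) : ℝ)
            * (((i + 1 : ℕ) : ℝ) + 1) / 2)))
          = A.Y * ((((i + 1 : ℕ) : ℝ) + 1) ^ 2 * Real.exp (-((A.v : ℝ) * ((i + 1 : ℕ) : ℝ)
            * (((i + 1 : ℕ) : ℝ) + 1) / 2))) := by ring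
        _ ≤ A.Y * 1 := mul_le_mul_of_nonneg_left h4 hA.hY.le
        _ ≤ L := by linarith
    calc 400000 * (A.q : ℝ) ^ 3 * A.v * (((i + 1 : ℕ) : ℝ) + 1) ^ 2 * A.y (i + 1)
        = 400000 * (A.q : ℝ) ^ 3 * A.v * ((((i + 1 : ℕ) : ℝ) + 1) ^ 2 * A.y (i + 1)) := by ring
      _ ≤ 400000 * (A.q : ℝ) ^ 3 * A.v * L := mul_le_mul_of_nonneg_left h1 (by positivity)
  · positivity

private lemma Q18_geom (k : ℝ) (hk : 0 < k) (J : ℕ) :
    ∑ i ∈ Finset.range J, ((2 : ℝ) ^ (2 * k)) ^ i * (1 / 16 : ℝ) ^ ((2 * k + 1) * (i : ℝ)) ≤ 2 := by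
  have h1 : ∀ i : ℕ, ((2 : ℝ) ^ (2 * k)) ^ i * (1 / 16 : ℝ) ^ ((2 * k + 1) * (i : ℝ))
      ≤ (1 / 2 : ℝ) ^ i := by
    intro i
    rw [Real.rpow_mul (by norm_num : (0 : ℝ) ≤ 1 / 16) (2 * k + 1) (i : ℝ), Real.rpow_natCast,
      ← mul_pow]
    have hpos : 0 ≤ (2 : ℝ) ^ (2 * k) * (1 / 16 : ℝ) ^ (2 * k + 1) :=
      mul_nonneg (Real.rpow_nonneg (by norm_num) _) (Real.rpow_nonneg (by norm_num) _)
    refine pow_le_pow_left₀ hpos ?_ i
    rw [Real.rpow_add (by norm_num), Real.rpow_one, ← mul_assoc,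
      ← Real.mul_rpow (by norm_num) (by norm_num)]
    have h2 : (2 * (1 / 16 : ℝ)) ^ (2 * k) ≤ 1 :=
      Real.rpow_le_one (by norm_num) (by norm_num) (by linarith)
    linarith
  calc ∑ i ∈ Finset.range J, ((2 : ℝ) ^ (2 * k)) ^ i * (1 / 16 : ℝ) ^ ((2 * k + 1) * (i : ℝ))
      ≤ ∑ i ∈ Finset.range J, (1 / 2 : ℝ) ^ i := Finset.sum_le_sum fun i _ => h1 i
    _ ≤ ∑' i : ℕ, (1 / 2 : ℝ) ^ i :=
      Summable.sum_le_tsum _ (fun i _ => by positivity) summable_geometric_two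
    _ = 2 := tsum_geometric_two

/-- the lengths of the indicators -/
private lemma Q18_kap {A : Par} (hA : A.Ok) {L : ℝ} (hL : 1 ≤ L)
    (hY : A.Y = L * Real.exp (-(2 * A.v))) (hv : 50000 * A.q ^ 2 ≤ A.v) (i : ℕ) :
    (A.κ i : ℝ) * A.y i ≤ L := by
  have hv4 : (4 : ℝ) ≤ A.v := by exact_mod_cast hA.hv
  have hvR : 50000 * (A.q : ℝ) ^ 2 ≤ A.v := by exact_mod_cast hv
  have hi0 : (0 : ℝ) ≤ i := Nat.cast_nonneg i
  have hev : (A.v : ℝ) ≤ Real.exp A.v := by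
    have := Real.add_one_le_exp (A.v : ℝ)
    linarith
  have e1 : (A.κ i : ℝ) * A.y i = L * ((50000 * (A.q : ℝ) ^ 2 * A.v * Real.exp (-(2 * A.v)))
      * (((i : ℝ) + 1) ^ 2 * Real.exp (-((A.v : ℝ) * i * (i + 1) / 2)))) := by
    unfold Par.κ Par.y Par.r Yg
    rw [hY]
    push_cast
    ring
  have h1 : 50000 * (A.q : ℝ) ^ 2 * A.v * Real.exp (-(2 * A.v)) ≤ 1 := by
    rw [Real.exp_neg, ← div_eq_mul_inv, div_le_one (Real.exp_pos _)]
    have h2 : Real.exp (2 * A.v) = Real.exp A.v * Real.exp A.v := by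
      rw [← Real.exp_add]
      ring_nf
    rw [h2]
    exact mul_le_mul (hvR.trans hev) hev (by positivity) (Real.exp_pos _).le
  have h2 : ((i : ℝ) + 1) ^ 2 * Real.exp (-((A.v : ℝ) * i * (i + 1) / 2)) ≤ 1 := by
    rw [Real.exp_neg, ← div_eq_mul_inv, div_le_one (Real.exp_pos _)]
    have h3 : (i : ℝ) + 1 ≤ Real.exp i := Real.add_one_le_exp _
    calc ((i : ℝ) + 1) ^ 2 ≤ Real.exp i ^ 2 := by
          exact pow_le_pow_left₀ (by linarith) h3 2
      _ = Real.exp (2 * i) := by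
          rw [← Real.exp_nat_mul]
          norm_num
      _ ≤ Real.exp ((A.v : ℝ) * i * (i + 1) / 2) := by
          apply Real.exp_le_exp.2
          nlinarith [mul_nonneg hi0 hi0, mul_nonneg hi0 (sub_nonneg.2 hv4),
            mul_nonneg (mul_nonneg hi0 hi0) (sub_nonneg.2 hv4)]
  rw [e1]
  have h3 : (50000 * (A.q : ℝ) ^ 2 * A.v * Real.exp (-(2 * A.v)))
      * (((i : ℝ) + 1) ^ 2 * Real.exp (-((A.v : ℝ) * i * (i + 1) / 2))) ≤ 1 :=
    mul_le_one₀ h1 (by positivity) h2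
  exact mul_le_of_le_one_right (by linarith) h3

theorem windows (hl : Level) (ht : Telescope) (hc : QCoeff) (hw : WinQ) (hn : NumWin) (hm : Mert) : Windows := by
  intro q k hq hk hqk hkq p0 hp0 B Lam ε hε
  obtain ⟨C1, hC1, hl⟩ := hl q hq
  obtain ⟨C2, hC2, v2, hw⟩ := hw q p0 hq hp0 B Lam
  obtain ⟨C3, hC3, hm⟩ := hm
  obtain ⟨C4, v4, hC4, hn⟩ := hn q k hq hk hqk hkq
  have hq0 : (0 : ℝ) < q := by exact_mod_cast hq
  have hkq0 : 0 < k / q := div_pos hk hq0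
  set M : ℝ := C1 * C2 ^ (k / q) * Real.exp (k ^ 2 * C3) * C4 with hM
  have hC2k : 0 ≤ C2 ^ (k / q) := Real.rpow_nonneg (by linarith) _
  have hM0 : 0 ≤ M := by positivity
  set D : ℝ := (2 : ℝ) ^ (2 * k) with hD
  have hD0 : 0 ≤ D := Real.rpow_nonneg (by norm_num) _
  -- the choice of `v0`
  obtain ⟨v5, hv5⟩ : ∃ v5 : ℕ, ∀ v : ℕ, v5 ≤ v →
      D * M * 2 * ((v : ℝ) ^ (2 * k) * Real.exp (-k * v)) ≤ ε := by
    have h1 := tendsto_rpow_mul_exp_neg_mul_atTop_nhds_zero (2 * k) k hk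
    have h2 := (h1.const_mul (D * M * 2)).comp tendsto_natCast_atTop_atTop
    rw [mul_zero] at h2
    have h3 := h2.eventually_le_const hε
    rw [eventually_atTop] at h3
    obtain ⟨v5, hv5⟩ := h3
    exact ⟨v5, fun v hv => hv5 v hv⟩
  refine ⟨max v2 (max v4 (max v5 (50000 * q ^ 2))), fun v hv => ?_⟩
  have hv2 : v2 ≤ v := (le_max_left _ _).trans hv
  have hv4 : v4 ≤ v := (le_max_left _ _).trans ((le_max_right _ _).trans hv)
  have hv5' : v5 ≤ v :=
    (le_max_left _ _).trans ((le_max_right _ _).trans ((le_max_right _ _).trans hv))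
  have hv6 : 50000 * q ^ 2 ≤ v :=
    (le_max_right _ _).trans ((le_max_right _ _).trans ((le_max_right _ _).trans hv))
  refine ⟨2 * q + 400000 * (q : ℝ) ^ 3 * v + 1, ?_, ?_⟩
  · have : 0 ≤ 2 * (q : ℝ) + 400000 * (q : ℝ) ^ 3 * v := by positivity
    linarith
  intro A hAq hAv hAp hA L hL hY X η ν hν hη hX u hu
  have hprob : IsProbabilityMeasure ν := hν.prob
  have hL1 : 1 ≤ L := by
    have : 0 ≤ 2 * (q : ℝ) + 400000 * (q : ℝ) ^ 3 * v := by positivity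
    linarith
  have hL0 : 0 < L := by linarith
  have h2k : 0 < 2 * k := by linarith
  -- telescoping
  have hsplit : ∀ t, ev t (TZ u L) - ev t (RW u p0 A.Y L * A.EI 0)
      = ev t (∑ i ∈ Finset.range A.J, A.QW u L i * A.EI (i + 1)) := by
    intro t
    rw [ht A hA u L hL0.le, map_add, hAp, add_sub_cancel_left]
  simp_rw [hsplit]
  refine (Q18_sum h2k A.J fun i => A.QW u L i * A.EI (i + 1)).trans ?_
  -- the length of the windows
  have hkap : ∀ j < A.J, (A.κ j : ℝ) * A.y j ≤ L := fun j _ =>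
    Q18_kap hA hL1 hY (by rw [hAq, hAv]; exact hv6) j
  have hterm : ∀ i ∈ Finset.range A.J,
      ∫ t, ‖ev t (A.QW u L i * A.EI (i + 1))‖ ^ (2 * k) ∂ν
        ≤ M * (v : ℝ) ^ (2 * k) * (1 / 16 : ℝ) ^ ((2 * k + 1) * (i : ℝ))
          * (L ^ (k ^ 2) * Real.exp (-(k * v) - 2 * k * v * (1 - (q - k)))) := by
    intro i hi
    rw [Finset.mem_range] at hi
    have hy : 0 < A.y (i + 1) := N4.Yg_pos' hA.hY (i + 1)
    have h1 := hl A hAq hA k hk hqk.le hkq (i + 1) hi X (Real.exp (2 * L)) η ν hν hη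
      (Real.exp_pos _).le (by
        rw [← Real.exp_nat_mul, ← Real.exp_add]
        refine le_trans (Real.exp_le_exp.2 ?_) hX
        have h3 := Q18_ell hA hL1 hY i
        rw [hAq, hAv] at h3
        nlinarith) (A.QW u L i) (fun n hn0 => by
        obtain ⟨h3, h4⟩ := (hc A hA B Lam u hu L hL0 hkap i hi n).2.2 hn0
        refine ⟨h3, ?_⟩
        have hn1 : (0 : ℝ) < n := by exact_mod_cast Nat.pos_of_ne_zero h3.1
        rwa [← Real.log_le_iff_le_exp hn1])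
    have h2 := hw A hAq hAp (by rw [hAv]; exact hv2) hA L hY hL1 u hu i hi
    have h3 := hn A hAq (by rw [hAv]; exact hv4) hA L hY hL1 i hi
    rw [hAv] at h2 h3
    set Z : ℝ := (L / (A.y (i + 1) + 1)) ^ (q ^ 2)
      * ((A.κ i * A.y i / L) ^ (2 * q) + (1 / 2) ^ A.κ i * Real.exp (4 * q ^ 2 * v * (i + 1)))
      with hZ
    have hyi : 0 < A.y i := N4.Yg_pos' hA.hY i
    have hZ0 : 0 ≤ Z := by positivity
    have h4 : En (A.QW u L i ^ q) ^ (k / q) ≤ C2 ^ (k / q) * Z ^ (k / q) := by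
      rw [← Real.mul_rpow (by linarith) hZ0]
      exact Real.rpow_le_rpow (J4.H24.En_nonneg24 _) h2 hkq0.le
    have h5 : Real.exp (k ^ 2 * A.V (i + 1))
        ≤ Real.exp (k ^ 2 * C3) * (A.y (i + 1) + 1) ^ (k ^ 2) := by
      have h6 := hm A hA (i + 1)
      have hy1 : 0 < A.y (i + 1) + 1 := by linarith
      rw [Real.rpow_def_of_pos hy1, ← Real.exp_add]
      apply Real.exp_le_exp.2
      have h7 : 0 ≤ k ^ 2 := sq_nonneg k
      nlinarith [mul_le_mul_of_nonneg_left h6 h7]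
    have hZk : 0 ≤ Z ^ (k / q) := Real.rpow_nonneg hZ0 _
    have hyk : 0 ≤ (A.y (i + 1) + 1) ^ (k ^ 2) := Real.rpow_nonneg (by linarith) _
    refine h1.trans ?_
    calc C1 * En (A.QW u L i ^ q) ^ (k / q) * Real.exp (k ^ 2 * A.V (i + 1))
        ≤ C1 * (C2 ^ (k / q) * Z ^ (k / q))
          * (Real.exp (k ^ 2 * C3) * (A.y (i + 1) + 1) ^ (k ^ 2)) := by
          refine mul_le_mul (mul_le_mul_of_nonneg_left h4 (by linarith)) h5
            (Real.exp_pos _).le (by positivity)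
      _ = (C1 * C2 ^ (k / q) * Real.exp (k ^ 2 * C3))
          * (Z ^ (k / q) * (A.y (i + 1) + 1) ^ (k ^ 2)) := by ring
      _ ≤ (C1 * C2 ^ (k / q) * Real.exp (k ^ 2 * C3))
          * (C4 * (v : ℝ) ^ (2 * k) * (1 / 16 : ℝ) ^ ((2 * k + 1) * (i : ℝ))
            * (L ^ (k ^ 2) * Real.exp (-(k * v) - 2 * k * v * (1 - (q - k))))) :=
          mul_le_mul_of_nonneg_left h3 (by positivity)
      _ = M * (v : ℝ) ^ (2 * k) * (1 / 16 : ℝ) ^ ((2 * k + 1) * (i : ℝ))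
          * (L ^ (k ^ 2) * Real.exp (-(k * v) - 2 * k * v * (1 - (q - k)))) := by
          rw [hM]
          ring
  set W : ℝ := L ^ (k ^ 2) * Real.exp (-(k * v) - 2 * k * v * (1 - (q - k))) with hW
  have hLk : 0 ≤ L ^ (k ^ 2) := Real.rpow_nonneg hL0.le _
  have hW0 : 0 ≤ W := by positivity
  have hvk : 0 ≤ (v : ℝ) ^ (2 * k) := Real.rpow_nonneg (Nat.cast_nonneg _) _
  have hWe : W = Real.exp (-k * v) * (L ^ (k ^ 2) * Real.exp (-(2 * k * v * (1 - (q - k))))) := by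
    rw [hW]
    have : -(k * (v : ℝ)) - 2 * k * v * (1 - (q - k)) = -k * v + -(2 * k * v * (1 - (q - k))) := by
      ring
    rw [this, Real.exp_add]
    ring
  calc D * ∑ i ∈ Finset.range A.J, D ^ i * ∫ t, ‖ev t (A.QW u L i * A.EI (i + 1))‖ ^ (2 * k) ∂ν
      ≤ D * ∑ i ∈ Finset.range A.J, D ^ i * (M * (v : ℝ) ^ (2 * k)
          * (1 / 16 : ℝ) ^ ((2 * k + 1) * (i : ℝ)) * W) := by
        refine mul_le_mul_of_nonneg_left (Finset.sum_le_sum fun i hi => ?_) hD0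
        exact mul_le_mul_of_nonneg_left (hterm i hi) (by positivity)
    _ = D * (M * (v : ℝ) ^ (2 * k) * W) * ∑ i ∈ Finset.range A.J,
          D ^ i * (1 / 16 : ℝ) ^ ((2 * k + 1) * (i : ℝ)) := by
        rw [Finset.mul_sum, Finset.mul_sum]
        refine Finset.sum_congr rfl fun i _ => ?_
        ring
    _ ≤ D * (M * (v : ℝ) ^ (2 * k) * W) * 2 :=
        mul_le_mul_of_nonneg_left (Q18_geom k hk A.J) (by positivity)
    _ = D * M * 2 * ((v : ℝ) ^ (2 * k) * Real.exp (-k * v))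
          * (L ^ (k ^ 2) * Real.exp (-(2 * k * v * (1 - (q - k))))) := by
        rw [hWe]
        ring
    _ ≤ ε * (L ^ (k ^ 2) * Real.exp (-(2 * k * v * (1 - (q - k))))) :=
        mul_le_mul_of_nonneg_right (hv5 v hv5') (by positivity)

end Pool.Agent.Lib.MS
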