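import Mathlib
import Pool.Agent.Lib.MP_f9aece_nt_ms.Coeffs
import Pool.Agent.Lib.MP_f9aece_nt_h97.SmoSum

/-!
Mesoscopic moments of zeta, module Q1: weighted energies of the multiplicative functions `hq`.
-/

set_option autoImplicit false

namespace Pool.Agent.Lib.MS

open MeasureTheory Set Filter Topology Complex
open scoped ComplexConjugate
open scoped ArithmeticFunction.Omega
open Pool.Agent.Lib.MP_f9aece_nt (DP pair BK K1 ev PP VV Smo expo EE)
open Pool.Agent.Lib.MP_f9aece_nt_h40 (ind)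
open Pool.Agent.Lib.MP_f9aece_nt_h85 (rz Rst)
open Pool.Agent.Lib.J4 (Sg Yg Jok Vs En V2 SU)
open Pool.Agent.Lib.N4 (OmS)

namespace EnWI

/-- convolution at a prime power -/
lemma conv_pp (f g : ArithmeticFunction ℝ) {p : ℕ} (hp : p.Prime) (k : ℕ) :
    (f * g) (p ^ k) = ∑ j ∈ Finset.range (k + 1), f (p ^ j) * g (p ^ (k - j)) := by
  rw [ArithmeticFunction.mul_apply,
    Nat.sum_divisorsAntidiagonal (fun a b => f a * g b), Nat.sum_divisors_prime_pow hp]
  refine Finset.sum_congr rfl fun j hj => ?_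
  rw [Finset.mem_range] at hj
  rw [Nat.pow_div (by omega) hp.pos]

lemma zr_pow_pp (q : ℕ) {p : ℕ} (hp : p.Prime) (k : ℕ) :
    (zr ^ q) (p ^ k) ≤ ((k : ℝ) + 1) ^ q := by
  induction q generalizing k with
  | zero =>
    rw [pow_zero, pow_zero, ArithmeticFunction.one_apply]
    split_ifs <;> norm_num
  | succ q ih =>
    rw [pow_succ, conv_pp _ _ hp]
    calc ∑ j ∈ Finset.range (k + 1), (zr ^ q) (p ^ j) * zr (p ^ (k - j))
        ≤ ∑ j ∈ Finset.range (k + 1), ((k : ℝ) + 1) ^ q := by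
          refine Finset.sum_le_sum fun j hj => ?_
          rw [Finset.mem_range] at hj
          rw [zr_apply (pow_ne_zero _ hp.ne_zero), mul_one]
          refine (ih j).trans ?_
          have : (j : ℝ) ≤ k := by exact_mod_cast Nat.lt_succ_iff.mp hj
          gcongr
      _ = ((k : ℝ) + 1) ^ (q + 1) := by
          rw [Finset.sum_const, Finset.card_range, nsmul_eq_mul, pow_succ]; push_cast; ring

lemma zr_pow_one (q : ℕ) : (zr ^ q) 1 = 1 := (zr_pow_mult q).1

lemma zr_pow_prime (q : ℕ) {p : ℕ} (hp : p.Prime) : (zr ^ q) p = q := by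
  induction q with
  | zero =>
    rw [pow_zero, ArithmeticFunction.one_apply_ne hp.ne_one]; simp
  | succ q ih =>
    have h := conv_pp (zr ^ q) zr hp 1
    rw [pow_one, Finset.sum_range_succ, Finset.sum_range_succ, Finset.sum_range_zero, zero_add,
      pow_zero, Nat.sub_zero, pow_one, zr_pow_one, ih,
      zr_apply hp.ne_zero, zr_apply one_ne_zero] at h
    rw [pow_succ, h]; push_cast; ring

lemma hq_one (q : ℕ) (c : ℝ) : hq q c 1 = 1 := (hq_mult q c).1

lemma hq_prime (q : ℕ) (c : ℝ) {p : ℕ} (hp : p.Prime) : hq q c p = q + c := by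
  have h := conv_pp (zr ^ q) (ex c) hp 1
  have h0 : ex c 1 = 1 := (ex_mult c).1
  have h1 : ex c p = c := by
    have := ex_prime_pow c hp 1
    rw [pow_one] at this
    rw [this]; simp
  rw [pow_one, Finset.sum_range_succ, Finset.sum_range_succ, Finset.sum_range_zero, zero_add,
    pow_zero, Nat.sub_zero, pow_one, zr_pow_one, zr_pow_prime q hp,
    h0, h1] at h
  rw [hq, h]; ring

lemma hq_pp (q : ℕ) {b c : ℝ} (hc : |c| ≤ b) {p : ℕ} (hp : p.Prime) (k : ℕ) :
    |hq q c (p ^ k)| ≤ ((k : ℝ) + 1) ^ q * Real.exp b := by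
  refine (abs_hq_le q c _).trans ?_
  rw [hq, conv_pp _ _ hp]
  calc ∑ j ∈ Finset.range (k + 1), (zr ^ q) (p ^ j) * ex |c| (p ^ (k - j))
      ≤ ∑ j ∈ Finset.range (k + 1), ((k : ℝ) + 1) ^ q *
          (|c| ^ (k - j) / ((k - j).factorial : ℝ)) := by
        refine Finset.sum_le_sum fun j hj => ?_
        rw [Finset.mem_range] at hj
        rw [ex_prime_pow _ hp]
        apply mul_le_mul_of_nonneg_right _ (by positivity)
        refine (zr_pow_pp q hp j).trans ?_
        have : (j : ℝ) ≤ k := by exact_mod_cast Nat.lt_succ_iff.mp hj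
        gcongr
    _ = ((k : ℝ) + 1) ^ q * ∑ j ∈ Finset.range (k + 1), |c| ^ j / (j.factorial : ℝ) := by
        rw [← Finset.mul_sum]
        congr 1
        rw [← Finset.sum_range_reflect]
        refine Finset.sum_congr rfl fun j hj => ?_
        rw [Finset.mem_range] at hj
        rw [show k + 1 - 1 - j = k - j by omega, show k - (k - j) = j by omega]
    _ ≤ ((k : ℝ) + 1) ^ q * Real.exp b := by
        apply mul_le_mul_of_nonneg_left _ (by positivity)
        exact (Real.sum_le_exp_of_nonneg (abs_nonneg c) _).trans (Real.exp_le_exp.2 hc)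

lemma summ (q : ℕ) : Summable (fun k : ℕ => ((k : ℝ) + 3) ^ (2 * q) * (1 / 2 : ℝ) ^ k) := by
  have h1 : Summable (fun k : ℕ => (k : ℝ) ^ (2 * q) * (1 / 2 : ℝ) ^ k) :=
    summable_pow_mul_geometric_of_norm_lt_one (2 * q) (by
      rw [Real.norm_eq_abs, abs_of_nonneg] <;> norm_num)
  have h2 := ((summable_nat_add_iff 3).2 h1).mul_left 8
  refine h2.congr fun k => ?_
  rw [pow_add]; push_cast; ring

end EnWI

open EnWI

theorem enW : EnW := by
  intro q b hb
  set T : ℝ := ∑' k : ℕ, ((k : ℝ) + 3) ^ (2 * q) * (1 / 2 : ℝ) ^ k with hT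
  have hT0 : 0 ≤ T := tsum_nonneg fun k => by positivity
  refine ⟨Real.exp b ^ 2 * T, by positivity, ?_⟩
  intro S hS y hy c hc F hF
  have hlocal : ∀ p ∈ S, ∀ N, ∑ k ∈ Finset.range N, hq q c (p ^ k) ^ 2 * y p ^ k
      ≤ Real.exp ((q + c) ^ 2 * y p + Real.exp b ^ 2 * T * y p ^ 2) := by
    intro p hp N
    have hpp := hS p hp
    obtain ⟨hy0, hy1⟩ := hy p hp
    have h1 : ∑ k ∈ Finset.range N, hq q c (p ^ k) ^ 2 * y p ^ k
        ≤ ∑ k ∈ Finset.range (N + 2), hq q c (p ^ k) ^ 2 * y p ^ k :=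
      Finset.sum_le_sum_of_subset_of_nonneg
        (Finset.range_subset_range.2 (by omega)) fun _ _ _ => by positivity
    refine h1.trans ?_
    rw [Finset.sum_range_succ', Finset.sum_range_succ']
    simp only [pow_zero, zero_add, pow_one, mul_one]
    rw [hq_one, hq_prime q c hpp]
    have h2 : ∑ k ∈ Finset.range N, hq q c (p ^ (k + 1 + 1)) ^ 2 * y p ^ (k + 1 + 1)
        ≤ Real.exp b ^ 2 * T * y p ^ 2 := by
      calc ∑ k ∈ Finset.range N, hq q c (p ^ (k + 1 + 1)) ^ 2 * y p ^ (k + 1 + 1)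
          ≤ ∑ k ∈ Finset.range N, Real.exp b ^ 2 * y p ^ 2 *
              (((k : ℝ) + 3) ^ (2 * q) * (1 / 2 : ℝ) ^ k) := by
            refine Finset.sum_le_sum fun k _ => ?_
            have h3 : hq q c (p ^ (k + 1 + 1)) ^ 2 ≤ (((k : ℝ) + 3) ^ q * Real.exp b) ^ 2 := by
              rw [← sq_abs]
              have h4 := hq_pp q hc hpp (k + 1 + 1)
              have h5 : ((k + 1 + 1 : ℕ) : ℝ) + 1 = (k : ℝ) + 3 := by push_cast; ring
              rw [h5] at h4
              exact pow_le_pow_left₀ (abs_nonneg _) h4 2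
            have h6 : y p ^ (k + 1 + 1) ≤ (1 / 2 : ℝ) ^ k * y p ^ 2 := by
              rw [show k + 1 + 1 = k + 2 by ring, pow_add]
              apply mul_le_mul_of_nonneg_right _ (by positivity)
              exact pow_le_pow_left₀ hy0 hy1 k
            calc hq q c (p ^ (k + 1 + 1)) ^ 2 * y p ^ (k + 1 + 1)
                ≤ (((k : ℝ) + 3) ^ q * Real.exp b) ^ 2 * ((1 / 2 : ℝ) ^ k * y p ^ 2) :=
                  mul_le_mul h3 h6 (by positivity) (by positivity)
              _ = Real.exp b ^ 2 * y p ^ 2 * (((k : ℝ) + 3) ^ (2 * q) * (1 / 2 : ℝ) ^ k) := by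
                  rw [mul_pow, ← pow_mul, mul_comm q 2]; ring
        _ = Real.exp b ^ 2 * y p ^ 2 *
              ∑ k ∈ Finset.range N, (((k : ℝ) + 3) ^ (2 * q) * (1 / 2 : ℝ) ^ k) := by
            rw [Finset.mul_sum]
        _ ≤ Real.exp b ^ 2 * y p ^ 2 * T := by
            apply mul_le_mul_of_nonneg_left _ (by positivity)
            exact (summ q).sum_le_tsum _ fun k _ => by positivity
        _ = Real.exp b ^ 2 * T * y p ^ 2 := by ring
    have h7 := Real.add_one_le_exp ((q + c) ^ 2 * y p + Real.exp b ^ 2 * T * y p ^ 2)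
    linarith
  have hmain := MP_f9aece_nt_h97.sum_smo_le S hS (fun p k => hq q c (p ^ k) ^ 2 * y p ^ k)
    (fun p hp k => by
      have := (hy p hp).1
      positivity)
    (fun p => Real.exp ((q + c) ^ 2 * y p + Real.exp b ^ 2 * T * y p ^ 2)) hlocal F hF
  rw [← Real.exp_sum] at hmain
  refine le_trans (le_of_eq ?_) hmain
  refine Finset.sum_congr rfl fun n hn => ?_
  rw [mult_smo (hq_mult q c) (hF n hn), ← Finset.prod_pow, ← Finset.prod_mul_distrib]

end Pool.Agent.Lib.MS
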