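import Mathlib
import Pool.Agent.Lib.MP_f9aece_nt_ms.Coeffs

/-!
Mesoscopic moments of zeta, module Q2: block energies, power of the indicator times truncated
exponential.
-/

set_option autoImplicit false

namespace Pool.Agent.Lib.MS

open MeasureTheory Set Filter Topology Complex
open scoped ComplexConjugate
open scoped ArithmeticFunction.Omega
open Pool.Agent.Lib.MP_f9aece_nt (DP pair BK K1 ev PP VV Smo expo EE)
open Pool.Agent.Lib.MP_f9aece_nt_h40 (ind)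
open Pool.Agent.Lib.MP_f9aece_nt_h85 (rz Rst)
open Pool.Agent.Lib.J4 (Sg Yg Jok Vs En V2 SU)
open Pool.Agent.Lib.N4 (OmS)

namespace Q2I

lemma prod_two {S : Finset ℕ} {n : ℕ} (hn : n ∈ Smo (S : Set ℕ)) (x : ℕ → ℝ) :
    ∏ p ∈ S, (2 * x p) ^ n.factorization p = 2 ^ (Ω n) * ∏ p ∈ S, x p ^ n.factorization p := by
  simp_rw [mul_pow]
  rw [Finset.prod_mul_distrib, Finset.prod_pow_eq_pow_sum]
  congr 2
  rw [Omega_eq]
  symm
  refine Finset.sum_subset ?_ fun p _ hp => ?_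
  · intro p hp
    exact hn.2 p (Nat.prime_of_mem_primeFactors hp) (Nat.dvd_of_mem_primeFactors hp)
  · rw [← Nat.support_factorization, Finsupp.notMem_support_iff] at hp
    exact hp

/-- coefficients -/
lemma coeff_eq {S : Finset ℕ} (hS : ∀ p ∈ S, p.Prime) {q κ M m0 : ℕ} (c : ℝ) (h1 : m0 ≤ κ)
    (h2 : m0 ≤ M) {n : ℕ} (hn : n ∈ Smo (S : Set ℕ)) (hO : Ω n ≤ m0) :
    af (ind κ S ^ q * expo c M S) n = hq q c n := by
  classical
  have hd : ∀ d, d ∣ n → d ∈ Smo (S : Set ℕ) ∧ Ω d ≤ m0 := by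
    intro d hd
    refine ⟨MP_f9aece_nt_h97.dvd_smo hn hd, ?_⟩
    obtain ⟨e, rfl⟩ := hd
    have h3 : d ≠ 0 := by rintro rfl; exact hn.1 (zero_mul e)
    have h4 : e ≠ 0 := by rintro rfl; exact hn.1 (mul_zero d)
    rw [ArithmeticFunction.cardFactors_mul h3 h4] at hO
    omega
  have hi : ∀ d, d ∣ n → af (ind κ S) d = zr d := by
    intro d hd'
    obtain ⟨g1, g2⟩ := hd d hd'
    rw [af_ind hS, if_pos ⟨g1, g2.trans h1⟩, zr_apply g1.1]
  rw [af_mul, af_pow]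
  unfold hq
  refine mul_agree (fun d hd' => pow_agree (fun e he => hi e (he.trans hd')) q) fun d hd' => ?_
  obtain ⟨g1, g2⟩ := hd d hd'
  rw [af_expo hS, if_pos ⟨g1, g2.trans h2⟩]

lemma coeff_le {S : Finset ℕ} (hS : ∀ p ∈ S, p.Prime) (q κ M : ℕ) (c : ℝ) (n : ℕ) :
    |af (ind κ S ^ q * expo c M S) n| ≤ hq q |c| n := by
  classical
  rw [af_mul, af_pow]
  unfold hq
  refine abs_mul_le (fun m => abs_pow_le (fun m => ?_) q m) (fun m => ?_) n
  · rw [af_ind hS]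
    split_ifs with h
    · rw [zr_apply h.1.1, abs_one]
    · rw [abs_zero]; exact (abs_nonneg _).trans (abs_zr_le m)
  · rw [af_expo hS]
    split_ifs with h
    · exact abs_ex_le c m
    · rw [abs_zero]; exact (abs_nonneg _).trans (abs_ex_le c m)

/-- numerical facts -/
lemma num {r : ℕ} (hr : 1 ≤ r) :
    (1 / 2 : ℝ) ^ (50000 * r) * Real.exp (16 * r) ≤ Real.exp (-(r : ℝ)) := by
  have h1 : Real.exp (17 * r) ≤ 2 ^ (34 * r) := by
    have e : Real.exp (17 * (r : ℝ)) = Real.exp 1 ^ (17 * r) := by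
      rw [← Real.exp_nat_mul]; congr 1; push_cast; ring
    rw [e]
    calc Real.exp 1 ^ (17 * r) ≤ 4 ^ (17 * r) := by
          have := Real.exp_pos 1
          have := Real.exp_one_lt_d9
          have h4 : Real.exp 1 ≤ 4 := by linarith
          gcongr
      _ = 2 ^ (34 * r) := by
          have : (4 : ℝ) = 2 ^ 2 := by norm_num
          rw [this, ← pow_mul]; congr 1; ring
  have h2 : (2 : ℝ) ^ (34 * r) ≤ 2 ^ (50000 * r) := pow_le_pow_right₀ (by norm_num) (by omega)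
  have h3 : (0 : ℝ) < 2 ^ (50000 * r) := by positivity
  have e2 : Real.exp (17 * r) = Real.exp (16 * r) * Real.exp r := by
    rw [← Real.exp_add]; congr 1; ring
  have h4 : Real.exp (-(r : ℝ)) = 1 / Real.exp r := by rw [Real.exp_neg, one_div]
  rw [h4, le_div_iff₀ (Real.exp_pos _), mul_assoc, ← e2, div_pow, one_pow, one_div,
    inv_mul_le_iff₀ h3, mul_one]
  exact h1.trans h2

end Q2I

open Q2I

theorem blockE (h : EnW) : BlockE := by
  classical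
  intro q hq1
  obtain ⟨C0, hC0, hE⟩ := h q q (Nat.cast_nonneg q)
  refine ⟨4 * C0, by positivity, fun S r κ M c hS hr hV hc hκ hM => ?_⟩
  have hSp : ∀ p ∈ S, p.Prime := fun p hp => (hS p hp).1
  have hq0 : (1 : ℝ) ≤ q := by exact_mod_cast hq1
  have hinv : ∀ p ∈ S, 0 ≤ (p : ℝ)⁻¹ ∧ (p : ℝ)⁻¹ ≤ 1 / 1000 := by
    intro p hp
    have h1 : (1000 : ℝ) ≤ p := by exact_mod_cast (hS p hp).2
    exact ⟨by positivity, by rw [one_div]; exact inv_anti₀ (by norm_num) h1⟩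
  obtain ⟨P, hP⟩ : ∃ P : DP, P = ind κ S ^ q * expo c M S := ⟨_, rfl⟩
  have hsup : MP_f9aece_nt_h97.Sup (Smo (S : Set ℕ)) P := by
    have h1 : MP_f9aece_nt_h97.Sup (Smo (S : Set ℕ)) (ind κ S) :=
      (MP_f9aece_nt_h97.sup_of_cone (MP_f9aece_nt_h40.cone_ind hSp κ)).mono fun _ h => h.1
    have h2 : MP_f9aece_nt_h97.Sup (Smo (S : Set ℕ)) (expo c M S) :=
      MP_f9aece_nt_h97.sup_expo hSp c M
    have h3 : ∀ k : ℕ, MP_f9aece_nt_h97.Sup (Smo (S : Set ℕ)) (ind κ S ^ k) := by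
      intro k
      induction k with
      | zero => rw [pow_zero]; exact MP_f9aece_nt_h97.Sup.one (MP_f9aece_nt.one_mem_Smo _)
      | succ k ih =>
        rw [pow_succ]
        exact ih.mul h1 fun a ha b hb => MP_f9aece_nt.mul_mem_Smo ha hb
    rw [hP]
    exact (h3 q).mul h2 fun a ha b hb => MP_f9aece_nt.mul_mem_Smo ha hb
  rw [← hP, En_af fun n hn => MP_f9aece_nt.Smo_pos (hsup n hn)]
  have hF : ∀ n ∈ P.coeff.support, n ∈ Smo (S : Set ℕ) := fun n hn =>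
    hsup n (Finsupp.mem_support_iff.mp hn)
  obtain ⟨m0, hm0⟩ : ∃ m0, m0 = 50000 * r := ⟨_, rfl⟩
  rw [← Finset.sum_filter_add_sum_filter_not P.coeff.support (fun n => Ω n ≤ m0)]
  -- few prime factors
  have hA : ∑ n ∈ P.coeff.support.filter (fun n => Ω n ≤ m0), af P n ^ 2 * (n : ℝ)⁻¹
      ≤ Real.exp ((q + c) ^ 2 * VV S + 4 * C0 * V2 S) := by
    have h1 : ∀ n ∈ P.coeff.support.filter (fun n => Ω n ≤ m0), af P n ^ 2 * (n : ℝ)⁻¹
        = hq q c n ^ 2 * ∏ p ∈ S, ((p : ℝ)⁻¹) ^ n.factorization p := by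
      intro n hn
      rw [Finset.mem_filter] at hn
      rw [← MP_f9aece_nt_h97.inv_smo (hF n hn.1), hP,
        coeff_eq hSp c (by omega) (by omega) (hF n hn.1) (hn.2)]
    rw [Finset.sum_congr rfl h1]
    refine (hE S hSp (fun p => (p : ℝ)⁻¹) (fun p hp => ⟨(hinv p hp).1, by
      linarith [(hinv p hp).2]⟩) c hc _ fun n hn => hF n (Finset.mem_filter.mp hn).1).trans ?_
    apply Real.exp_le_exp.mpr
    unfold VV V2
    rw [Finset.mul_sum, Finset.mul_sum, ← Finset.sum_add_distrib]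
    refine Finset.sum_le_sum fun p hp => ?_
    have : 0 ≤ C0 * ((p : ℝ)⁻¹) ^ 2 := by positivity
    nlinarith
  -- many prime factors
  have hB : ∑ n ∈ P.coeff.support.filter (fun n => ¬ Ω n ≤ m0), af P n ^ 2 * (n : ℝ)⁻¹
      ≤ Real.exp (-(r : ℝ)) * Real.exp (4 * C0 * V2 S) := by
    have h1 : ∀ n ∈ P.coeff.support.filter (fun n => ¬ Ω n ≤ m0), af P n ^ 2 * (n : ℝ)⁻¹
        ≤ (1 / 2) ^ m0 * (hq q |c| n ^ 2 * ∏ p ∈ S, (2 * (p : ℝ)⁻¹) ^ n.factorization p) := by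
      intro n hn
      rw [Finset.mem_filter, not_le] at hn
      have hsm := hF n hn.1
      rw [prod_two hsm, ← MP_f9aece_nt_h97.inv_smo hsm]
      have h2 : af P n ^ 2 ≤ hq q |c| n ^ 2 := by
        rw [← sq_abs (af P n), hP]
        exact pow_le_pow_left₀ (abs_nonneg _) (coeff_le hSp q κ M c n) 2
      have h3 : (1 : ℝ) ≤ (1 / 2) ^ m0 * 2 ^ Ω n := by
        rw [div_pow, one_pow, one_div, inv_mul_eq_div, le_div_iff₀ (by positivity), one_mul]
        exact pow_le_pow_right₀ (by norm_num) hn.2.le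
      have h4 : 0 ≤ hq q |c| n ^ 2 * (n : ℝ)⁻¹ := by positivity
      calc af P n ^ 2 * (n : ℝ)⁻¹ ≤ hq q |c| n ^ 2 * (n : ℝ)⁻¹ := by gcongr
        _ = 1 * (hq q |c| n ^ 2 * (n : ℝ)⁻¹) := (one_mul _).symm
        _ ≤ ((1 / 2) ^ m0 * 2 ^ Ω n) * (hq q |c| n ^ 2 * (n : ℝ)⁻¹) := by gcongr
        _ = _ := by ring
    refine (Finset.sum_le_sum h1).trans ?_
    rw [← Finset.mul_sum]
    have h2 := hE S hSp (fun p => 2 * (p : ℝ)⁻¹) (fun p hp => by
      have := hinv p hp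
      exact ⟨by linarith, by linarith⟩) |c| (by rw [abs_abs]; exact hc)
      (P.coeff.support.filter (fun n => ¬ Ω n ≤ m0)) fun n hn => hF n (Finset.mem_filter.mp hn).1
    have h3 : ∑ p ∈ S, (((q : ℝ) + |c|) ^ 2 * (2 * (p : ℝ)⁻¹) + C0 * (2 * (p : ℝ)⁻¹) ^ 2)
        ≤ 16 * r + 4 * C0 * V2 S := by
      have h4 : ∑ p ∈ S, (((q : ℝ) + |c|) ^ 2 * (2 * (p : ℝ)⁻¹) + C0 * (2 * (p : ℝ)⁻¹) ^ 2)
          = 2 * ((q : ℝ) + |c|) ^ 2 * VV S + 4 * C0 * V2 S := by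
        unfold VV V2
        rw [Finset.mul_sum, Finset.mul_sum, ← Finset.sum_add_distrib]
        exact Finset.sum_congr rfl fun p _ => by ring
      rw [h4]
      have h5 : ((q : ℝ) + |c|) ^ 2 ≤ (2 * q) ^ 2 :=
        pow_le_pow_left₀ (by positivity) (by linarith) 2
      have h6 := MP_f9aece_nt.VV_nonneg S
      have h7 : ((q : ℝ) + |c|) ^ 2 * VV S ≤ (2 * q) ^ 2 * VV S := by gcongr
      nlinarith
    have h4 : ∑ n ∈ P.coeff.support.filter (fun n => ¬ Ω n ≤ m0),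
        hq q |c| n ^ 2 * ∏ p ∈ S, (2 * (p : ℝ)⁻¹) ^ n.factorization p
        ≤ Real.exp (16 * r) * Real.exp (4 * C0 * V2 S) := by
      rw [← Real.exp_add]
      exact h2.trans (Real.exp_le_exp.mpr h3)
    have h5 := num hr
    rw [← hm0] at h5
    calc (1 / 2) ^ m0 * ∑ n ∈ P.coeff.support.filter (fun n => ¬ Ω n ≤ m0),
        hq q |c| n ^ 2 * ∏ p ∈ S, (2 * (p : ℝ)⁻¹) ^ n.factorization p
        ≤ (1 / 2) ^ m0 * (Real.exp (16 * r) * Real.exp (4 * C0 * V2 S)) := by gcongr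
      _ = ((1 / 2) ^ m0 * Real.exp (16 * r)) * Real.exp (4 * C0 * V2 S) := by ring
      _ ≤ _ := by gcongr
  refine (add_le_add hA hB).trans ?_
  have hVV := MP_f9aece_nt.VV_nonneg S
  have h6 : Real.exp (4 * C0 * V2 S) ≤ Real.exp ((q + c) ^ 2 * VV S + 4 * C0 * V2 S) := by
    apply Real.exp_le_exp.mpr
    have : 0 ≤ (q + c) ^ 2 * VV S := by positivity
    linarith
  have h7 := Real.add_one_le_exp (Real.exp (-(r : ℝ)))
  have h8 := Real.exp_pos (-(r : ℝ))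
  have h9 := Real.exp_pos ((q + c) ^ 2 * VV S + 4 * C0 * V2 S)
  rw [Real.exp_add _ (Real.exp (-(r : ℝ)))]
  calc Real.exp ((q + c) ^ 2 * VV S + 4 * C0 * V2 S)
        + Real.exp (-(r : ℝ)) * Real.exp (4 * C0 * V2 S)
      ≤ Real.exp ((q + c) ^ 2 * VV S + 4 * C0 * V2 S)
        + Real.exp (-(r : ℝ)) * Real.exp ((q + c) ^ 2 * VV S + 4 * C0 * V2 S) := by gcongr
    _ = Real.exp ((q + c) ^ 2 * VV S + 4 * C0 * V2 S) * (Real.exp (-(r : ℝ)) + 1) := by ring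
    _ ≤ _ := by gcongr

end Pool.Agent.Lib.MS
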