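import Mathlib
import Pool.Agent.Lib.MP_f9aece_nt_ms.Coeffs

/-!
Mesoscopic moments of zeta, module Q3: block energies, power of the indicator times power of the
prime sum.
-/

set_option autoImplicit false

namespace Pool.Agent.Lib.MS

open MeasureTheory Set Filter Topology Complex
open scoped ComplexConjugate
open scoped ArithmeticFunction.Omega
open Pool.Agent.Lib.MP_f9aece_nt (DP pair BK K1 ev PP VV Smo expo EE)
open Pool.Agent.Lib.MP_f9aece_nt_h40 (ind)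
open Pool.Agent.Lib.MP_f9aece_nt_h85 (rz Rst)
open Pool.Agent.Lib.J4 (Sg Yg Jok Vs En V2 SU)
open Pool.Agent.Lib.N4 (OmS)

namespace Q3I

/-- numerical facts -/
lemma num {q r : ℕ} (hq : 1 ≤ q) (hr : 1 ≤ r) :
    (1 / 4 : ℝ) ^ (100000 * q * r) * Real.exp (80802 * r) ≤ Real.exp (-(r : ℝ)) := by
  have h1 : Real.exp (80803 * r) ≤ 4 ^ (80803 * r) := by
    have e : Real.exp (80803 * (r : ℝ)) = Real.exp 1 ^ (80803 * r) := by
      rw [← Real.exp_nat_mul]; congr 1; push_cast; ring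
    rw [e]
    have := Real.exp_pos 1
    have := Real.exp_one_lt_d9
    have h4 : Real.exp 1 ≤ 4 := by linarith
    gcongr
  have h2 : (4 : ℝ) ^ (80803 * r) ≤ 4 ^ (100000 * q * r) := by
    refine pow_le_pow_right₀ (by norm_num) ?_
    calc 80803 * r ≤ 100000 * 1 * r := by omega
      _ ≤ 100000 * q * r := by gcongr
  have h3 : (0 : ℝ) < 4 ^ (100000 * q * r) := by positivity
  have e2 : Real.exp (80803 * r) = Real.exp (80802 * r) * Real.exp r := by
    rw [← Real.exp_add]; congr 1; ring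
  have h4 : Real.exp (-(r : ℝ)) = 1 / Real.exp r := by rw [Real.exp_neg, one_div]
  rw [h4, le_div_iff₀ (Real.exp_pos _), mul_assoc, ← e2, div_pow, one_pow, one_div,
    inv_mul_le_iff₀ h3, mul_one]
  exact h1.trans h2

lemma coeff_le {S : Finset ℕ} (hS : ∀ p ∈ S, p.Prime) (q κ M : ℕ) {z : ℝ} (hz : 0 < z) (n : ℕ) :
    |af (ind κ S ^ q * PP S ^ M) n| ≤ (M.factorial : ℝ) / z ^ M * hq q z n := by
  classical
  have h0 : ∀ m, |af (PP S ^ M) m| ≤ (((M.factorial : ℝ) / z ^ M) • ex z) m := by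
    intro m
    change _ ≤ (M.factorial : ℝ) / z ^ M * ex z m
    have hez : 0 ≤ ex z m := by
      have := abs_ex_le z m
      rw [abs_of_pos hz] at this
      exact (abs_nonneg _).trans this
    rw [af_PP_pow hS]
    split_ifs with h
    · have he1 : 0 ≤ ex 1 m := by
        have := abs_ex_le 1 m
        rw [abs_one] at this
        exact (abs_nonneg _).trans this
      rw [abs_of_nonneg (by positivity), ex_scale z h.1.1, h.2]
      have : z ^ M ≠ 0 := by positivity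
      field_simp
      exact le_rfl
    · rw [abs_zero]; positivity
  rw [af_mul, af_pow]
  have hi : ∀ m, |af (ind κ S) m| ≤ zr m := by
    intro m
    rw [af_ind hS]
    split_ifs with h
    · rw [zr_apply h.1.1, abs_one]
    · rw [abs_zero]; exact (abs_nonneg _).trans (abs_zr_le m)
  have h1 := abs_mul_le (F := zr ^ q) (G := ((M.factorial : ℝ) / z ^ M) • ex z)
    (fun m => abs_pow_le hi q m) h0 n
  refine h1.trans (le_of_eq ?_)
  unfold hq
  rw [ArithmeticFunction.mul_apply, ArithmeticFunction.mul_apply, Finset.mul_sum]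
  refine Finset.sum_congr rfl fun p _ => ?_
  change (zr ^ q) p.1 * ((M.factorial : ℝ) / z ^ M * ex z p.2) = _
  ring

end Q3I

open Q3I

theorem blockP (h : EnW) : BlockP := by
  classical
  intro q hq1
  have hq0 : (1 : ℝ) ≤ q := by exact_mod_cast hq1
  obtain ⟨z, hz⟩ : ∃ z : ℝ, z = 200 * q := ⟨_, rfl⟩
  have hz0 : 0 < z := by rw [hz]; positivity
  obtain ⟨C0, hC0, hE⟩ := h q z hz0.le
  refine ⟨C0, hC0, fun S r κ hS hr hV => ?_⟩
  have hSp : ∀ p ∈ S, p.Prime := fun p hp => (hS p hp).1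
  have hr0 : (1 : ℝ) ≤ r := by exact_mod_cast hr
  have hinv : ∀ p ∈ S, 0 ≤ (p : ℝ)⁻¹ ∧ (p : ℝ)⁻¹ ≤ 1 / 1000 := by
    intro p hp
    have h1 : (1000 : ℝ) ≤ p := by exact_mod_cast (hS p hp).2
    exact ⟨by positivity, by rw [one_div]; exact inv_anti₀ (by norm_num) h1⟩
  obtain ⟨M, hM⟩ : ∃ M, M = 100000 * q * r := ⟨_, rfl⟩
  rw [← hM]
  obtain ⟨P, hP⟩ : ∃ P : DP, P = ind κ S ^ q * PP S ^ M := ⟨_, rfl⟩
  have hsup : MP_f9aece_nt_h97.Sup (Smo (S : Set ℕ)) P := by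
    have h1 : MP_f9aece_nt_h97.Sup (Smo (S : Set ℕ)) (ind κ S) :=
      (MP_f9aece_nt_h97.sup_of_cone (MP_f9aece_nt_h40.cone_ind hSp κ)).mono fun _ h => h.1
    have h2 : MP_f9aece_nt_h97.Sup (Smo (S : Set ℕ)) (PP S ^ M) :=
      (MP_f9aece_nt_h97.sup_of_cone (MP_f9aece_nt.cone_PP_pow hSp M)).mono fun _ h => h.1
    have h3 : ∀ k : ℕ, MP_f9aece_nt_h97.Sup (Smo (S : Set ℕ)) (ind κ S ^ k) := by
      intro k
      induction k with
      | zero => rw [pow_zero]; exact MP_f9aece_nt_h97.Sup.one (MP_f9aece_nt.one_mem_Smo _)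
      | succ k ih =>
        rw [pow_succ]
        exact ih.mul h1 fun a ha b hb => MP_f9aece_nt.mul_mem_Smo ha hb
    rw [hP]
    exact (h3 q).mul h2 fun a ha b hb => MP_f9aece_nt.mul_mem_Smo ha hb
  have hF : ∀ n ∈ P.coeff.support, n ∈ Smo (S : Set ℕ) := fun n hn =>
    hsup n (Finsupp.mem_support_iff.mp hn)
  have hEn : En P ≤ ((M.factorial : ℝ) / z ^ M) ^ 2 * Real.exp (80802 * r + C0 * V2 S) := by
    rw [En_af fun n hn => MP_f9aece_nt.Smo_pos (hsup n hn)]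
    have h1 : ∀ n ∈ P.coeff.support, af P n ^ 2 * (n : ℝ)⁻¹ ≤ ((M.factorial : ℝ) / z ^ M) ^ 2
        * (hq q z n ^ 2 * ∏ p ∈ S, ((p : ℝ)⁻¹) ^ n.factorization p) := by
      intro n hn
      rw [← MP_f9aece_nt_h97.inv_smo (hF n hn)]
      have h2 : af P n ^ 2 ≤ ((M.factorial : ℝ) / z ^ M * hq q z n) ^ 2 := by
        rw [← sq_abs (af P n), hP]
        exact pow_le_pow_left₀ (abs_nonneg _) (coeff_le hSp q κ M hz0 n) 2
      calc af P n ^ 2 * (n : ℝ)⁻¹ ≤ ((M.factorial : ℝ) / z ^ M * hq q z n) ^ 2 * (n : ℝ)⁻¹ := by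
            gcongr
        _ = _ := by ring
    refine (Finset.sum_le_sum h1).trans ?_
    rw [← Finset.mul_sum]
    refine mul_le_mul_of_nonneg_left ?_ (sq_nonneg _)
    refine (hE S hSp (fun p => (p : ℝ)⁻¹) (fun p hp => ⟨(hinv p hp).1, by
      linarith [(hinv p hp).2]⟩) z (by rw [abs_of_pos hz0]) _ hF).trans ?_
    apply Real.exp_le_exp.mpr
    have h4 : ∑ p ∈ S, (((q : ℝ) + z) ^ 2 * (p : ℝ)⁻¹ + C0 * ((p : ℝ)⁻¹) ^ 2)
        = ((q : ℝ) + z) ^ 2 * VV S + C0 * V2 S := by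
      unfold VV V2
      rw [Finset.mul_sum, Finset.mul_sum, ← Finset.sum_add_distrib]
    rw [h4, hz]
    have h5 : ((q : ℝ) + 200 * q) ^ 2 * VV S = 40401 * (q ^ 2 * VV S) := by ring
    rw [h5]
    linarith
  have hfac : (M.factorial : ℝ) / z ^ M ≤ (1 / 2) ^ M * (1000 * (r : ℝ)) ^ M := by
    have h1 : (M.factorial : ℝ) ≤ (M : ℝ) ^ M := by exact_mod_cast Nat.factorial_le_pow M
    rw [div_le_iff₀ (by positivity), ← mul_pow, ← mul_pow]
    refine h1.trans (le_of_eq ?_)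
    congr 1
    rw [hM, hz]
    push_cast
    ring
  have hR : (0 : ℝ) < (1000 * (r : ℝ)) ^ (2 * M) := by positivity
  have hnum := num hq1 hr
  rw [← hM] at hnum
  rw [inv_mul_le_iff₀ hR, ← hP]
  have hf0 : 0 ≤ (M.factorial : ℝ) / z ^ M := by positivity
  calc En P ≤ ((M.factorial : ℝ) / z ^ M) ^ 2 * Real.exp (80802 * r + C0 * V2 S) := hEn
    _ ≤ ((1 / 2) ^ M * (1000 * (r : ℝ)) ^ M) ^ 2 * Real.exp (80802 * r + C0 * V2 S) := by gcongr
    _ = (1000 * (r : ℝ)) ^ (2 * M) * (((1 / 4 : ℝ) ^ M * Real.exp (80802 * r))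
          * Real.exp (C0 * V2 S)) := by
        rw [Real.exp_add, mul_pow, ← pow_mul, ← pow_mul, mul_comm M 2, pow_mul (1 / 2 : ℝ) 2 M]
        norm_num
        ring
    _ ≤ (1000 * (r : ℝ)) ^ (2 * M) * (Real.exp (-(r : ℝ)) * Real.exp (C0 * V2 S)) := by gcongr
    _ = _ := by ring

end Pool.Agent.Lib.MS
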