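import Mathlib
import Pool.Agent.Lib.MP_f9aece_nt_ms.Coeffs
import Pool.Agent.Lib.MP_f9aece_nt_n4.SumW

/-!
Mesoscopic moments of zeta, module Q4.

As N4 SumEI.lean / SumW.lean: En of a product over the groups is the product of the energies (J4 BK_prod_sup / N4.En_tw_prod), A.EI i ^ q * A.B c i s = product over the groups of ind^q * (power or truncated exponential), Finset.prod_add, BlockE/BlockP with r = A.r g (q^2 VV (A.S g) <= 2 A.r g from J4.vvSg, whose v0 is 4; look at GroupsH.lean: use MP_f9aece_nt_h6.VV_Sg_le), A.K g >= 50000 r, A.k g >= 50000 r; sum of exp(-r g) <= 2 exp(-v), sum of V2 <= 1/p0 (N4.sum_V2_le). (about 180 lines)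
-/

set_option autoImplicit false

namespace Pool.Agent.Lib.MS

open MeasureTheory Set Filter Topology Complex
open scoped ComplexConjugate
open scoped ArithmeticFunction.Omega
open Pool.Agent.Lib.MP_f9aece_nt (DP pair BK K1 ev PP VV Smo expo EE)
open Pool.Agent.Lib.MP_f9aece_nt_h40 (ind)
open Pool.Agent.Lib.MP_f9aece_nt_h85 (rz Rst)
open Pool.Agent.Lib.J4 (Sg Yg Jok Vs En V2 SU)
open Pool.Agent.Lib.N4 (OmS)

namespace Q4

open Pool.Agent.Lib.MP_f9aece_nt (mul_mem_Smo one_mem_Smo mulKer_K1)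
open Pool.Agent.Lib.MP_f9aece_nt_h97 (Sup)

lemma S_prime {A : Par} {g : ℕ} : ∀ p ∈ A.S g, p.Prime := J4.Sg_prime

lemma S_gt {A : Par} {g p : ℕ} (h : p ∈ A.S g) : A.p0 < p := (J4.mem_Sg.1 h).2.2.1

lemma V2_nonneg (S : Finset ℕ) : 0 ≤ V2 S := Finset.sum_nonneg fun p _ => by positivity

lemma V2_le {p0 : ℕ} (hp0 : 1 ≤ p0) {S : Finset ℕ} (h : ∀ p ∈ S, p0 < p) : V2 S ≤ 1 / p0 := by
  classical
  unfold V2
  have h0 : (0 : ℝ) ≤ 1 / p0 := by positivity
  rcases S.eq_empty_or_nonempty with rfl | hne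
  · simp
  · have h1 : S ⊆ Finset.Ioc p0 (S.max' hne) := by
      intro p hp
      rw [Finset.mem_Ioc]
      exact ⟨h p hp, S.le_max' p hp⟩
    have h2 : p0 ≤ S.max' hne := (h _ (S.max'_mem hne)).le
    calc ∑ p ∈ S, ((p : ℝ)⁻¹) ^ 2 = ∑ p ∈ S, ((p : ℝ) ^ 2)⁻¹ := by
          refine Finset.sum_congr rfl fun p _ => by rw [inv_pow]
      _ ≤ ∑ p ∈ Finset.Ioc p0 (S.max' hne), ((p : ℝ) ^ 2)⁻¹ :=
          Finset.sum_le_sum_of_subset_of_nonneg h1 fun p _ _ => by positivity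
      _ ≤ (p0 : ℝ)⁻¹ - ((S.max' hne : ℕ) : ℝ)⁻¹ := sum_Ioc_inv_sq_le_sub (by omega) h2
      _ ≤ 1 / p0 := by
          rw [one_div]
          have : (0 : ℝ) ≤ ((S.max' hne : ℕ) : ℝ)⁻¹ := by positivity
          linarith

lemma S_disj {A : Par} (hY : 0 ≤ A.Y) {g h : ℕ} (hgh : g ≠ h) : Disjoint (A.S g) (A.S h) :=
  J4.sgDisj A.v A.p0 A.Y hY g h hgh

lemma sum_V2 {A : Par} (hA : A.Ok) (i : ℕ) :
    ∑ g ∈ Finset.Ico i A.J, V2 (A.S g) ≤ 1 / A.p0 := by
  classical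
  have h1 : ∑ g ∈ Finset.Ico i A.J, V2 (A.S g) = V2 ((Finset.Ico i A.J).biUnion A.S) := by
    unfold V2
    rw [Finset.sum_biUnion]
    intro a _ b _ hab
    exact S_disj hA.hY.le hab
  rw [h1]
  refine V2_le (le_trans (by norm_num) hA.hp) fun p hp => ?_
  rw [Finset.mem_biUnion] at hp
  obtain ⟨g, _, hg⟩ := hp
  exact S_gt hg

/-- the energy of a product over the groups -/
lemma En_prod {A : Par} (hA : A.Ok) (t : Finset ℕ) (f : ℕ → DP)
    (hf : ∀ g ∈ t, Sup (Smo (A.S g : Set ℕ)) (f g)) :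
    En (∏ g ∈ t, f g) = ∏ g ∈ t, En (f g) :=
  J4.BK_prod_sup' mulKer_K1 _ A.S (fun _ _ _ _ hgh => S_disj hA.hY.le hgh) _ _ hf hf

lemma sup_pow {S : Set ℕ} {f : DP} (hf : Sup (Smo S) f) (q : ℕ) : Sup (Smo S) (f ^ q) := by
  induction q with
  | zero => rw [pow_zero]; exact Sup.one (one_mem_Smo _)
  | succ q ih => rw [pow_succ]; exact ih.mul hf fun a ha b hb => mul_mem_Smo ha hb

lemma sup_ind {A : Par} (κ g : ℕ) : Sup (Smo (A.S g : Set ℕ)) (ind κ (A.S g)) := by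
  unfold MP_f9aece_nt_h40.ind
  refine Sup.sum _ fun n hn => Sup.single ?_ _
  exact ((MP_f9aece_nt_h40.mem_indS S_prime).1 hn).1

lemma sup_PPpow {A : Par} (g M : ℕ) : Sup (Smo (A.S g : Set ℕ)) (PP (A.S g) ^ M) :=
  (J4.sup_PPpow S_prime M).mono fun _ hn => hn.1

lemma sup_expo {A : Par} (c : ℝ) (g M : ℕ) : Sup (Smo (A.S g : Set ℕ)) (expo c M (A.S g)) :=
  (J4.sup_expo' S_prime c M).mono fun _ hn => hn.1

/-- the block polynomials -/
noncomputable def bl (A : Par) (c : ℝ) (s : Finset ℕ) (g : ℕ) : DP :=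
  if g ∈ s then PP (A.S g) ^ A.M g else expo c (A.K g) (A.S g)

lemma sup_bl (A : Par) (c : ℝ) (s : Finset ℕ) (g : ℕ) :
    Sup (Smo (A.S g : Set ℕ)) (bl A c s g) := by
  unfold bl
  split_ifs
  · exact sup_PPpow _ _
  · exact sup_expo _ _ _

lemma B_eq (A : Par) (c : ℝ) (i : ℕ) {s : Finset ℕ} (hs : s ⊆ Finset.Ico i A.J) :
    A.B c i s = ∏ g ∈ Finset.Ico i A.J, bl A c s g := by
  unfold Par.B bl
  exact J4.prod_split hs _ _

/-- `q ^ 2 VV ≤ 2 r` -/
lemma VV_le {A : Par} (hA : A.Ok) (g : ℕ) :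
    (A.q : ℝ) ^ 2 * VV (A.S g) ≤ 2 * (A.r g : ℝ) := by
  have h : VV (A.S g) ≤ 2 * ((A.v : ℝ) * (g + 1)) := by
    unfold Par.S
    rw [J4.Sg_eq]
    have h := MP_f9aece_nt_h6.VV_Sg_le (p0 := A.p0) hA.hY (v := (A.v : ℝ))
      (by exact_mod_cast hA.hv) g
    refine h.trans (le_of_eq ?_)
    unfold MP_f9aece_nt_h6.rg
    ring
  unfold Par.r
  push_cast
  have h2 : (0 : ℝ) ≤ (A.q : ℝ) ^ 2 := by positivity
  calc (A.q : ℝ) ^ 2 * VV (A.S g) ≤ (A.q : ℝ) ^ 2 * (2 * ((A.v : ℝ) * (g + 1))) := by gcongr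
    _ = 2 * ((A.q : ℝ) ^ 2 * A.v * (g + 1)) := by ring

lemma one_le_r {A : Par} (hA : A.Ok) (g : ℕ) : 1 ≤ A.r g := by
  unfold Par.r
  have h1 := hA.hq
  have h2 : 1 ≤ A.v := le_trans (by norm_num) hA.hv
  have h3 : 0 < A.q ^ 2 * A.v * (g + 1) := by positivity
  omega

/-- the sum of the exponentials -/
lemma sum_exp_r {A : Par} (hA : A.Ok) (t : Finset ℕ) :
    ∑ g ∈ t, Real.exp (-(A.r g : ℝ)) ≤ 2 * Real.exp (-(A.v : ℝ)) := by
  refine le_trans (Finset.sum_le_sum fun g _ => ?_)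
    (N4.sum_exp_rg_le' (le_trans (by norm_num) hA.hv : 1 ≤ A.v) t)
  apply Real.exp_le_exp.2
  apply neg_le_neg
  have h1 : J4.rg A.v g ≤ A.r g := by
    unfold J4.rg Par.r
    have h2 : 1 ≤ A.q ^ 2 := Nat.one_le_pow _ _ hA.hq
    calc A.v * (g + 1) = 1 * (A.v * (g + 1)) := (one_mul _).symm
      _ ≤ A.q ^ 2 * (A.v * (g + 1)) := Nat.mul_le_mul_right _ h2
      _ = _ := by ring
  exact_mod_cast h1

/-- sums over the sets of groups -/
lemma sum_gen {A : Par} (hA : A.Ok) (i : ℕ) (a b u : ℕ → ℝ)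
    (ha : ∀ g ∈ Finset.Ico i A.J, 0 ≤ a g) (hb : ∀ g ∈ Finset.Ico i A.J, 0 ≤ b g)
    (hwa : ∀ g ∈ Finset.Ico i A.J, (A.R g ^ (2 * A.M g))⁻¹ * a g
      ≤ Real.exp (u g) * Real.exp (-(A.r g : ℝ)))
    (hbu : ∀ g ∈ Finset.Ico i A.J, b g ≤ Real.exp (u g)) :
    ∑ s ∈ (Finset.Ico i A.J).powerset, A.W s *
      ∏ g ∈ Finset.Ico i A.J, (if g ∈ s then a g else b g)
      ≤ Real.exp (∑ g ∈ Finset.Ico i A.J, u g + 2 * Real.exp (-(A.v : ℝ))) := by
  have h1 : ∀ s ∈ (Finset.Ico i A.J).powerset,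
      A.W s * ∏ g ∈ Finset.Ico i A.J, (if g ∈ s then a g else b g)
      ≤ (∏ g ∈ s, Real.exp (u g) * Real.exp (-(A.r g : ℝ)))
        * ∏ g ∈ Finset.Ico i A.J \ s, Real.exp (u g) := by
    intro s hs
    rw [Finset.mem_powerset] at hs
    rw [← Finset.prod_sdiff hs, mul_comm (∏ g ∈ Finset.Ico i A.J \ s, _), ← mul_assoc]
    unfold Par.W
    rw [← Finset.prod_mul_distrib]
    refine mul_le_mul ?_ ?_ (Finset.prod_nonneg fun g hg => ?_)
      (Finset.prod_nonneg fun g _ => by positivity)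
    · refine Finset.prod_le_prod (fun g hg => mul_nonneg ?_ ?_) fun g hg => ?_
      · unfold Par.R; positivity
      · rw [if_pos hg]
        exact ha g (hs hg)
      rw [if_pos hg]
      exact hwa g (hs hg)
    · refine Finset.prod_le_prod (fun g hg => ?_) fun g hg => ?_
      · rw [if_neg (Finset.mem_sdiff.mp hg).2]
        exact hb g (Finset.mem_sdiff.mp hg).1
      · rw [if_neg (Finset.mem_sdiff.mp hg).2]
        exact hbu g (Finset.mem_sdiff.mp hg).1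
    · rw [if_neg (Finset.mem_sdiff.mp hg).2]
      exact hb g (Finset.mem_sdiff.mp hg).1
  refine (Finset.sum_le_sum h1).trans ?_
  rw [← Finset.prod_add]
  have h4 : ∀ g ∈ Finset.Ico i A.J, Real.exp (u g) * Real.exp (-(A.r g : ℝ)) + Real.exp (u g)
      ≤ Real.exp (u g + Real.exp (-(A.r g : ℝ))) := by
    intro g _
    rw [Real.exp_add (u g)]
    have := Real.add_one_le_exp (Real.exp (-(A.r g : ℝ)))
    have e : Real.exp (u g) * Real.exp (-(A.r g : ℝ)) + Real.exp (u g)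
      = Real.exp (u g) * (Real.exp (-(A.r g : ℝ)) + 1) := by ring
    rw [e]
    gcongr
  refine (Finset.prod_le_prod (fun g _ => by positivity) h4).trans ?_
  rw [← Real.exp_sum, Finset.sum_add_distrib]
  apply Real.exp_le_exp.mpr
  have h5 := sum_exp_r hA (Finset.Ico i A.J)
  linarith

end Q4

open Q4
open Pool.Agent.Lib.MP_f9aece_nt (mul_mem_Smo)
open Pool.Agent.Lib.MP_f9aece_nt_h97 (Sup)

theorem sumE (h1 : BlockE) (h2 : BlockP) : SumE := by
  intro q hq1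
  obtain ⟨C1, hC1, hE⟩ := h1 q hq1
  obtain ⟨C2, hC2, hP⟩ := h2 q hq1
  refine ⟨C1 + C2, by positivity, fun A hAq hA i c hc => ?_⟩
  set u : ℕ → ℝ := fun g => (q + c) ^ 2 * VV (A.S g) + (C1 + C2) * V2 (A.S g)
    + Real.exp (-(A.r g : ℝ)) with hu
  have hpr : ∀ g, ∀ p ∈ A.S g, p.Prime ∧ 1000 ≤ p := fun g p hp =>
    ⟨S_prime p hp, hA.hp.trans (S_gt hp).le⟩
  have hVV : ∀ g, (q : ℝ) ^ 2 * VV (A.S g) ≤ 2 * (A.r g : ℝ) := by
    intro g
    have := VV_le hA g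
    rwa [hAq] at this
  have hVn : ∀ g, 0 ≤ VV (A.S g) := fun g => MP_f9aece_nt.VV_nonneg _
  have key := sum_gen hA i
    (fun g => En (ind (A.κ g) (A.S g) ^ q * PP (A.S g) ^ A.M g))
    (fun g => En (ind (A.κ g) (A.S g) ^ q * expo c (A.K g) (A.S g))) u
    (fun g _ => J4.En_nonneg' _) (fun g _ => J4.En_nonneg' _)
    (fun g _ => by
      have h3 := hP (A.S g) (A.r g) (A.κ g) (hpr g) (one_le_r hA g) (hVV g)
      have e1 : A.M g = 100000 * q * A.r g := by unfold Par.M; rw [hAq]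
      have e2 : A.R g = 1000 * (A.r g : ℝ) := rfl
      rw [e1, e2]
      refine h3.trans ?_
      refine mul_le_mul_of_nonneg_right ?_ (Real.exp_pos _).le
      apply Real.exp_le_exp.2
      have g1 := V2_nonneg (A.S g)
      have g2 := Real.exp_pos (-(A.r g : ℝ))
      have g3 : 0 ≤ (q + c) ^ 2 * VV (A.S g) := mul_nonneg (sq_nonneg _) (hVn g)
      simp only [hu]
      nlinarith [mul_nonneg hC1 g1])
    (fun g _ => by
      have h3 := hE (A.S g) (A.r g) (A.κ g) (A.K g) c (hpr g) (one_le_r hA g) (hVV g) hc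
        (by
          unfold Par.κ
          exact Nat.le_mul_of_pos_right _ (by omega))
        (by
          unfold Par.K
          rw [hAq]
          calc 50000 * A.r g = 50000 * 1 * A.r g := by ring
            _ ≤ 50000 * q * A.r g := by gcongr)
      refine h3.trans ?_
      apply Real.exp_le_exp.2
      have g1 := V2_nonneg (A.S g)
      simp only [hu]
      nlinarith [mul_nonneg hC2 g1])
  have e : ∑ s ∈ (Finset.Ico i A.J).powerset, A.W s * En (A.EI i ^ q * A.B c i s)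
      = ∑ s ∈ (Finset.Ico i A.J).powerset, A.W s * ∏ g ∈ Finset.Ico i A.J,
        (if g ∈ s then En (ind (A.κ g) (A.S g) ^ q * PP (A.S g) ^ A.M g)
          else En (ind (A.κ g) (A.S g) ^ q * expo c (A.K g) (A.S g))) := by
    refine Finset.sum_congr rfl fun s hs => ?_
    rw [Finset.mem_powerset] at hs
    congr 1
    rw [B_eq A c i hs]
    unfold Par.EI
    rw [← Finset.prod_pow, ← Finset.prod_mul_distrib, En_prod hA _ _ fun g _ =>
      (sup_pow (sup_ind _ g) q).mul (sup_bl A c s g) fun a ha b hb => mul_mem_Smo ha hb]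
    refine Finset.prod_congr rfl fun g _ => ?_
    unfold bl
    split_ifs <;> rfl
  rw [e]
  refine key.trans ?_
  apply Real.exp_le_exp.2
  have h4 : ∑ g ∈ Finset.Ico i A.J, u g = (q + c) ^ 2 * A.V i
      + (C1 + C2) * ∑ g ∈ Finset.Ico i A.J, V2 (A.S g)
      + ∑ g ∈ Finset.Ico i A.J, Real.exp (-(A.r g : ℝ)) := by
    simp only [hu]
    rw [Finset.sum_add_distrib, Finset.sum_add_distrib, ← Finset.mul_sum, ← Finset.mul_sum]
    rfl
  rw [h4]
  have h5 := sum_V2 hA i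
  have h6 := sum_exp_r hA (Finset.Ico i A.J)
  have h7 : (C1 + C2) * ∑ g ∈ Finset.Ico i A.J, V2 (A.S g) ≤ (C1 + C2) / A.p0 := by
    calc (C1 + C2) * ∑ g ∈ Finset.Ico i A.J, V2 (A.S g) ≤ (C1 + C2) * (1 / A.p0) := by
          gcongr
      _ = (C1 + C2) / A.p0 := by ring
  linarith

end Pool.Agent.Lib.MS
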