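import Mathlib
import Pool.Agent.Lib.MP_f9aece_nt_ms.Coeffs
import Pool.Agent.Lib.MP_f9aece_nt_n4.SumW

/-!
Mesoscopic moments of zeta, module Q5: sums over the sets of groups, without the indicators.
-/

set_option autoImplicit false

namespace Pool.Agent.Lib.MS

open MeasureTheory Set Filter Topology Complex
open scoped ComplexConjugate
open scoped ArithmeticFunction.Omega
open Pool.Agent.Lib.MP_f9aece_nt (DP pair BK K1 ev PP VV Smo expo EE)
open Pool.Agent.Lib.MP_f9aece_nt_h40 (ind)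
open Pool.Agent.Lib.MP_f9aece_nt_h85 (rz Rst)
open Pool.Agent.Lib.J4 (Sg Yg Jok Vs En V2 SU)
open Pool.Agent.Lib.N4 (OmS)

namespace Q5

open Pool.Agent.Lib.MP_f9aece_nt (mulKer_K1 BK_PP_pow_self BK_expo VV_nonneg)
open Pool.Agent.Lib.MP_f9aece_nt_h97 (Sup)
open Pool.Agent.Lib.J4 (BK_prod_sup' sgDisj Sg_prime prod_split sup_PPpow sup_expo' En_nonneg' rg)

/-- a factor -/
noncomputable def fac (A : Par) (c : ℝ) (s : Finset ℕ) (g : ℕ) : DP :=
  if g ∈ s then PP (A.S g) ^ A.M g else expo c (A.K g) (A.S g)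

lemma B_eq (A : Par) (c : ℝ) (i : ℕ) {s : Finset ℕ} (hs : s ⊆ Finset.Ico i A.J) :
    A.B c i s = ∏ g ∈ Finset.Ico i A.J, fac A c s g := by
  unfold Par.B fac
  exact prod_split hs _ _

lemma sup_fac (A : Par) (c : ℝ) (s : Finset ℕ) (g : ℕ) :
    Sup (Smo (A.S g : Set ℕ)) (fac A c s g) := by
  unfold fac
  split_ifs with h
  · exact (sup_PPpow Sg_prime _).mono fun _ hn => hn.1
  · exact (sup_expo' Sg_prime c (A.K g)).mono fun _ hn => hn.1

lemma En_prod (A : Par) (hY : 0 ≤ A.Y) (c : ℝ) (s t : Finset ℕ) :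
    En (∏ g ∈ t, fac A c s g)
      = ∏ g ∈ t, if g ∈ s then En (PP (A.S g) ^ A.M g) else En (expo c (A.K g) (A.S g)) := by
  have h1 : En (∏ g ∈ t, fac A c s g) = ∏ g ∈ t, En (fac A c s g) :=
    BK_prod_sup' mulKer_K1 _ (fun g => Sg A.v A.p0 A.Y g)
      (fun g _ h _ hgh => sgDisj A.v A.p0 A.Y hY g h hgh) _ _
      (fun g _ => sup_fac A c s g) (fun g _ => sup_fac A c s g)
  rw [h1]
  refine Finset.prod_congr rfl fun g _ => ?_
  unfold fac
  split_ifs <;> rfl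

lemma VV_S (A : Par) (hA : A.Ok) (g : ℕ) : (A.q : ℝ) ^ 2 * VV (A.S g) ≤ 2 * (A.r g : ℝ) := by
  have h := MP_f9aece_nt_h6.VV_Sg_le (p0 := A.p0) hA.hY (v := (A.v : ℝ))
    (by exact_mod_cast hA.hv) g
  have h2 : VV (A.S g) ≤ 2 * ((A.v : ℝ) * (g + 1)) := by
    unfold Par.S
    rw [J4.Sg_eq]
    refine h.trans (le_of_eq ?_)
    unfold MP_f9aece_nt_h6.rg
    ring
  have h3 : (0 : ℝ) ≤ (A.q : ℝ) ^ 2 := by positivity
  calc (A.q : ℝ) ^ 2 * VV (A.S g) ≤ (A.q : ℝ) ^ 2 * (2 * ((A.v : ℝ) * (g + 1))) := by gcongr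
    _ = 2 * (A.r g : ℝ) := by
      unfold Par.r
      push_cast
      ring

lemma one_le_r (A : Par) (hA : A.Ok) (g : ℕ) : 1 ≤ A.r g := by
  unfold Par.r
  have h1 := hA.hq
  have h2 := hA.hv
  have h3 : 0 < A.q ^ 2 * A.v * (g + 1) := by positivity
  omega

lemma wt_a (A : Par) (hA : A.Ok) (g : ℕ) :
    (A.R g ^ (2 * A.M g))⁻¹ * En (PP (A.S g) ^ A.M g) ≤ Real.exp (-(A.r g : ℝ)) := by
  have hr : (1 : ℝ) ≤ A.r g := by exact_mod_cast one_le_r A hA g
  have hq : (1 : ℝ) ≤ A.q := by exact_mod_cast hA.hq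
  have hV := VV_S A hA g
  have hV0 := VV_nonneg (A.S g)
  set M : ℕ := A.M g with hM
  have hMr : (M : ℝ) = 100000 * A.q * A.r g := by
    rw [hM]
    unfold Par.M
    push_cast
    ring
  have hqV : (A.q : ℝ) * VV (A.S g) ≤ 2 * (A.r g : ℝ) := by
    refine le_trans ?_ hV
    have : (A.q : ℝ) ≤ (A.q : ℝ) ^ 2 := by nlinarith
    gcongr
  have h1 : En (PP (A.S g) ^ M) ≤ ((M : ℝ) * VV (A.S g)) ^ M := by
    refine (BK_PP_pow_self Sg_prime M).trans ?_
    have h2 : ((M.factorial : ℕ) : ℝ) ≤ (M : ℝ) ^ M := by exact_mod_cast Nat.factorial_le_pow M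
    rw [mul_pow]
    gcongr
    exact le_rfl
  have h3 : (M : ℝ) * VV (A.S g) ≤ (1 / 5) * A.R g ^ 2 := by
    rw [hMr]
    unfold Par.R
    calc 100000 * (A.q : ℝ) * A.r g * VV (A.S g)
        = 100000 * A.r g * (A.q * VV (A.S g)) := by ring
      _ ≤ 100000 * A.r g * (2 * (A.r g : ℝ)) := by gcongr
      _ = (1 / 5) * (1000 * (A.r g : ℝ)) ^ 2 := by ring
  have hR : 0 < A.R g := by unfold Par.R; positivity
  have h4 : En (PP (A.S g) ^ M) ≤ (1 / 5) ^ M * A.R g ^ (2 * M) := by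
    refine h1.trans ?_
    calc ((M : ℝ) * VV (A.S g)) ^ M ≤ ((1 / 5) * A.R g ^ 2) ^ M :=
          pow_le_pow_left₀ (by positivity) h3 _
      _ = (1 / 5) ^ M * A.R g ^ (2 * M) := by rw [mul_pow, ← pow_mul]
  have h5 : (1 / 5 : ℝ) ^ M ≤ Real.exp (-(A.r g : ℝ)) := by
    have h6 : A.r g ≤ M := by
      rw [hM]
      unfold Par.M
      have := hA.hq
      nlinarith [one_le_r A hA g, Nat.mul_le_mul (Nat.mul_le_mul (le_refl 100000) this) (le_refl (A.r g))]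
    calc (1 / 5 : ℝ) ^ M ≤ (1 / 5 : ℝ) ^ (A.r g) :=
          pow_le_pow_of_le_one (by norm_num) (by norm_num) h6
      _ ≤ Real.exp (-1) ^ (A.r g) := by
          refine pow_le_pow_left₀ (by norm_num) ?_ _
          rw [Real.exp_neg, one_div]
          apply inv_anti₀ (Real.exp_pos _)
          have := Real.exp_one_lt_d9
          linarith
      _ = Real.exp (-(A.r g : ℝ)) := by
          rw [← Real.exp_nat_mul]
          congr 1
          ring
  have h7 : 0 < A.R g ^ (2 * M) := by positivity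
  rw [inv_mul_le_iff₀ h7]
  calc En (PP (A.S g) ^ M) ≤ (1 / 5) ^ M * A.R g ^ (2 * M) := h4
    _ ≤ Real.exp (-(A.r g : ℝ)) * A.R g ^ (2 * M) := by gcongr
    _ = A.R g ^ (2 * M) * Real.exp (-(A.r g : ℝ)) := by ring

/-- sum over the subsets -/
lemma sum_gen (A : Par) (t : Finset ℕ) (a b u e : ℕ → ℝ) (ha : ∀ g ∈ t, 0 ≤ a g)
    (hb : ∀ g ∈ t, 0 ≤ b g) (hu : ∀ g ∈ t, 0 ≤ u g)
    (hwa : ∀ g ∈ t, (A.R g ^ (2 * A.M g))⁻¹ * a g ≤ e g)
    (hbu : ∀ g ∈ t, b g ≤ Real.exp (u g)) :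
    ∑ s ∈ t.powerset, A.W s * ∏ g ∈ t, (if g ∈ s then a g else b g)
      ≤ Real.exp (∑ g ∈ t, (u g + e g)) := by
  classical
  have hW : ∀ g, 0 ≤ (A.R g ^ (2 * A.M g))⁻¹ := fun g => by unfold Par.R; positivity
  have h1 : ∑ s ∈ t.powerset, A.W s * ∏ g ∈ t, (if g ∈ s then a g else b g)
      = ∏ g ∈ t, ((A.R g ^ (2 * A.M g))⁻¹ * a g + b g) := by
    rw [Finset.prod_add]
    refine Finset.sum_congr rfl fun s hs => ?_
    rw [Finset.mem_powerset] at hs
    rw [← prod_split hs b a, Finset.prod_mul_distrib]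
    unfold Par.W
    ring
  rw [h1, Real.exp_sum]
  refine Finset.prod_le_prod (fun g hg => add_nonneg (mul_nonneg (hW g) (ha g hg)) (hb g hg))
    fun g hg => ?_
  have he : 0 ≤ e g := le_trans (mul_nonneg (hW g) (ha g hg)) (hwa g hg)
  rw [Real.exp_add]
  have h2 := Real.add_one_le_exp (e g)
  have h3 := Real.one_le_exp (hu g hg)
  have h4 := hwa g hg
  have h5 := hbu g hg
  nlinarith [Real.exp_pos (u g)]

end Q5

open Q5 in
theorem sumB : SumB := by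
  intro q _
  refine ⟨0, le_rfl, fun A hAq hA i c _ => ?_⟩
  have hY := hA.hY.le
  have h1 : ∀ s ∈ (Finset.Ico i A.J).powerset, A.W s * En (A.B c i s)
      = A.W s * ∏ g ∈ Finset.Ico i A.J, (if g ∈ s then En (PP (A.S g) ^ A.M g)
        else En (expo c (A.K g) (A.S g))) := by
    intro s hs
    rw [Finset.mem_powerset] at hs
    rw [B_eq A c i hs, En_prod A hY]
  rw [Finset.sum_congr rfl h1]
  refine (sum_gen A _ _ _ (fun g => c ^ 2 * VV (A.S g)) (fun g => Real.exp (-(A.r g : ℝ)))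
    (fun g _ => J4.En_nonneg' _) (fun g _ => J4.En_nonneg' _)
    (fun g _ => mul_nonneg (sq_nonneg _) (MP_f9aece_nt.VV_nonneg _))
    (fun g _ => wt_a A hA g) (fun g _ => MP_f9aece_nt.BK_expo J4.Sg_prime c _)).trans ?_
  apply Real.exp_le_exp.mpr
  rw [Finset.sum_add_distrib, ← Finset.mul_sum]
  have h2 : ∑ g ∈ Finset.Ico i A.J, Real.exp (-(A.r g : ℝ)) ≤ 2 * Real.exp (-(A.v : ℝ)) := by
    refine le_trans (Finset.sum_le_sum fun g _ => ?_)
      (N4.sum_exp_rg_le' (v := A.v) (by have := hA.hv; omega) (Finset.Ico i A.J))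
    apply Real.exp_le_exp.mpr
    have h3 : J4.rg A.v g ≤ A.r g := by
      unfold J4.rg Par.r
      have h4 : 1 ≤ A.q ^ 2 := Nat.one_le_pow _ _ hA.hq
      calc A.v * (g + 1) = 1 * (A.v * (g + 1)) := (one_mul _).symm
        _ ≤ A.q ^ 2 * (A.v * (g + 1)) := Nat.mul_le_mul_right _ h4
        _ = _ := by ring
    have h5 : (J4.rg A.v g : ℝ) ≤ A.r g := by exact_mod_cast h3
    linarith
  have h3 : ∑ g ∈ Finset.Ico i A.J, VV (A.S g) = A.V i := rfl
  rw [h3]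
  have := Real.exp_pos (-(A.v : ℝ))
  simp only [zero_div, add_zero]
  linarith

end Pool.Agent.Lib.MS
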