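import Mathlib
import Pool.Agent.Lib.MP_f9aece_nt_ms.Coeffs
import Pool.Agent.Lib.MP_f9aece_nt_h17.Pt
import Pool.Agent.Lib.MP_f9aece_nt_n4.P1

/-!
Mesoscopic moments of zeta, module Q6: the pointwise inequality and the two majorants.

`P g = ev t (PP (A.S g))`, `G` is the product over the groups of
`if |P g| ≤ R g then exp (-2 (q-k) Re P g) else 1`, `H` the same with `exp (2 k Re P g)`.
-/

set_option autoImplicit false

namespace Pool.Agent.Lib.MS

open MeasureTheory Set Filter Topology Complex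
open scoped ComplexConjugate
open scoped ArithmeticFunction.Omega
open Pool.Agent.Lib.MP_f9aece_nt (DP pair BK K1 ev PP VV Smo expo EE norm_exp_le)
open Pool.Agent.Lib.MP_f9aece_nt_h40 (ind)
open Pool.Agent.Lib.MP_f9aece_nt_h85 (rz Rst)
open Pool.Agent.Lib.J4 (Sg Yg Jok Vs En V2 SU rg)
open Pool.Agent.Lib.J4.PtI (dl dl_nonneg sum_dl_le ev_expo)
open Pool.Agent.Lib.N4 (OmS)

namespace Q6

variable {A : Par}

private lemma hq' (hA : A.Ok) : (1 : ℝ) ≤ A.q := by exact_mod_cast hA.hq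

private lemma rg_le_r (hA : A.Ok) (g : ℕ) : rg A.v g ≤ A.r g := by
  unfold Par.r J4.rg
  rw [mul_assoc]
  exact Nat.le_mul_of_pos_left _ (pow_pos hA.hq 2)

private lemma r_pos (hA : A.Ok) (g : ℕ) : 1 ≤ A.r g := by
  unfold Par.r
  have h1 := hA.hq
  have h2 := hA.hv
  exact Nat.mul_pos (Nat.mul_pos (pow_pos h1 2) (by omega)) (Nat.succ_pos g)

private lemma R_pos (hA : A.Ok) (g : ℕ) : 0 < A.R g := by
  unfold Par.R
  have : (1 : ℝ) ≤ A.r g := by exact_mod_cast r_pos hA g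
  linarith

private lemma err_le (hA : A.Ok) (g : ℕ) : 8 * (1 / 3 : ℝ) ^ (A.K g + 1) ≤ dl A.v g := by
  have hv1 : 1 ≤ A.v := by have := hA.hv; omega
  have hr := Pool.Agent.Lib.J4.PtI.rg_pos hv1 g
  have h3 : (1 / 3 : ℝ) ≤ Real.exp (-1) := by
    rw [Real.exp_neg, ← one_div]
    apply one_div_le_one_div_of_le (Real.exp_pos _)
    linarith [Real.exp_one_lt_d9]
  have h2 : (8 / 3 : ℝ) ≤ Real.exp 1 * 1 + 0 := by
    have := Real.exp_one_gt_d9
    linarith
  have hK : 3 * rg A.v g ≤ A.K g := by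
    have h5 := rg_le_r hA g
    unfold Par.K
    have h6 : 50000 * 1 * A.r g ≤ 50000 * A.q * A.r g :=
      Nat.mul_le_mul_right _ (Nat.mul_le_mul_left _ hA.hq)
    omega
  have h4 : (1 / 3 : ℝ) ^ (A.K g) ≤ Real.exp (-(3 * (rg A.v g : ℝ))) := by
    calc (1 / 3 : ℝ) ^ (A.K g) ≤ (1 / 3 : ℝ) ^ (3 * rg A.v g) :=
          pow_le_pow_of_le_one (by norm_num) (by norm_num) hK
      _ ≤ (Real.exp (-1)) ^ (3 * rg A.v g) := pow_le_pow_left₀ (by norm_num) h3 _
      _ = _ := by rw [← Real.exp_nat_mul]; congr 1; push_cast; ring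
  have hr' : (1 : ℝ) ≤ rg A.v g := by exact_mod_cast hr
  calc 8 * (1 / 3 : ℝ) ^ (A.K g + 1) = 8 / 3 * (1 / 3 : ℝ) ^ (A.K g) := by rw [pow_succ]; ring
    _ ≤ (Real.exp 1) * Real.exp (-(3 * (rg A.v g : ℝ))) := by gcongr; linarith
    _ = Real.exp (1 - 3 * (rg A.v g : ℝ)) := by rw [← Real.exp_add]; congr 1
    _ ≤ dl A.v g := by unfold dl; exact Real.exp_le_exp.mpr (by linarith)

private lemma norm_cmul_le {g : ℕ} {c : ℝ} (hc : |c| ≤ A.q) {P : ℂ} (hP : ‖P‖ ≤ A.R g) :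
    ‖(c : ℂ) * P‖ ≤ ((A.K g + 1 : ℕ) : ℝ) / 10 := by
  rw [norm_mul, Complex.norm_real, Real.norm_eq_abs]
  have h1 : |c| * ‖P‖ ≤ A.q * A.R g := by gcongr
  have h2 : A.q * A.R g ≤ ((A.K g + 1 : ℕ) : ℝ) / 10 := by
    unfold Par.R Par.K
    push_cast
    have : (0 : ℝ) ≤ (A.q : ℝ) * A.r g := by positivity
    nlinarith
  linarith

/-- the exponential is at most the truncated exponential, up to the error -/
private lemma exp_le_EE (hA : A.Ok) (g : ℕ) {c : ℝ} (hc : |c| ≤ A.q) {P : ℂ} (hP : ‖P‖ ≤ A.R g) :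
    Real.exp (2 * c * P.re) ≤ Real.exp (8 * (1 / 3) ^ (A.K g + 1)) * ‖EE (A.K g) (c * P)‖ ^ 2 := by
  have h1 := norm_exp_le (M := A.K g) (norm_cmul_le hc hP)
  set e : ℝ := 2 * (1 / 3) ^ (A.K g + 1) with he
  have he0 : 0 ≤ e := by positivity
  have he1 : e ≤ 1 / 2 := by
    have h2 := err_le hA g
    have h3 : dl A.v g ≤ 1 := by
      unfold dl; rw [Real.exp_le_one_iff]
      have : (0 : ℝ) ≤ rg A.v g := Nat.cast_nonneg _
      linarith
    rw [he]; linarith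
  have i1 := Pool.Agent.Lib.MP_f9aece_nt.inv_one_sub_le he0 he1
  have s4 : ‖cexp (c * P)‖ ≤ Real.exp (2 * e) * ‖EE (A.K g) (c * P)‖ := by
    calc ‖cexp (c * P)‖ = 1 * ‖cexp (c * P)‖ := (one_mul _).symm
      _ ≤ (Real.exp (2 * e) * (1 - e)) * ‖cexp (c * P)‖ := by gcongr
      _ = Real.exp (2 * e) * ((1 - e) * ‖cexp (c * P)‖) := by ring
      _ ≤ _ := by gcongr
  have s5 : ‖cexp (c * P)‖ ^ 2 = Real.exp (2 * c * P.re) := by
    rw [Complex.norm_exp, ← Real.exp_nat_mul]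
    congr 1
    simp only [Complex.re_ofReal_mul]
    push_cast
    ring
  rw [← s5]
  calc ‖cexp (c * P)‖ ^ 2 ≤ (Real.exp (2 * e) * ‖EE (A.K g) (c * P)‖) ^ 2 := by gcongr
    _ = _ := by
      rw [mul_pow, ← Real.exp_nat_mul, he]
      congr 2
      push_cast
      ring

/-- the factor of the powers -/
private noncomputable def bt (A : Par) (g : ℕ) (P : ℂ) : ℝ :=
  (A.R g ^ (2 * A.M g))⁻¹ * ‖P ^ A.M g‖ ^ 2

private lemma bt_nonneg (hA : A.Ok) (g : ℕ) (P : ℂ) : 0 ≤ bt A g P := by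
  have := R_pos hA g
  unfold bt
  positivity

private lemma bt_eq (g : ℕ) (P : ℂ) : bt A g P = (‖P‖ / A.R g) ^ (2 * A.M g) := by
  unfold bt
  rw [norm_pow, ← pow_mul, div_pow, mul_comm (A.M g) 2, div_eq_mul_inv, mul_comm]

private lemma one_le_bt (hA : A.Ok) (g : ℕ) {P : ℂ} (hP : A.R g ≤ ‖P‖) : 1 ≤ bt A g P := by
  have hR := R_pos hA g
  rw [bt_eq]
  have h1 : 1 ≤ ‖P‖ / A.R g := by rw [le_div_iff₀ hR]; linarith
  exact one_le_pow₀ h1

/-- expansion of the sum over the sets of groups -/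
private lemma sum_eq_prod (A : Par) (c : ℝ) (i : ℕ) (t : ℝ) :
    ∑ s ∈ (Finset.Ico i A.J).powerset, A.W s * ‖ev t (A.B c i s)‖ ^ 2
      = ∏ g ∈ Finset.Ico i A.J, (bt A g (ev t (PP (A.S g)))
          + ‖EE (A.K g) (c * ev t (PP (A.S g)))‖ ^ 2) := by
  rw [Finset.prod_add]
  refine Finset.sum_congr rfl fun s _ => ?_
  unfold Par.B Par.W bt
  rw [map_mul, map_prod, map_prod, norm_mul, norm_prod, norm_prod, mul_pow, ← Finset.prod_pow,
    ← Finset.prod_pow, Finset.prod_mul_distrib]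
  have h1 : ∀ g, ‖ev t (expo c (A.K g) (A.S g))‖ ^ 2
      = ‖EE (A.K g) (c * ev t (PP (A.S g)))‖ ^ 2 := by
    intro g
    rw [ev_expo]
  simp only [h1, map_pow]
  ring

/-- one group -/
private lemma group_le (hA : A.Ok) (g : ℕ) {c : ℝ} (hc : |c| ≤ A.q) (P : ℂ) :
    (if ‖P‖ ≤ A.R g then Real.exp (2 * c * P.re) else 1)
      ≤ Real.exp (dl A.v g) * (bt A g P + ‖EE (A.K g) (c * P)‖ ^ 2) := by
  have hb := bt_nonneg hA g P
  have h1 : 1 ≤ Real.exp (dl A.v g) := Real.one_le_exp (dl_nonneg A.v g)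
  split_ifs with h
  · have h2 := exp_le_EE hA g hc h
    have h3 : Real.exp (8 * (1 / 3) ^ (A.K g + 1)) ≤ Real.exp (dl A.v g) :=
      Real.exp_le_exp.mpr (err_le hA g)
    calc Real.exp (2 * c * P.re)
        ≤ Real.exp (8 * (1 / 3) ^ (A.K g + 1)) * ‖EE (A.K g) (c * P)‖ ^ 2 := h2
      _ ≤ Real.exp (dl A.v g) * ‖EE (A.K g) (c * P)‖ ^ 2 := by gcongr
      _ ≤ _ := by gcongr; linarith
  · have h2 := one_le_bt hA g (le_of_not_ge h)
    have h3 : 0 ≤ ‖EE (A.K g) (c * P)‖ ^ 2 := sq_nonneg _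
    nlinarith

/-- the product over the groups -/
private lemma prod_group_le (hA : A.Ok) (s : Finset ℕ) {c : ℝ} (hc : |c| ≤ A.q) (P : ℕ → ℂ) :
    ∏ g ∈ s, (if ‖P g‖ ≤ A.R g then Real.exp (2 * c * (P g).re) else 1)
      ≤ Real.exp (Real.exp (-(A.v : ℝ)))
        * ∏ g ∈ s, (bt A g (P g) + ‖EE (A.K g) (c * P g)‖ ^ 2) := by
  have hv1 : 1 ≤ A.v := by have := hA.hv; omega
  calc ∏ g ∈ s, (if ‖P g‖ ≤ A.R g then Real.exp (2 * c * (P g).re) else 1)
      ≤ ∏ g ∈ s, (Real.exp (dl A.v g) * (bt A g (P g) + ‖EE (A.K g) (c * P g)‖ ^ 2)) := by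
        refine Finset.prod_le_prod (fun g _ => ?_) fun g _ => group_le hA g hc (P g)
        split_ifs
        · exact (Real.exp_pos _).le
        · exact zero_le_one
    _ = Real.exp (∑ g ∈ s, dl A.v g) * ∏ g ∈ s, (bt A g (P g) + ‖EE (A.K g) (c * P g)‖ ^ 2) := by
        rw [Finset.prod_mul_distrib, Real.exp_sum]
    _ ≤ _ := by
        gcongr
        · exact Finset.prod_nonneg fun g _ => add_nonneg (bt_nonneg hA g _) (sq_nonneg _)
        · exact sum_dl_le hv1 s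

private lemma term_pos (A : Par) (c : ℝ) (g : ℕ) (P : ℂ) :
    0 < (if ‖P‖ ≤ A.R g then Real.exp (2 * c * P.re) else 1) := by
  split_ifs
  · exact Real.exp_pos _
  · exact one_pos

end Q6

open Q6 in
theorem ptYoung : PtYoung := by
  intro A hA i k hk0 hk1 hk2 t
  have hq1 := hq' hA
  have hq0 : (A.q : ℝ) ≠ 0 := by positivity
  set P : ℕ → ℂ := fun g => ev t (PP (A.S g)) with hP
  set G : ℝ := ∏ g ∈ Finset.Ico i A.J,
    (if ‖P g‖ ≤ A.R g then Real.exp (2 * (k - A.q) * (P g).re) else 1) with hG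
  set H : ℝ := ∏ g ∈ Finset.Ico i A.J,
    (if ‖P g‖ ≤ A.R g then Real.exp (2 * k * (P g).re) else 1) with hH
  have hG0 : 0 < G := Finset.prod_pos fun g _ => term_pos A _ g _
  have hH0 : 0 < H := Finset.prod_pos fun g _ => term_pos A _ g _
  refine ⟨G, H, hG0, hH0, fun z => ?_, ?_, ?_⟩
  · have h1 : G ^ (k / A.q) * H ^ (1 - k / A.q) = 1 := by
      rw [hG, hH, ← Real.finsetProd_rpow _ _ (fun g _ => (term_pos A _ g _).le),
        ← Real.finsetProd_rpow _ _ (fun g _ => (term_pos A _ g _).le), ← Finset.prod_mul_distrib]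
      refine Finset.prod_eq_one fun g _ => ?_
      split_ifs
      · rw [← Real.exp_mul, ← Real.exp_mul, ← Real.exp_add, Real.exp_eq_one_iff]
        field_simp
        ring
      · rw [Real.one_rpow, Real.one_rpow, one_mul]
    rw [Real.mul_rpow (by positivity) hG0.le, mul_assoc, h1, mul_one, ← Real.rpow_natCast,
      ← Real.rpow_mul (norm_nonneg z)]
    congr 1
    push_cast
    field_simp
  · rw [sum_eq_prod]
    have h2 := prod_group_le hA (Finset.Ico i A.J) (c := k - A.q) (by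
      rw [abs_le]; constructor <;> linarith) P
    exact h2
  · rw [sum_eq_prod]
    exact prod_group_le hA (Finset.Ico i A.J) (c := k) (by rw [abs_of_pos hk0]; exact hk2) P

end Pool.Agent.Lib.MS
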