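import Mathlib
import Pool.Agent.Lib.MP_f9aece_nt_ms.Coeffs
import Pool.Agent.Lib.MP_f9aece_nt_n4.P2

/-!
Mesoscopic moments of zeta, module Q7: lengths and supports.
-/

set_option autoImplicit false

namespace Pool.Agent.Lib.MS

open MeasureTheory Set Filter Topology Complex
open scoped ComplexConjugate
open scoped ArithmeticFunction.Omega
open Pool.Agent.Lib.MP_f9aece_nt (DP pair BK K1 ev PP VV Smo expo EE Smo_mono log_le_of_Omega
  one_mem_Smo mul_mem_Smo)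
open Pool.Agent.Lib.MP_f9aece_nt_h40 (ind cone_ind)
open Pool.Agent.Lib.MP_f9aece_nt_h85 (rz Rst)
open Pool.Agent.Lib.MP_f9aece_nt_h97 (Sup sup_of_cone sup_prod_Smo)
open Pool.Agent.Lib.J4 (Sg Yg Jok Vs En V2 SU Ln sup_Ln_prod sup_PPpow sup_expo' prod_split
  Sg_prime Sg_log_le Yg_pos sum_MY_le Mg)
open Pool.Agent.Lib.N4 (OmS kap)
open Pool.Agent.Lib.N4.P2I (sum_kY_le)

namespace Q7

variable {A : Par}

/-- the factor of the group `g` -/
private noncomputable def fb (A : Par) (c : ℝ) (s : Finset ℕ) (g : ℕ) : DP :=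
  if g ∈ s then PP (A.S g) ^ A.M g else expo c (A.K g) (A.S g)

private lemma B_eq (A : Par) (c : ℝ) (i : ℕ) {s : Finset ℕ} (hs : s ⊆ Finset.Ico i A.J) :
    A.B c i s = ∏ g ∈ Finset.Ico i A.J, fb A c s g := by
  unfold Par.B fb
  exact prod_split hs _ _

private lemma sup_fb (A : Par) (c : ℝ) (s : Finset ℕ) (g : ℕ) :
    Sup {n | n ∈ Smo (A.S g : Set ℕ) ∧ Ω n ≤ A.M g} (fb A c s g) := by
  unfold fb
  split_ifs with h
  · exact sup_PPpow Sg_prime _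
  · refine (sup_expo' Sg_prime c (A.K g)).mono fun n hn => ⟨hn.1, hn.2.trans ?_⟩
    unfold Par.K Par.M
    exact Nat.mul_le_mul_right _ (Nat.mul_le_mul_right _ (by norm_num))

private lemma ln_of (hA : A.Ok) {g m n : ℕ} (hn : n ∈ Smo (A.S g : Set ℕ)) (hm : Ω n ≤ m) :
    n ∈ Ln (m * A.y g) :=
  ⟨Nat.one_le_iff_ne_zero.mpr hn.1,
    log_le_of_Omega (lam := Yg A.v A.Y g) (fun _ hp => Sg_log_le _ hp) (Yg_pos A.v hA.hY g).le
      hn hm⟩

private lemma smo_SU (A : Par) (i : ℕ) (f : ℕ → DP)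
    (hf : ∀ g ∈ Finset.Ico i A.J, Sup (Smo (A.S g : Set ℕ)) (f g)) :
    Sup (Smo (A.SU i : Set ℕ)) (∏ g ∈ Finset.Ico i A.J, f g) := by
  refine (sup_prod_Smo _ A.S _ hf).mono (Smo_mono ?_)
  intro p hp
  simp only [Set.mem_iUnion] at hp
  obtain ⟨g, hg, hp⟩ := hp
  unfold Par.SU J4.SU
  rw [Finset.mem_coe, Finset.mem_biUnion]
  exact ⟨g, hg, hp⟩

private lemma sup_pow_smo {T : Set ℕ} {f : DP} (hf : Sup (Smo T) f) (k : ℕ) :
    Sup (Smo T) (f ^ k) := by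
  induction k with
  | zero =>
    rw [pow_zero]
    exact Sup.one (one_mem_Smo _)
  | succ k ih =>
    rw [pow_succ]
    exact ih.mul hf fun a ha b hb => mul_mem_Smo ha hb

private lemma sup_pow_ln {x : ℝ} {f : DP} (hf : Sup (Ln x) f) (k : ℕ) :
    Sup (Ln (k * x)) (f ^ k) := by
  induction k with
  | zero =>
    rw [pow_zero]
    exact Sup.one ⟨le_rfl, by simp⟩
  | succ k ih =>
    rw [pow_succ]
    have e : ((k + 1 : ℕ) : ℝ) * x = k * x + x := by push_cast; ring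
    rw [e]
    exact ih.mul hf fun a ha b hb => Ln.mul ha hb

/-- the numerical bound -/
private lemma num (hA : A.Ok) (i : ℕ) :
    A.q * (∑ g ∈ Finset.Ico i A.J, (A.κ g : ℝ) * A.y g)
      + ∑ g ∈ Finset.Ico i A.J, (A.M g : ℝ) * A.y g ≤ A.ell i := by
  have hv2 : 2 ≤ A.v := by have := hA.hv; omega
  unfold Par.ell
  split_ifs with h
  · have h1 := sum_kY_le hv2 hA.hY i A.J
    have h2 := sum_MY_le hv2 hA.hY i A.J
    have hY0 : 0 < A.y i := Yg_pos A.v hA.hY i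
    have e1 : (A.q : ℝ) * (∑ g ∈ Finset.Ico i A.J, (A.κ g : ℝ) * A.y g)
        = (A.q : ℝ) ^ 3 * ∑ g ∈ Finset.Ico i A.J, (kap A.v g : ℝ) * Yg A.v A.Y g := by
      rw [Finset.mul_sum, Finset.mul_sum]
      refine Finset.sum_congr rfl fun g _ => ?_
      unfold Par.κ Par.r kap Par.y
      push_cast
      ring
    have e2 : (∑ g ∈ Finset.Ico i A.J, (A.M g : ℝ) * A.y g)
        = (A.q : ℝ) ^ 3 * ∑ g ∈ Finset.Ico i A.J, (Mg A.v g : ℝ) * Yg A.v A.Y g := by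
      rw [Finset.mul_sum]
      refine Finset.sum_congr rfl fun g _ => ?_
      unfold Par.M Par.r Mg J4.rg Par.y
      push_cast
      ring
    rw [e1, e2]
    have h3 : (0 : ℝ) ≤ (i : ℝ) := Nat.cast_nonneg i
    have h4 : 200000 * (A.v : ℝ) * (i + 1) * Yg A.v A.Y i
        ≤ 200000 * A.v * (i + 1) ^ 2 * Yg A.v A.Y i := by
      have := (Yg_pos A.v hA.hY i).le
      gcongr
      nlinarith
    have h5 : 0 ≤ (A.v : ℝ) * (i + 1) ^ 2 * Yg A.v A.Y i := by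
      have := (Yg_pos A.v hA.hY i).le
      positivity
    have h6 : (0 : ℝ) ≤ (A.q : ℝ) ^ 3 := by positivity
    calc (A.q : ℝ) ^ 3 * (∑ g ∈ Finset.Ico i A.J, (kap A.v g : ℝ) * Yg A.v A.Y g)
          + (A.q : ℝ) ^ 3 * (∑ g ∈ Finset.Ico i A.J, (Mg A.v g : ℝ) * Yg A.v A.Y g)
        = (A.q : ℝ) ^ 3 * ((∑ g ∈ Finset.Ico i A.J, (kap A.v g : ℝ) * Yg A.v A.Y g)
          + ∑ g ∈ Finset.Ico i A.J, (Mg A.v g : ℝ) * Yg A.v A.Y g) := by ring
      _ ≤ (A.q : ℝ) ^ 3 * (400000 * (A.v * (i + 1) ^ 2 * Yg A.v A.Y i)) := by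
          refine mul_le_mul_of_nonneg_left ?_ h6
          nlinarith
      _ = _ := by unfold Par.y; ring
  · rw [Finset.Ico_eq_empty_of_le (by omega)]
    simp

end Q7

open Q7 in
theorem lenB : LenB := by
  intro A hA i hi c s hs n
  rw [Finset.mem_powerset] at hs
  have hq1 : (1 : ℝ) ≤ A.q := by exact_mod_cast hA.hq
  have hB1 : Sup (Smo (A.SU i : Set ℕ)) (A.B c i s) := by
    rw [B_eq A c i hs]
    exact smo_SU A i _ fun g _ => (sup_fb A c s g).mono fun _ hn => hn.1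
  have hB2 : Sup (Ln (∑ g ∈ Finset.Ico i A.J, (A.M g : ℝ) * A.y g)) (A.B c i s) := by
    rw [B_eq A c i hs]
    exact sup_Ln_prod _ _ _ fun g _ => (sup_fb A c s g).mono fun _ hn => ln_of hA hn.1 hn.2
  have hE1 : Sup (Smo (A.SU i : Set ℕ)) (A.EI i) :=
    smo_SU A i _ fun g _ => (sup_of_cone (cone_ind Sg_prime (A.κ g))).mono fun _ hn => hn.1
  have hE2 : Sup (Ln (∑ g ∈ Finset.Ico i A.J, (A.κ g : ℝ) * A.y g)) (A.EI i) :=
    sup_Ln_prod _ _ _ fun g _ =>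
      (sup_of_cone (cone_ind Sg_prime (A.κ g))).mono fun _ hn => ln_of hA hn.1 hn.2
  have hnum := num hA i
  have hy : ∀ g, 0 ≤ A.y g := fun g => (Yg_pos A.v hA.hY g).le
  have hs1 : 0 ≤ ∑ g ∈ Finset.Ico i A.J, (A.κ g : ℝ) * A.y g :=
    Finset.sum_nonneg fun g _ => mul_nonneg (by positivity) (hy g)
  have hs2 : 0 ≤ ∑ g ∈ Finset.Ico i A.J, (A.M g : ℝ) * A.y g :=
    Finset.sum_nonneg fun g _ => mul_nonneg (by positivity) (hy g)
  refine ⟨fun hn => ?_, fun hn => ?_, fun hn => ?_⟩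
  · have h1 : Sup (Smo (A.SU i : Set ℕ)) (A.EI i ^ A.q * A.B c i s) :=
      (sup_pow_smo hE1 A.q).mul hB1 fun a ha b hb => mul_mem_Smo ha hb
    have h2 := (sup_pow_ln hE2 A.q).mul hB2 (fun a ha b hb => Ln.mul ha hb)
    exact ⟨h1 n hn, (h2 n hn).1, (h2 n hn).2.trans hnum⟩
  · exact ⟨hB1 n hn, (hB2 n hn).1, (hB2 n hn).2.trans (by nlinarith)⟩
  · exact ⟨hE1 n hn, (hE2 n hn).1, (hE2 n hn).2.trans (by nlinarith)⟩

end Pool.Agent.Lib.MS
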