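import Mathlib
import Pool.Agent.Lib.MP_f9aece_nt_ms.Coeffs
import Pool.Agent.Lib.MP_f9aece_nt_n4.P3

/-!
Mesoscopic moments of zeta, module Q8.

As N4 P3.lean, but with the probability measure nu instead of the weight, delta = 0, and (x^a y^(1-a) <= a E^(a-1) x + (1-a) E^a y, E = En (F^q), a = k/q; the case E = 0 gives F^q = 0, ev t F = 0; the case N < 1 gives F = 0). int |ev t P|^2 dnu <= 2 En P for Len X P (MVP with Q = P). Supports: F over Rst, EI and B over A.SU i, disjoint (N4.P3.disj, En_mul). Everything is continuous and bounded, hence integrable for nu. (about 300 lines)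
-/

set_option autoImplicit false

namespace Pool.Agent.Lib.MS

open MeasureTheory Set Filter Topology Complex
open scoped ComplexConjugate
open scoped ArithmeticFunction.Omega
open Pool.Agent.Lib.MP_f9aece_nt (DP pair BK K1 ev PP VV Smo expo EE)
open Pool.Agent.Lib.MP_f9aece_nt_h40 (ind)
open Pool.Agent.Lib.MP_f9aece_nt_h85 (rz Rst)
open Pool.Agent.Lib.J4 (Sg Yg Jok Vs En V2 SU)
open Pool.Agent.Lib.N4 (OmS)

namespace Q8

open Pool.Agent.Lib.MP_f9aece_nt (ev_apply continuous_ev mul_mem_Smo Smo_pos one_mem_Smo)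
open Pool.Agent.Lib.MP_f9aece_nt_h97 (Sup)

lemma Wnn (A : Par) (s : Finset ℕ) : 0 ≤ A.W s := by
  unfold Par.W Par.R
  exact Finset.prod_nonneg fun g _ => by positivity

/-- Dirichlet polynomials are bounded on the critical line -/
lemma bdd_ev (P : DP) : ∃ C : ℝ, 0 ≤ C ∧ ∀ t : ℝ, ‖ev t P‖ ≤ C := by
  refine ⟨∑ a ∈ P.coeff.support, |P.coeff a|, Finset.sum_nonneg fun a _ => abs_nonneg _, fun t => ?_⟩
  rw [ev_apply]
  refine (norm_sum_le _ _).trans (Finset.sum_le_sum fun a _ => ?_)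
  rw [norm_mul, Complex.norm_real, Real.norm_eq_abs]
  rcases eq_or_ne a 0 with rfl | ha
  · rw [Nat.cast_zero, Complex.zero_cpow]
    · simp
    · intro h
      have := congrArg Complex.re h
      simp at this
  · have ha1 : 1 ≤ a := Nat.one_le_iff_ne_zero.2 ha
    rw [Complex.norm_natCast_cpow_of_pos ha1]
    have h1 : (a : ℝ) ^ (-(1 / 2 + I * t : ℂ)).re ≤ 1 := by
      apply Real.rpow_le_one_of_one_le_of_nonpos
      · exact_mod_cast ha1
      · simp
    calc |P.coeff a| * (a : ℝ) ^ (-(1 / 2 + I * t : ℂ)).re ≤ |P.coeff a| * 1 := by gcongr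
      _ = |P.coeff a| := mul_one _

/-- continuous bounded functions are integrable -/
lemma integ {ν : Measure ℝ} [IsProbabilityMeasure ν] {f : ℝ → ℝ} (hf : Continuous f) {C : ℝ}
    (hC : ∀ t, |f t| ≤ C) : Integrable f ν := by
  refine Integrable.of_bound hf.aestronglyMeasurable C (Eventually.of_forall fun t => ?_)
  rw [Real.norm_eq_abs]
  exact hC t

lemma integ_sq {ν : Measure ℝ} [IsProbabilityMeasure ν] (P : DP) :
    Integrable (fun t => ‖ev t P‖ ^ 2) ν := by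
  obtain ⟨C, hC0, hC⟩ := bdd_ev P
  refine integ ((continuous_ev P).norm.pow 2) (C := C ^ 2) fun t => ?_
  rw [abs_of_nonneg (by positivity)]
  exact pow_le_pow_left₀ (norm_nonneg _) (hC t) 2

lemma integ_rpow {ν : Measure ℝ} [IsProbabilityMeasure ν] (P : DP) {r : ℝ} (hr : 0 ≤ r) :
    Integrable (fun t => ‖ev t P‖ ^ r) ν := by
  obtain ⟨C, hC0, hC⟩ := bdd_ev P
  refine integ ((continuous_ev P).norm.rpow_const fun t => Or.inr hr) (C := C ^ r) fun t => ?_
  rw [abs_of_nonneg (by positivity)]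
  exact Real.rpow_le_rpow (norm_nonneg _) (hC t) hr

/-- the mean value of a short polynomial -/
lemma mean_sq {ν : Measure ℝ} {X η : ℝ} (hν : MVP ν X η) (hη : η ≤ 1) {P : DP} (hP : Len X P) :
    ∫ t, ‖ev t P‖ ^ 2 ∂ν ≤ 2 * En P := by
  have h0 : 0 ≤ En P := J4.En_nonneg' P
  have h1 := hν.mv P P hP hP
  have h2 : ∫ t, ev t P * conj (ev t P) ∂ν = ((∫ t, ‖ev t P‖ ^ 2 ∂ν : ℝ) : ℂ) := by
    rw [← integral_complex_ofReal]
    congr 1
    ext t
    rw [Complex.mul_conj, Complex.normSq_eq_norm_sq]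
  rw [h2, ← Complex.ofReal_sub, Complex.norm_real, Real.norm_eq_abs,
    Real.sqrt_mul_self h0] at h1
  have h3 : BK K1 P P = En P := rfl
  rw [h3] at h1
  have h4 := (abs_le.1 h1).2
  nlinarith

/-- weighted arithmetic and geometric means -/
lemma amgm {x y α E : ℝ} (hx : 0 ≤ x) (hy : 0 ≤ y) (hα : 0 ≤ α) (hα1 : α ≤ 1) (hE : 0 < E) :
    x ^ α * y ^ (1 - α) ≤ α * (E ^ (α - 1) * x) + (1 - α) * (E ^ α * y) := by
  have h1 := Real.geom_mean_le_arith_mean2_weighted hα (by linarith : 0 ≤ 1 - α)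
    (by positivity : 0 ≤ E ^ (α - 1) * x) (by positivity : 0 ≤ E ^ α * y) (by ring)
  have h2 : (E ^ (α - 1) * x) ^ α * (E ^ α * y) ^ (1 - α) = x ^ α * y ^ (1 - α) := by
    rw [Real.mul_rpow (by positivity) hx, Real.mul_rpow (by positivity) hy,
      ← Real.rpow_mul hE.le, ← Real.rpow_mul hE.le]
    have h3 : E ^ ((α - 1) * α) * E ^ (α * (1 - α)) = 1 := by
      rw [← Real.rpow_add hE]
      have : (α - 1) * α + α * (1 - α) = 0 := by ring
      rw [this, Real.rpow_zero]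
    calc E ^ ((α - 1) * α) * x ^ α * (E ^ (α * (1 - α)) * y ^ (1 - α))
        = (E ^ ((α - 1) * α) * E ^ (α * (1 - α))) * (x ^ α * y ^ (1 - α)) := by ring
      _ = _ := by rw [h3, one_mul]
  rw [h2] at h1
  exact h1

lemma sup_pow {S : Set ℕ} {f : DP} (hf : Sup (Smo S) f) (q : ℕ) : Sup (Smo S) (f ^ q) := by
  induction q with
  | zero => rw [pow_zero]; exact Sup.one (one_mem_Smo _)
  | succ q ih => rw [pow_succ]; exact ih.mul hf fun a ha b hb => mul_mem_Smo ha hb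

/-- lengths of powers -/
lemma len_pow {S : Set ℕ} {f : DP} {N : ℝ} (hN : 1 ≤ N)
    (hf : ∀ n, f.coeff n ≠ 0 → n ∈ Smo S ∧ (n : ℝ) ≤ N) (q : ℕ) :
    ∀ n, (f ^ q).coeff n ≠ 0 → n ∈ Smo S ∧ (n : ℝ) ≤ N ^ q := by
  induction q with
  | zero =>
    intro n hn
    rw [pow_zero] at hn
    have h1 : n = 1 := by
      by_contra h
      apply hn
      rw [MonoidAlgebra.one_def, MonoidAlgebra.coeff_single, Finsupp.single_apply,
        if_neg (Ne.symm h)]
    subst h1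
    exact ⟨one_mem_Smo _, by simp⟩
  | succ q ih =>
    intro n hn
    rw [pow_succ] at hn
    obtain ⟨x, y, hx, hy, rfl⟩ := J4.NInt.coeff_mul_ne hn
    refine ⟨mul_mem_Smo (ih x hx).1 (hf y hy).1, ?_⟩
    push_cast
    rw [pow_succ]
    have h1 := (ih x hx).2
    have h2 := (hf y hy).2
    gcongr

end Q8

open Q8
open Pool.Agent.Lib.MP_f9aece_nt (continuous_ev mul_mem_Smo Smo_pos)
open Pool.Agent.Lib.MP_f9aece_nt_h97 (Sup)

theorem level (hp : PtYoung) (hl : LenB) (he : SumE) (hb : SumB) : Level := by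
  intro q hq1
  obtain ⟨CE, hCE, hE⟩ := he q hq1
  obtain ⟨CB, hCB, hB⟩ := hb q hq1
  set D : ℝ := 2 * Real.exp 1 * Real.exp (CE + CB + 4) with hD
  refine ⟨max 1 D, le_max_left _ _, fun A hAq hA k hk0 hk1 hk2 i hi X N η ν hν hη hN hNX F hF => ?_⟩
  have := hν.prob
  have hq0 : (0 : ℝ) < q := by exact_mod_cast hq1
  set α : ℝ := k / q with hα
  have hα0 : 0 < α := by rw [hα]; positivity
  have hα1 : α ≤ 1 := by rw [hα, div_le_one hq0]; exact hk2
  set V := A.V i with hV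
  set E0 := En (F ^ q) with hE0
  have hE0' : 0 ≤ E0 := J4.En_nonneg' _
  have h2k : (2 * k : ℝ) ≠ 0 := by positivity
  have hRHS : 0 ≤ max 1 D * E0 ^ α * Real.exp (k ^ 2 * V) := by
    have := le_max_left 1 D
    positivity
  have hY := hA.hY
  have hFs : Sup (Smo (Rst A.p0 (Yg A.v A.Y i))) F := fun n hn => (hF n hn).1
  have hFq : Sup (Smo (Rst A.p0 (Yg A.v A.Y i))) (F ^ q) := sup_pow hFs q
  -- trivial case
  have triv : (∀ t : ℝ, ev t F = 0) → ∫ t, ‖ev t (F * A.EI i)‖ ^ (2 * k) ∂ν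
      ≤ max 1 D * E0 ^ α * Real.exp (k ^ 2 * V) := by
    intro h
    have h1 : ∀ t : ℝ, ‖ev t (F * A.EI i)‖ ^ (2 * k) = 0 := by
      intro t
      rw [map_mul, h t, zero_mul, norm_zero, Real.zero_rpow h2k]
    simp only [h1, integral_zero]
    exact hRHS
  by_cases hEz : E0 = 0
  · refine triv fun t => ?_
    have h1 : F ^ q = 0 := N4.P3.En_eq_zero (fun n hn => Smo_pos (hFq n hn)) hEz
    have h3 : ev t (F ^ q) = 0 := by rw [h1, map_zero]
    rw [map_pow] at h3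
    exact pow_eq_zero_iff (by omega) |>.1 h3
  have hEp : 0 < E0 := lt_of_le_of_ne hE0' (Ne.symm hEz)
  by_cases hN1 : N < 1
  · refine triv fun t => ?_
    have : F = 0 := by
      refine MonoidAlgebra.coeff_injective ?_
      ext n
      by_contra h
      have h1 := hF n (by simpa using h)
      have h2 : (1 : ℝ) ≤ n := by exact_mod_cast Smo_pos h1.1
      linarith [h1.2]
    rw [this, map_zero]
  push Not at hN1
  have hel : Real.exp (A.ell i) ≤ X := by
    have h2 : (1 : ℝ) ≤ N ^ q := one_le_pow₀ hN1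
    nlinarith [Real.exp_pos (A.ell i)]
  -- majorants
  set P1 : Finset ℕ → DP := fun s => F ^ q * (A.EI i ^ q * A.B (k - q) i s) with hP1'
  set P2 : Finset ℕ → DP := fun s => A.B k i s with hP2'
  have hlen := hl A hA i hi
  rw [hAq] at hlen
  have hI1 : ∀ s ∈ (Finset.Ico i A.J).powerset, ∫ t, ‖ev t (P1 s)‖ ^ 2 ∂ν
      ≤ 2 * (E0 * En (A.EI i ^ q * A.B (k - q) i s)) := by
    intro s hs
    have hs2 : Sup (Smo (J4.SU A.v A.p0 A.Y i A.J : Set ℕ)) (A.EI i ^ q * A.B (k - q) i s) :=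
      fun n hn => ((hlen (k - q) s hs n).1 hn).1
    have h1 : En (P1 s) = E0 * En (A.EI i ^ q * A.B (k - q) i s) :=
      N4.P3.En_mul hY i A.J hFq hs2
    rw [← h1]
    refine mean_sq hν hη fun n hn => ?_
    obtain ⟨x, y, hx, hy, rfl⟩ := J4.NInt.coeff_mul_ne hn
    have g1 := len_pow hN1 hF q x hx
    have g3 := (hlen (k - q) s hs y).1 hy
    have g3' : (1 : ℝ) ≤ y := by exact_mod_cast g3.2.1
    refine ⟨Nat.one_le_iff_ne_zero.2 (mul_ne_zero g1.1.1 g3.1.1), ?_⟩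
    have g4 : (y : ℝ) ≤ Real.exp (A.ell i) := by
      rw [← Real.exp_log (by linarith : (0 : ℝ) < y)]
      exact Real.exp_le_exp.2 g3.2.2
    push_cast
    calc (x : ℝ) * y ≤ N ^ q * Real.exp (A.ell i) := by
          gcongr
          exact g1.2
      _ ≤ X := hNX
  have hI2 : ∀ s ∈ (Finset.Ico i A.J).powerset, ∫ t, ‖ev t (P2 s)‖ ^ 2 ∂ν ≤ 2 * En (P2 s) := by
    intro s hs
    refine mean_sq hν hη fun n hn => ?_
    have g3 := (hlen k s hs n).2.1 hn
    refine ⟨g3.2.1, ?_⟩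
    have g3' : (1 : ℝ) ≤ n := by exact_mod_cast g3.2.1
    have g4 : (n : ℝ) ≤ Real.exp (A.ell i) := by
      rw [← Real.exp_log (by linarith : (0 : ℝ) < n)]
      exact Real.exp_le_exp.2 g3.2.2
    linarith
  set EE0 : ℝ := Real.exp (Real.exp (-(A.v : ℝ))) with hEE0
  -- pointwise bound
  have hpt : ∀ t : ℝ, ‖ev t (F * A.EI i)‖ ^ (2 * k)
      ≤ α * (E0 ^ (α - 1) * (EE0 * ∑ s ∈ (Finset.Ico i A.J).powerset, A.W s * ‖ev t (P1 s)‖ ^ 2))
        + (1 - α) * (E0 ^ α * (EE0 * ∑ s ∈ (Finset.Ico i A.J).powerset,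
          A.W s * ‖ev t (P2 s)‖ ^ 2)) := by
    intro t
    obtain ⟨G, H, hG, hH, hz, hGb, hHb⟩ := hp A hA i k hk0 (by rw [hAq]; exact hk1)
      (by rw [hAq]; exact hk2) t
    rw [hAq] at hz hGb
    rw [hz (ev t (F * A.EI i))]
    have h1 := amgm (x := ‖ev t (F * A.EI i)‖ ^ (2 * q) * G) (y := H) (by positivity) hH.le
      hα0.le hα1 hEp
    refine h1.trans (add_le_add ?_ ?_)
    · refine mul_le_mul_of_nonneg_left ?_ hα0.le
      refine mul_le_mul_of_nonneg_left ?_ (Real.rpow_nonneg hE0' _)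
      calc ‖ev t (F * A.EI i)‖ ^ (2 * q) * G
          ≤ ‖ev t (F * A.EI i)‖ ^ (2 * q) * (EE0 * ∑ s ∈ (Finset.Ico i A.J).powerset,
              A.W s * ‖ev t (A.B (k - q) i s)‖ ^ 2) := by gcongr
        _ = EE0 * ∑ s ∈ (Finset.Ico i A.J).powerset, A.W s * ‖ev t (P1 s)‖ ^ 2 := by
            rw [Finset.mul_sum, Finset.mul_sum, Finset.mul_sum]
            refine Finset.sum_congr rfl fun s _ => ?_
            simp only [hP1', map_mul, map_pow, norm_mul, norm_pow]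
            ring
    · refine mul_le_mul_of_nonneg_left ?_ (by linarith)
      exact mul_le_mul_of_nonneg_left hHb (Real.rpow_nonneg hE0' _)
  have hisum : ∀ (P : Finset ℕ → DP), Integrable (fun t : ℝ =>
      ∑ s ∈ (Finset.Ico i A.J).powerset, A.W s * ‖ev t (P s)‖ ^ 2) ν := by
    intro P
    exact integrable_finsetSum _ fun s _ => (integ_sq (P s)).const_mul _
  have hsum : ∀ (P : Finset ℕ → DP), ∫ t, (∑ s ∈ (Finset.Ico i A.J).powerset,
      A.W s * ‖ev t (P s)‖ ^ 2) ∂ν = ∑ s ∈ (Finset.Ico i A.J).powerset,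
      A.W s * ∫ t, ‖ev t (P s)‖ ^ 2 ∂ν := by
    intro P
    rw [integral_finsetSum _ fun s _ => (integ_sq (P s)).const_mul _]
    exact Finset.sum_congr rfl fun s _ => integral_const_mul _ _
  have hv1 : Real.exp (-(A.v : ℝ)) ≤ 1 := Real.exp_le_one_iff.2 (by
    have : (0 : ℝ) ≤ A.v := Nat.cast_nonneg _
    linarith)
  have hp0 : (1 : ℝ) ≤ A.p0 := by
    have := hA.hp
    have h : (1000 : ℝ) ≤ A.p0 := by exact_mod_cast this
    linarith
  -- the two sums
  have hS1 : ∑ s ∈ (Finset.Ico i A.J).powerset, A.W s * ∫ t, ‖ev t (P1 s)‖ ^ 2 ∂ν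
      ≤ 2 * E0 * (Real.exp (CE + CB + 4) * Real.exp (k ^ 2 * V)) := by
    calc ∑ s ∈ (Finset.Ico i A.J).powerset, A.W s * ∫ t, ‖ev t (P1 s)‖ ^ 2 ∂ν
        ≤ ∑ s ∈ (Finset.Ico i A.J).powerset, A.W s * (2 * (E0 *
            En (A.EI i ^ q * A.B (k - q) i s))) :=
          Finset.sum_le_sum fun s hs => mul_le_mul_of_nonneg_left (hI1 s hs) (Wnn A s)
      _ = 2 * E0 * ∑ s ∈ (Finset.Ico i A.J).powerset, A.W s *
            En (A.EI i ^ q * A.B (k - q) i s) := by
          rw [Finset.mul_sum]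
          exact Finset.sum_congr rfl fun s _ => by ring
      _ ≤ 2 * E0 * Real.exp ((q + (k - q)) ^ 2 * A.V i + CE / A.p0
            + 4 * Real.exp (-(A.v : ℝ))) := by
          refine mul_le_mul_of_nonneg_left ?_ (by positivity)
          exact hE A hAq hA i (k - q) (abs_le.2 ⟨by linarith, by linarith⟩)
      _ ≤ 2 * E0 * (Real.exp (CE + CB + 4) * Real.exp (k ^ 2 * V)) := by
          refine mul_le_mul_of_nonneg_left ?_ (by positivity)
          rw [← Real.exp_add]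
          apply Real.exp_le_exp.2
          have e1 : ((q : ℝ) + (k - q)) = k := by ring
          rw [e1]
          have h2 : CE / (A.p0 : ℝ) ≤ CE := div_le_self hCE hp0
          linarith
  have hS2 : ∑ s ∈ (Finset.Ico i A.J).powerset, A.W s * ∫ t, ‖ev t (P2 s)‖ ^ 2 ∂ν
      ≤ 2 * (Real.exp (CE + CB + 4) * Real.exp (k ^ 2 * V)) := by
    calc ∑ s ∈ (Finset.Ico i A.J).powerset, A.W s * ∫ t, ‖ev t (P2 s)‖ ^ 2 ∂ν
        ≤ ∑ s ∈ (Finset.Ico i A.J).powerset, A.W s * (2 * En (P2 s)) :=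
          Finset.sum_le_sum fun s hs => mul_le_mul_of_nonneg_left (hI2 s hs) (Wnn A s)
      _ = 2 * ∑ s ∈ (Finset.Ico i A.J).powerset, A.W s * En (P2 s) := by
          rw [Finset.mul_sum]
          exact Finset.sum_congr rfl fun s _ => by ring
      _ ≤ 2 * Real.exp (k ^ 2 * A.V i + CB / A.p0 + 4 * Real.exp (-(A.v : ℝ))) := by
          refine mul_le_mul_of_nonneg_left ?_ (by positivity)
          exact hB A hAq hA i k (by rw [abs_of_pos hk0]; exact hk2)
      _ ≤ 2 * (Real.exp (CE + CB + 4) * Real.exp (k ^ 2 * V)) := by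
          refine mul_le_mul_of_nonneg_left ?_ (by positivity)
          rw [← Real.exp_add]
          apply Real.exp_le_exp.2
          have h2 : CB / (A.p0 : ℝ) ≤ CB := div_le_self hCB hp0
          linarith
  have hEE1 : EE0 ≤ Real.exp 1 := Real.exp_le_exp.2 hv1
  have hEE0p : 0 ≤ EE0 := (Real.exp_pos _).le
  have e1a : E0 ^ (α - 1) * E0 = E0 ^ α := by
    nth_rewrite 2 [← Real.rpow_one E0]
    rw [← Real.rpow_add hEp]
    congr 1
    ring
  have hSS1 : 0 ≤ ∑ s ∈ (Finset.Ico i A.J).powerset, A.W s * ∫ t, ‖ev t (P1 s)‖ ^ 2 ∂ν :=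
    Finset.sum_nonneg fun s _ => mul_nonneg (Wnn A s) (integral_nonneg fun t => by positivity)
  have hSS2 : 0 ≤ ∑ s ∈ (Finset.Ico i A.J).powerset, A.W s * ∫ t, ‖ev t (P2 s)‖ ^ 2 ∂ν :=
    Finset.sum_nonneg fun s _ => mul_nonneg (Wnn A s) (integral_nonneg fun t => by positivity)
  have hi1 : Integrable (fun t : ℝ => α * (E0 ^ (α - 1) * (EE0 *
      ∑ s ∈ (Finset.Ico i A.J).powerset, A.W s * ‖ev t (P1 s)‖ ^ 2))) ν :=
    (((hisum P1).const_mul _).const_mul _).const_mul _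
  have hi2 : Integrable (fun t : ℝ => (1 - α) * (E0 ^ α * (EE0 *
      ∑ s ∈ (Finset.Ico i A.J).powerset, A.W s * ‖ev t (P2 s)‖ ^ 2))) ν :=
    (((hisum P2).const_mul _).const_mul _).const_mul _
  calc ∫ t, ‖ev t (F * A.EI i)‖ ^ (2 * k) ∂ν
      ≤ ∫ t, (α * (E0 ^ (α - 1) * (EE0 * ∑ s ∈ (Finset.Ico i A.J).powerset,
          A.W s * ‖ev t (P1 s)‖ ^ 2)) + (1 - α) * (E0 ^ α * (EE0 *
          ∑ s ∈ (Finset.Ico i A.J).powerset, A.W s * ‖ev t (P2 s)‖ ^ 2))) ∂ν :=
        integral_mono (integ_rpow _ (by positivity)) (hi1.add hi2) hpt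
    _ = α * (E0 ^ (α - 1) * (EE0 * ∑ s ∈ (Finset.Ico i A.J).powerset,
          A.W s * ∫ t, ‖ev t (P1 s)‖ ^ 2 ∂ν)) + (1 - α) * (E0 ^ α * (EE0 *
          ∑ s ∈ (Finset.Ico i A.J).powerset, A.W s * ∫ t, ‖ev t (P2 s)‖ ^ 2 ∂ν)) := by
        rw [integral_add hi1 hi2, integral_const_mul, integral_const_mul, integral_const_mul,
          integral_const_mul, integral_const_mul, integral_const_mul, hsum, hsum]
    _ ≤ α * (E0 ^ (α - 1) * (Real.exp 1 * (2 * E0 * (Real.exp (CE + CB + 4) *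
          Real.exp (k ^ 2 * V))))) + (1 - α) * (E0 ^ α * (Real.exp 1 * (2 *
          (Real.exp (CE + CB + 4) * Real.exp (k ^ 2 * V))))) := by
        have p1 : 0 ≤ 1 - α := by linarith
        have p2 : 0 ≤ E0 ^ (α - 1) := Real.rpow_nonneg hE0' _
        have p3 : 0 ≤ E0 ^ α := Real.rpow_nonneg hE0' _
        gcongr
    _ = D * (α * (E0 ^ (α - 1) * E0) + (1 - α) * E0 ^ α) * Real.exp (k ^ 2 * V) := by
        rw [hD]; ring
    _ = D * E0 ^ α * Real.exp (k ^ 2 * V) := by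
        rw [e1a]; ring
    _ ≤ max 1 D * E0 ^ α * Real.exp (k ^ 2 * V) := by
        have := le_max_right 1 D
        gcongr

end Pool.Agent.Lib.MS
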