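import Mathlib
import Pool.Agent.Lib.MP_f9aece_nt_ms.StmtsZ

/-!
Mesoscopic moments of zeta, module Z3PsiLip.
-/

set_option autoImplicit false

namespace Pool.Agent.Lib.MS

open MeasureTheory Set Filter Topology Complex

private theorem adm_meas {φ : ℝ → ℂ} {R : ℝ} (h : Adm φ R) : AEStronglyMeasurable φ volume := by
  have h1 := h.int.aestronglyMeasurable
  have h2 : Continuous fun v : ℝ => (((1 + |v| : ℝ) : ℂ))⁻¹ := by
    refine Continuous.inv₀ (by fun_prop) ?_
    intro v
    have : (0 : ℝ) < 1 + |v| := by positivity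
    exact_mod_cast this.ne'
  have h3 := h2.aestronglyMeasurable.mul h1 (μ := volume)
  refine h3.congr (Filter.Eventually.of_forall fun v => ?_)
  have : (((1 + |v| : ℝ) : ℂ)) ≠ 0 := by
    have : (0 : ℝ) < 1 + |v| := by positivity
    exact_mod_cast this.ne'
  simp only [Pi.mul_apply]
  rw [← mul_assoc, inv_mul_cancel₀ this, one_mul]

private theorem norm_wt (φ : ℝ → ℂ) (v : ℝ) :
    ‖((1 + |v| : ℝ) : ℂ) * φ v‖ = (1 + |v|) * ‖φ v‖ := by
  rw [norm_mul, Complex.norm_real, Real.norm_of_nonneg (by positivity)]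

private theorem adm_int {φ : ℝ → ℂ} {R : ℝ} (h : Adm φ R) : Integrable φ := by
  refine h.int.mono (adm_meas h) (Filter.Eventually.of_forall fun v => ?_)
  rw [norm_wt]
  nlinarith [norm_nonneg (φ v), abs_nonneg v]

private theorem norm_ker (r v : ℝ) : ‖cexp (-(I * ((r * v : ℝ) : ℂ)))‖ = 1 := by
  rw [Complex.norm_exp]
  simp

theorem psiLip : PsiLip := by
  intro φ R h
  set M : ℝ := ∫ v, ‖((1 + |v| : ℝ) : ℂ) * φ v‖ with hM
  have hM0 : 0 ≤ M := integral_nonneg fun v => norm_nonneg _
  set ψ' : ℝ → ℂ := fun r => ∫ v, φ v * (cexp (-(I * ((r * v : ℝ) : ℂ))) * (-(I * (v : ℂ))))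
    with hψ'
  have hmeas := adm_meas h
  have hker : ∀ r : ℝ, Continuous fun v : ℝ => cexp (-(I * ((r * v : ℝ) : ℂ))) := by
    intro r; fun_prop
  have hF_meas : ∀ r : ℝ, AEStronglyMeasurable
      (fun v : ℝ => φ v * cexp (-(I * ((r * v : ℝ) : ℂ)))) volume := fun r =>
    hmeas.mul (hker r).aestronglyMeasurable
  have hF'_meas : ∀ r : ℝ, AEStronglyMeasurable
      (fun v : ℝ => φ v * (cexp (-(I * ((r * v : ℝ) : ℂ))) * (-(I * (v : ℂ))))) volume := fun r =>
    hmeas.mul (Continuous.aestronglyMeasurable (by fun_prop))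
  have hF_int : ∀ r : ℝ, Integrable (fun v : ℝ => φ v * cexp (-(I * ((r * v : ℝ) : ℂ)))) := by
    intro r
    refine (adm_int h).mono (hF_meas r) (Filter.Eventually.of_forall fun v => ?_)
    rw [norm_mul, norm_ker, mul_one]
  have hbd : ∀ r v : ℝ, ‖φ v * (cexp (-(I * ((r * v : ℝ) : ℂ))) * (-(I * (v : ℂ))))‖
      ≤ ‖((1 + |v| : ℝ) : ℂ) * φ v‖ := by
    intro r v
    rw [norm_wt, norm_mul, norm_mul, norm_ker, norm_neg, norm_mul, Complex.norm_I,
      Complex.norm_real, Real.norm_eq_abs]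
    nlinarith [norm_nonneg (φ v), abs_nonneg v]
  have hderiv : ∀ r : ℝ, HasDerivAt (psi φ) (ψ' r) r := by
    intro r
    have := (hasDerivAt_integral_of_dominated_loc_of_deriv_le (μ := volume)
      (F := fun (r : ℝ) (v : ℝ) => φ v * cexp (-(I * ((r * v : ℝ) : ℂ))))
      (F' := fun (r : ℝ) (v : ℝ) => φ v * (cexp (-(I * ((r * v : ℝ) : ℂ))) * (-(I * (v : ℂ)))))
      (x₀ := r) (s := Set.univ) (bound := fun v => ‖((1 + |v| : ℝ) : ℂ) * φ v‖)
      Filter.univ_mem (Filter.Eventually.of_forall hF_meas) (hF_int r) (hF'_meas r)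
      (Filter.Eventually.of_forall fun v r _ => hbd r v) h.int.norm
      (Filter.Eventually.of_forall fun v r _ => ?_)).2
    · exact this
    · have h1 : HasDerivAt (fun r : ℝ => -(I * ((r * v : ℝ) : ℂ))) (-(I * (v : ℂ))) r := by
        have h2 : HasDerivAt (fun r : ℝ => ((r * v : ℝ) : ℂ)) (v : ℂ) r := by
          have h3 : HasDerivAt (fun r : ℝ => r * v) (1 * v) r := (hasDerivAt_id r).mul_const v
          rw [one_mul] at h3
          exact h3.ofReal_comp
        exact (h2.const_mul I).neg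
      exact (h1.cexp).const_mul (φ v)
  have hψ'b : ∀ r : ℝ, ‖ψ' r‖ ≤ M := by
    intro r
    refine (norm_integral_le_integral_norm _).trans ?_
    refine integral_mono_of_nonneg (Filter.Eventually.of_forall fun v => norm_nonneg _)
      h.int.norm (Filter.Eventually.of_forall fun v => hbd r v)
  have hψb : ∀ r : ℝ, ‖psi φ r‖ ≤ M := by
    intro r
    refine (norm_integral_le_integral_norm _).trans ?_
    refine integral_mono_of_nonneg (Filter.Eventually.of_forall fun v => norm_nonneg _)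
      h.int.norm (Filter.Eventually.of_forall fun v => ?_)
    simp only
    rw [norm_wt, norm_mul, norm_ker]
    nlinarith [norm_nonneg (φ v), abs_nonneg v]
  have hψ'c : Continuous ψ' := by
    refine continuous_of_dominated hF'_meas (bound := fun v => ‖((1 + |v| : ℝ) : ℂ) * φ v‖)
      (fun r => Filter.Eventually.of_forall fun v => hbd r v) h.int.norm
      (Filter.Eventually.of_forall fun v => ?_)
    fun_prop
  refine ⟨max 1 M, ψ', le_max_left _ _, fun r => (hψb r).trans (le_max_right _ _), ?_, hderiv,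
    hψ'c, fun r => (hψ'b r).trans (le_max_right _ _)⟩
  intro r s
  have := Convex.norm_image_sub_le_of_norm_hasDerivWithin_le (f := psi φ) (f' := ψ') (C := max 1 M)
    (s := Set.univ) (x := s) (y := r) (fun x _ => (hderiv x).hasDerivWithinAt)
    (fun x _ => (hψ'b x).trans (le_max_right _ _)) convex_univ (Set.mem_univ _) (Set.mem_univ _)
  rwa [Real.norm_eq_abs] at this

end Pool.Agent.Lib.MS
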