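import Mathlib
import Pool.Agent.Lib.MP_f9aece_nt_ms.StmtsZ

/-!
Mesoscopic moments of zeta, module Z4ResBound.
-/

set_option autoImplicit false

namespace Pool.Agent.Lib.MS

open MeasureTheory Set Filter Topology Complex

private theorem norm_cexp_line (t ρ : ℝ) : ‖cexp ((1 / 2 - I * t) * ρ)‖ = Real.exp (ρ / 2) := by
  rw [Complex.norm_exp]
  congr 1
  simp
  ring

private theorem int_exp_half (a : ℝ) :
    ∫ ρ in (-a)..a, Real.exp (ρ / 2) ≤ 2 * Real.exp (a / 2) := by
  have h1 : ∫ ρ in (-a)..a, Real.exp (ρ / 2) = 2 * (Real.exp (a / 2) - Real.exp (-a / 2)) := by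
    rw [intervalIntegral.integral_comp_div (fun x => Real.exp x) (two_ne_zero), integral_exp]
    simp
  rw [h1]
  have := Real.exp_pos (-a / 2)
  linarith

private theorem int_bound (f : ℝ → ℂ) (B a t : ℝ) (ha : 0 ≤ a)
    (hb : ∀ ρ, ‖f ρ‖ ≤ B) :
    ‖∫ ρ in (-a)..a, cexp ((1 / 2 - I * t) * ρ) * f ρ‖ ≤ B * (2 * Real.exp (a / 2)) := by
  have hB : 0 ≤ B := (norm_nonneg _).trans (hb 0)
  have h1 : ‖∫ ρ in (-a)..a, cexp ((1 / 2 - I * t) * ρ) * f ρ‖
      ≤ ∫ ρ in (-a)..a, B * Real.exp (ρ / 2) := by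
    refine intervalIntegral.norm_integral_le_of_norm_le (by linarith)
      (Filter.Eventually.of_forall fun ρ _ => ?_) (Continuous.intervalIntegrable (by fun_prop) _ _)
    rw [norm_mul, norm_cexp_line, mul_comm]
    exact mul_le_mul_of_nonneg_right (hb ρ) (Real.exp_pos _).le
  refine h1.trans ?_
  rw [intervalIntegral.integral_const_mul]
  exact mul_le_mul_of_nonneg_left (int_exp_half a) hB

theorem resBound (h : PsiLip) : ResBound := by
  intro φ R hA
  obtain ⟨B, ψ', hB1, hψ, -, hd, hc, hψ'⟩ := h φ R hA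
  have hB0 : 0 ≤ B := by linarith
  refine ⟨4 * B, by linarith, ?_⟩
  intro H t hH hH1
  set a : ℝ := R / H with ha_def
  have hR := hA.hR
  have ha : 0 ≤ a := by positivity
  have hHa : H * a = R := by rw [ha_def]; field_simp
  have hψc : Continuous (psi φ) := continuous_iff_continuousAt.2 fun r => (hd r).continuousAt
  have hexp : Real.exp (R / (2 * H)) = Real.exp (a / 2) := by
    congr 1; rw [ha_def]; field_simp
  have hE : 0 < Real.exp (a / 2) := Real.exp_pos _
  have h1 : ‖Res φ R H t‖ ≤ B * (2 * Real.exp (a / 2)) :=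
    int_bound (fun ρ => psi φ (H * ρ)) B a t ha (fun ρ => hψ _)
  have h2 : ‖(1 / 2 - I * t : ℂ) * Res φ R H t‖ ≤ (H * B) * (2 * Real.exp (a / 2)) := by
    have hu : ∀ ρ : ℝ, HasDerivAt (fun ρ : ℝ => psi φ (H * ρ)) ((H : ℂ) * ψ' (H * ρ)) ρ := by
      intro ρ
      have h3 : HasDerivAt (fun ρ : ℝ => H * ρ) H ρ := by
        simpa using (hasDerivAt_id ρ).const_mul H
      have h4 := HasDerivAt.scomp ρ (hd (H * ρ)) h3
      simpa [Function.comp_def] using h4
    have hv : ∀ ρ : ℝ, HasDerivAt (fun ρ : ℝ => cexp ((1 / 2 - I * t) * ρ))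
        ((1 / 2 - I * t) * cexp ((1 / 2 - I * t) * ρ)) ρ := by
      intro ρ
      have h3 : HasDerivAt (fun ρ : ℝ => (1 / 2 - I * t) * (ρ : ℂ)) (1 / 2 - I * t) ρ := by
        simpa using ((hasDerivAt_id ρ).ofReal_comp).const_mul (1 / 2 - I * t : ℂ)
      simpa [mul_comm] using h3.cexp
    have hparts := intervalIntegral.integral_mul_deriv_eq_deriv_mul (a := -a) (b := a)
      (u := fun ρ : ℝ => psi φ (H * ρ)) (v := fun ρ : ℝ => cexp ((1 / 2 - I * t) * ρ))
      (u' := fun ρ => (H : ℂ) * ψ' (H * ρ))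
      (v' := fun ρ => (1 / 2 - I * t) * cexp ((1 / 2 - I * t) * ρ))
      (fun ρ _ => hu ρ) (fun ρ _ => hv ρ)
      (Continuous.intervalIntegrable (by fun_prop) _ _)
      (Continuous.intervalIntegrable (by fun_prop) _ _)
    have hz1 : psi φ (H * a) = 0 := hA.supp _ (by rw [hHa]; exact le_abs_self R)
    have hz2 : psi φ (H * -a) = 0 := hA.supp _ (by
      rw [mul_neg, hHa, abs_neg]; exact le_abs_self R)
    have hlhs : (1 / 2 - I * t : ℂ) * Res φ R H t
        = ∫ ρ in (-a)..a, psi φ (H * ρ) * ((1 / 2 - I * t) * cexp ((1 / 2 - I * t) * ρ)) := by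
      unfold Res
      rw [← intervalIntegral.integral_const_mul]
      refine intervalIntegral.integral_congr fun ρ _ => ?_
      ring
    rw [hlhs, hparts, hz1, hz2]
    simp only [zero_mul, sub_zero, zero_sub, norm_neg]
    have h5 : (∫ ρ in (-a)..a, (H : ℂ) * ψ' (H * ρ) * cexp ((1 / 2 - I * t) * ρ))
        = ∫ ρ in (-a)..a, cexp ((1 / 2 - I * t) * ρ) * ((H : ℂ) * ψ' (H * ρ)) := by
      refine intervalIntegral.integral_congr fun ρ _ => ?_
      ring
    rw [h5]
    refine int_bound (fun ρ => (H : ℂ) * ψ' (H * ρ)) (H * B) a t ha (fun ρ => ?_)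
    rw [norm_mul, Complex.norm_real, Real.norm_of_nonneg hH.le]
    exact mul_le_mul_of_nonneg_left (hψ' _) hH.le
  have h3 : |t| ≤ ‖(1 / 2 - I * t : ℂ)‖ := by
    have := Complex.abs_im_le_norm (1 / 2 - I * t : ℂ)
    simpa using this
  have h4 : |t| * ‖Res φ R H t‖ ≤ B * (2 * Real.exp (a / 2)) := by
    calc |t| * ‖Res φ R H t‖ ≤ ‖(1 / 2 - I * t : ℂ)‖ * ‖Res φ R H t‖ :=
          mul_le_mul_of_nonneg_right h3 (norm_nonneg _)
      _ = ‖(1 / 2 - I * t : ℂ) * Res φ R H t‖ := (norm_mul _ _).symm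
      _ ≤ (H * B) * (2 * Real.exp (a / 2)) := h2
      _ ≤ B * (2 * Real.exp (a / 2)) := by
          refine mul_le_mul_of_nonneg_right ?_ (by positivity)
          nlinarith
  rw [hexp, le_div_iff₀ (by positivity)]
  nlinarith [norm_nonneg (Res φ R H t), abs_nonneg t]

end Pool.Agent.Lib.MS
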