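import Pool.Agent.Lib.MP_f9aece_nt_ms.StmtsZ

/-!
Mesoscopic moments of zeta, module Z5: moments of a function of size `1 / (1 + |t|)`.
-/

set_option autoImplicit false

namespace Pool.Agent.Lib.MS

open MeasureTheory Set

theorem resMom : ResMom := by
  intro k hk T x hT
  have hT0 : 0 < T := by linarith
  have hs : 0 ≤ √T := Real.sqrt_nonneg T
  let S : Set ℝ := Icc (-√T) (√T)
  -- pointwise bound
  have hpt : ∀ t : ℝ, (1 / (1 + |t|)) ^ (2 * k) ≤ S.indicator (fun _ => (1 : ℝ)) t + T ^ (-k) := by
    intro t
    have hTk : 0 ≤ T ^ (-k) := Real.rpow_nonneg hT0.le _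
    by_cases ht : t ∈ S
    · rw [indicator_of_mem ht]
      have h1 : (1 / (1 + |t|)) ^ (2 * k) ≤ 1 := by
        apply Real.rpow_le_one (by positivity) _ (by positivity)
        rw [div_le_one (by positivity)]
        linarith [abs_nonneg t]
      linarith
    · rw [indicator_of_notMem ht, zero_add]
      have h1 : √T ≤ 1 + |t| := by
        have h2 : √T < |t| := by
          by_contra h
          push Not at h
          exact ht (abs_le.1 h)
        linarith
      have h2 : 1 / (1 + |t|) ≤ 1 / √T :=
        one_div_le_one_div_of_le (Real.sqrt_pos.2 hT0) h1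
      have h3 : (1 / (1 + |t|)) ^ (2 * k) ≤ (1 / √T) ^ (2 * k) :=
        Real.rpow_le_rpow (by positivity) h2 (by positivity)
      refine h3.trans (le_of_eq ?_)
      rw [Real.sqrt_eq_rpow, one_div, ← Real.rpow_neg hT0.le, ← Real.rpow_mul hT0.le]
      congr 1
      ring
  have hcont : Continuous fun t : ℝ => (1 / (1 + |t|)) ^ (2 * k) := by
    apply Continuous.rpow_const
    · apply Continuous.div continuous_const (by fun_prop)
      intro t
      positivity
    · intro t
      right
      positivity
  have hind : IntervalIntegrable (fun t => S.indicator (fun _ => (1 : ℝ)) t + T ^ (-k)) volume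
      x (x + T) := by
    apply IntervalIntegrable.add _ intervalIntegrable_const
    rw [intervalIntegrable_iff]
    apply Integrable.indicator _ measurableSet_Icc
    exact integrable_const_iff.2 (Or.inr (by
      rw [isFiniteMeasure_restrict]
      simp [uIoc_of_le (by linarith : x ≤ x + T)]))
  have h1 : ∫ t in x..(x + T), (1 / (1 + |t|)) ^ (2 * k) ≤
      ∫ t in x..(x + T), (S.indicator (fun _ => (1 : ℝ)) t + T ^ (-k)) :=
    intervalIntegral.integral_mono_on (by linarith) (hcont.intervalIntegrable _ _) hind
      fun t _ => hpt t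
  have h2 : ∫ t in x..(x + T), (S.indicator (fun _ => (1 : ℝ)) t + T ^ (-k)) ≤
      2 * √T + T * T ^ (-k) := by
    have hind1 : IntervalIntegrable (fun t => S.indicator (fun _ => (1 : ℝ)) t) volume
        x (x + T) := by
      have := hind.sub (intervalIntegrable_const (c := T ^ (-k)))
      simpa using this
    rw [intervalIntegral.integral_add hind1 intervalIntegrable_const]
    rw [intervalIntegral.integral_const, add_sub_cancel_left, smul_eq_mul]
    apply add_le_add_left
    rw [intervalIntegral.integral_of_le (by linarith), integral_indicator measurableSet_Icc,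
      Measure.restrict_restrict measurableSet_Icc, setIntegral_const, smul_eq_mul, mul_one]
    have hfin : volume S ≠ ⊤ := by
      show volume (Icc (-√T) (√T)) ≠ ⊤
      rw [Real.volume_Icc]
      exact ENNReal.ofReal_ne_top
    have h3 : (volume : Measure ℝ).real (S ∩ Ioc x (x + T)) ≤ (volume : Measure ℝ).real S :=
      measureReal_mono inter_subset_left hfin
    refine h3.trans ?_
    rw [Measure.real, Real.volume_Icc, ENNReal.toReal_ofReal (by linarith)]
    linarith
  have h3 : T⁻¹ * (∫ t in x..(x + T), (1 / (1 + |t|)) ^ (2 * k)) ≤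
      T⁻¹ * (2 * √T + T * T ^ (-k)) :=
    mul_le_mul_of_nonneg_left (h1.trans h2) (by positivity)
  refine h3.trans ?_
  have h4 : T⁻¹ * (2 * √T + T * T ^ (-k)) = 2 * T ^ (-(1 / 2 : ℝ)) + T ^ (-k) := by
    rw [mul_add, ← mul_assoc T⁻¹ T, inv_mul_cancel₀ hT0.ne', one_mul, Real.sqrt_eq_rpow]
    congr 1
    rw [mul_left_comm, ← Real.rpow_neg_one, ← Real.rpow_add hT0]
    norm_num
  rw [h4]
  have h5 : T ^ (-(1 / 2 : ℝ)) ≤ T ^ (-(min k (1 / 2))) :=
    Real.rpow_le_rpow_of_exponent_le hT (neg_le_neg (min_le_right _ _))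
  have h6 : T ^ (-k) ≤ T ^ (-(min k (1 / 2))) :=
    Real.rpow_le_rpow_of_exponent_le hT (neg_le_neg (min_le_left _ _))
  linarith

end Pool.Agent.Lib.MS
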