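import Mathlib
import Pool.Agent.Lib.MP_f9aece_nt_ms.Coeffs

/-!
Mesoscopic moments of zeta, module Q17: the numerical inequality for the sum over the windows.
-/

set_option autoImplicit false

namespace Pool.Agent.Lib.MS

open MeasureTheory Set Filter Topology Complex
open scoped ComplexConjugate
open scoped ArithmeticFunction.Omega
open Pool.Agent.Lib.MP_f9aece_nt (DP pair BK K1 ev PP VV Smo expo EE)
open Pool.Agent.Lib.MP_f9aece_nt_h40 (ind)
open Pool.Agent.Lib.MP_f9aece_nt_h85 (rz Rst)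
open Pool.Agent.Lib.J4 (Sg Yg Jok Vs En V2 SU)
open Pool.Agent.Lib.N4 (OmS)

/-- the exponent inequality of the first part -/
private lemma q17_expo {k θ x I c : ℝ} (hk : 0 < k) (hθ1 : θ < 1) (hx : 0 ≤ x)
    (hI : I = 0 ∨ I = 1 ∨ 2 ≤ I) (hc1 : c ≤ 3 * (1 - θ)) (hc2 : c ≤ 1 / 2) :
    k * θ * (x * (2 + (I + 1) * (I + 2) / 2)) - 2 * k * (x * (2 + I * (I + 1) / 2))
      ≤ (-(k * x) - 2 * k * x * (1 - θ)) - k * x * c * I := by
  have hkx : 0 ≤ k * x := by positivity
  have key : θ * (2 + (I + 1) * (I + 2) / 2) - 2 * (2 + I * (I + 1) / 2)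
      ≤ -1 - 2 * (1 - θ) - c * I := by
    rcases hI with h | h | h
    · subst h; nlinarith
    · subst h; nlinarith
    · have h1 : θ * ((I + 1) * (I + 2) / 2) ≤ (I + 1) * (I + 2) / 2 := by
        have : 0 ≤ (I + 1) * (I + 2) / 2 := by positivity
        nlinarith
      have h2 : c * I ≤ 1 / 2 * I := by nlinarith
      nlinarith [mul_nonneg (by linarith : (0 : ℝ) ≤ I) (by linarith : (0 : ℝ) ≤ I - 2)]
  have := mul_le_mul_of_nonneg_left key hkx
  nlinarith [this]

/-- the exponent inequality of the second part -/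
private lemma q17_expo2 {k q θ x I : ℝ} (hk : 0 < k) (hq : 1 ≤ q) (hθ0 : 0 ≤ θ) (hθ1 : θ < 1)
    (hx : 0 ≤ x) (hI : 0 ≤ I) (hx2 : (2 * k + 1) * Real.log 16 ≤ k * x) :
    k * θ * (x * (2 + (I + 1) * (I + 2) / 2)) +
      (-(50000 * q * k * x * (I + 1) ^ 2 * Real.log 2) + 4 * q * k * x * (I + 1))
      ≤ (-(k * x) - 2 * k * x * (1 - θ)) - (2 * k + 1) * I * Real.log 16 := by
  have hkx : 0 ≤ k * x := by positivity
  have hl2 : (0.69 : ℝ) < Real.log 2 := by linarith [Real.log_two_gt_d9]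
  have h1 : (2 * k + 1) * I * Real.log 16 ≤ k * x * I := by nlinarith
  have hqkx : k * x ≤ q * k * x := by nlinarith
  have hqkx0 : 0 ≤ q * k * x := by positivity
  have h2 : 50000 * q * k * x * (I + 1) ^ 2 * Real.log 2 ≥ 30000 * (q * k * x) * (I + 1) ^ 2 := by
    have h3 : 0 ≤ q * k * x * (I + 1) ^ 2 := by positivity
    nlinarith
  have h4 : k * θ * (x * (2 + (I + 1) * (I + 2) / 2)) ≤ q * k * x * (3 * (I + 1) ^ 2) := by
    have h5 : k * θ * (x * (2 + (I + 1) * (I + 2) / 2))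
        = θ * (k * x * (2 + (I + 1) * (I + 2) / 2)) := by ring
    have h6 : 0 ≤ k * x * (2 + (I + 1) * (I + 2) / 2) := by positivity
    have h7 : θ * (k * x * (2 + (I + 1) * (I + 2) / 2)) ≤ k * x * (2 + (I + 1) * (I + 2) / 2) := by
      nlinarith
    have h8 : 2 + (I + 1) * (I + 2) / 2 ≤ 3 * (I + 1) ^ 2 := by nlinarith
    have h9 : k * x * (2 + (I + 1) * (I + 2) / 2) ≤ k * x * (3 * (I + 1) ^ 2) :=
      mul_le_mul_of_nonneg_left h8 hkx
    have h10 : k * x * (3 * (I + 1) ^ 2) ≤ q * k * x * (3 * (I + 1) ^ 2) :=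
      mul_le_mul_of_nonneg_right hqkx (by positivity)
    linarith
  have h11 : 4 * q * k * x * (I + 1) ≤ 4 * (q * k * x) * (I + 1) ^ 2 := by
    have : I + 1 ≤ (I + 1) ^ 2 := by nlinarith
    nlinarith
  have h12 : k * x * I ≤ q * k * x * (I + 1) ^ 2 := by
    have : I ≤ (I + 1) ^ 2 := by nlinarith
    nlinarith
  have h13 : k * x ≤ q * k * x * (I + 1) ^ 2 := by
    have : 1 ≤ (I + 1) ^ 2 := by nlinarith
    nlinarith
  have h14 : 2 * k * x * (1 - θ) ≤ 2 * (q * k * x * (I + 1) ^ 2) := by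
    have : k * x * (1 - θ) ≤ k * x := by nlinarith
    linarith
  have h15 : 0 ≤ q * k * x * (I + 1) ^ 2 := by positivity
  nlinarith

theorem numWin : NumWin := by
  intro q k hq hk hqk hkq
  set θ : ℝ := (q : ℝ) - k with hθ
  have hθ0 : 0 ≤ θ := by rw [hθ]; linarith
  have hθ1 : θ < 1 := by rw [hθ]; linarith
  have hq1 : (1 : ℝ) ≤ q := by exact_mod_cast hq
  have hq0 : (0 : ℝ) < q := by linarith
  set c : ℝ := min (3 * (1 - θ)) (1 / 2) with hc
  have hc0 : 0 < c := lt_min (by linarith) (by norm_num)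
  have hc1 : c ≤ 3 * (1 - θ) := min_le_left _ _
  have hc2 : c ≤ 1 / 2 := min_le_right _ _
  have hl16 : 0 < Real.log 16 := Real.log_pos (by norm_num)
  obtain ⟨v1, hv1⟩ := exists_nat_ge ((3 * k + 1) * Real.log 16 / (k * c))
  obtain ⟨v2, hv2⟩ := exists_nat_ge ((2 * k + 1) * Real.log 16 / k)
  have hC1 : 1 ≤ ((50000 : ℝ) * q ^ 2) ^ (2 * k) := by
    apply Real.one_le_rpow _ (by positivity)
    nlinarith
  refine ⟨2 * ((50000 : ℝ) * q ^ 2) ^ (2 * k), max v1 (max v2 1), by linarith, ?_⟩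
  intro A hAq hv hA L hY hL i hi
  set x : ℝ := (A.v : ℝ) with hx
  set I : ℝ := (i : ℝ) with hIdef
  have hxv : ((max v1 (max v2 1) : ℕ) : ℝ) ≤ x := by rw [hx]; exact_mod_cast hv
  have hx1 : (v1 : ℝ) ≤ x := le_trans (by exact_mod_cast le_max_left _ _) hxv
  have hx2 : (v2 : ℝ) ≤ x := le_trans
    (by exact_mod_cast le_trans (le_max_left _ _) (le_max_right _ _)) hxv
  have hx3 : (1 : ℝ) ≤ x := le_trans
    (by exact_mod_cast le_trans (le_max_right v2 1) (le_max_right _ _)) hxv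
  have hx0 : (0 : ℝ) < x := by linarith
  have hI0 : 0 ≤ I := by rw [hIdef]; positivity
  have hI : I = 0 ∨ I = 1 ∨ 2 ≤ I := by
    rcases Nat.lt_or_ge i 2 with h | h
    · interval_cases i
      · left; simp [hIdef]
      · right; left; simp [hIdef]
    · right; right; rw [hIdef]; exact_mod_cast h
  have hkx1 : (3 * k + 1) * Real.log 16 ≤ k * x * c := by
    have h1 := le_trans hv1 hx1
    rw [div_le_iff₀ (by positivity)] at h1
    linarith
  have hkx2 : (2 * k + 1) * Real.log 16 ≤ k * x := by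
    have h1 := le_trans hv2 hx2
    rw [div_le_iff₀ hk] at h1
    linarith
  have hL0 : 0 < L := by linarith
  -- the scales
  have hy0 : A.y i = L * Real.exp (-(x * (2 + I * (I + 1) / 2))) := by
    simp only [Par.y, Yg, hY]
    rw [mul_assoc, ← Real.exp_add]
    congr 2
    simp only [hx, hIdef]; ring
  have hy1 : A.y (i + 1) = L * Real.exp (-(x * (2 + (I + 1) * (I + 2) / 2))) := by
    simp only [Par.y, Yg, hY]
    rw [mul_assoc, ← Real.exp_add]
    congr 2
    simp only [hx, hIdef]; push_cast; ring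
  have hκ : (A.κ i : ℝ) = 50000 * (q : ℝ) ^ 2 * x * (I + 1) ^ 2 := by
    simp only [Par.κ, Par.r, hAq]
    push_cast
    simp only [hx, hIdef]; ring
  set y1 : ℝ := A.y (i + 1) with hy1def
  have hy1p : 0 < y1 := by rw [hy1]; positivity
  set w : ℝ := L / (y1 + 1) with hw
  have hw0 : 0 < w := by rw [hw]; positivity
  have hwy : y1 + 1 = L / w := by rw [hw]; field_simp
  have hwle : w ≤ Real.exp (x * (2 + (I + 1) * (I + 2) / 2)) := by
    rw [hw, div_le_iff₀ (by positivity)]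
    have h1 : Real.exp (x * (2 + (I + 1) * (I + 2) / 2)) * y1 = L := by
      rw [hy1, mul_left_comm, ← Real.exp_add]; simp
    nlinarith [Real.exp_pos (x * (2 + (I + 1) * (I + 2) / 2))]
  set E : ℝ := Real.exp (k * θ * (x * (2 + (I + 1) * (I + 2) / 2))) with hE
  have hwE : w ^ (k * θ) ≤ E := by
    calc w ^ (k * θ) ≤ (Real.exp (x * (2 + (I + 1) * (I + 2) / 2))) ^ (k * θ) :=
          Real.rpow_le_rpow hw0.le hwle (by positivity)
      _ = E := by rw [← Real.exp_mul, hE]; congr 1; ring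
  -- first part
  set A1 : ℝ := ((A.κ i : ℝ) * A.y i / L) ^ (2 * q) with hA1
  set A2 : ℝ := (1 / 2 : ℝ) ^ A.κ i * Real.exp (4 * (q : ℝ) ^ 2 * x * (I + 1)) with hA2
  have hA10 : 0 ≤ A1 := by rw [hA1]; rw [hκ, hy0]; positivity
  have hA20 : 0 ≤ A2 := by rw [hA2]; positivity
  have hkq0 : 0 ≤ k / q := by positivity
  have hkq1 : k / q ≤ 1 := by rw [div_le_one hq0]; exact hkq
  have hP1 : A1 ^ (k / q) ≤ ((50000 : ℝ) * q ^ 2) ^ (2 * k) * x ^ (2 * k) *
      (Real.exp (k * I * Real.log 16) * Real.exp (-(2 * k * (x * (2 + I * (I + 1) / 2))))) := by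
    have h1 : (A.κ i : ℝ) * A.y i / L = ((50000 : ℝ) * q ^ 2) * x * ((I + 1) ^ 2 *
        Real.exp (-(x * (2 + I * (I + 1) / 2)))) := by
      rw [hκ, hy0]; field_simp
    have h2 : A1 ^ (k / q) = ((A.κ i : ℝ) * A.y i / L) ^ (2 * k) := by
      rw [hA1, ← Real.rpow_natCast, ← Real.rpow_mul (by rw [h1]; positivity)]
      congr 1
      push_cast; field_simp
    rw [h2, h1, Real.mul_rpow (by positivity) (by positivity),
      Real.mul_rpow (x := (50000 : ℝ) * (q : ℝ) ^ 2) (y := x) (by positivity) (by positivity),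
      Real.mul_rpow (x := (I + 1) ^ 2) (by positivity) (by positivity)]
    apply mul_le_mul_of_nonneg_left _ (by positivity)
    apply mul_le_mul
    · have h3 : (I + 1) ^ 2 ≤ Real.exp (2 * I * Real.log 2) := by
        have h4 : I + 1 ≤ Real.exp (I * Real.log 2) := by
          rw [mul_comm, Real.exp_mul, Real.exp_log (by norm_num), hIdef, Real.rpow_natCast]
          exact_mod_cast Nat.lt_two_pow_self (n := i)
        calc (I + 1) ^ 2 ≤ (Real.exp (I * Real.log 2)) ^ 2 := by gcongr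
          _ = Real.exp (2 * I * Real.log 2) := by
            rw [← Real.exp_nat_mul]; congr 1; push_cast; ring
      calc ((I + 1) ^ 2) ^ (2 * k) ≤ (Real.exp (2 * I * Real.log 2)) ^ (2 * k) :=
            Real.rpow_le_rpow (by positivity) h3 (by positivity)
        _ = Real.exp (k * I * Real.log 16) := by
            rw [← Real.exp_mul]
            congr 1
            have : Real.log 16 = 4 * Real.log 2 := by
              rw [show (16 : ℝ) = 2 ^ 4 by norm_num, Real.log_pow]; norm_num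
            rw [this]; ring
    · rw [← Real.exp_mul]
      apply le_of_eq; congr 1; ring
    · positivity
    · positivity
  have hP2 : A2 ^ (k / q) = Real.exp (-(50000 * q * k * x * (I + 1) ^ 2 * Real.log 2) +
      4 * q * k * x * (I + 1)) := by
    have h1 : A2 = Real.exp (-((A.κ i : ℝ) * Real.log 2) + 4 * (q : ℝ) ^ 2 * x * (I + 1)) := by
      rw [hA2, Real.exp_add]
      congr 1
      rw [← mul_neg, Real.exp_nat_mul, Real.exp_neg, Real.exp_log (by norm_num)]
      norm_num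
    rw [h1, ← Real.exp_mul, hκ]
    congr 1
    field_simp
  have hmain : (w ^ (q ^ 2) * (A1 + A2)) ^ (k / q) * (y1 + 1) ^ (k ^ 2)
      ≤ L ^ (k ^ 2) * (E * (A1 ^ (k / q) + A2 ^ (k / q))) := by
    rw [Real.mul_rpow (by positivity) (by positivity)]
    have h1 : (w ^ (q ^ 2)) ^ (k / q) = w ^ ((q : ℝ) * k) := by
      rw [← Real.rpow_natCast, ← Real.rpow_mul hw0.le]
      congr 1
      push_cast; field_simp
    have h2 : w ^ ((q : ℝ) * k) * (y1 + 1) ^ (k ^ 2) = L ^ (k ^ 2) * w ^ (k * θ) := by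
      rw [hwy, Real.div_rpow hL0.le hw0.le]
      have h3 : k * θ = (q : ℝ) * k - k ^ 2 := by rw [hθ]; ring
      rw [h3, Real.rpow_sub hw0]
      ring
    calc (w ^ (q ^ 2)) ^ (k / q) * (A1 + A2) ^ (k / q) * (y1 + 1) ^ (k ^ 2)
        = (w ^ ((q : ℝ) * k) * (y1 + 1) ^ (k ^ 2)) * (A1 + A2) ^ (k / q) := by rw [h1]; ring
      _ = L ^ (k ^ 2) * (w ^ (k * θ) * (A1 + A2) ^ (k / q)) := by rw [h2]; ring
      _ ≤ L ^ (k ^ 2) * (E * (A1 ^ (k / q) + A2 ^ (k / q))) := by
          apply mul_le_mul_of_nonneg_left _ (by positivity)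
          apply mul_le_mul hwE (Real.rpow_add_le_add_rpow hA10 hA20 hkq0 hkq1)
            (by positivity) (by positivity)
  refine hmain.trans ?_
  have h16 : (1 / 16 : ℝ) ^ ((2 * k + 1) * I) = Real.exp (-((2 * k + 1) * I * Real.log 16)) := by
    rw [Real.rpow_def_of_pos (by norm_num), one_div, Real.log_inv]
    congr 1; ring
  have hx2k : 1 ≤ x ^ (2 * k) := Real.one_le_rpow hx3 (by positivity)
  set G : ℝ := (1 / 16 : ℝ) ^ ((2 * k + 1) * I) *
    Real.exp (-(k * x) - 2 * k * x * (1 - θ)) with hG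
  have hG0 : 0 < G := by rw [hG]; positivity
  have hS1 : E * A1 ^ (k / q) ≤ ((50000 : ℝ) * q ^ 2) ^ (2 * k) * x ^ (2 * k) * G := by
    calc E * A1 ^ (k / q) ≤ E * (((50000 : ℝ) * q ^ 2) ^ (2 * k) * x ^ (2 * k) *
          (Real.exp (k * I * Real.log 16) * Real.exp (-(2 * k * (x * (2 + I * (I + 1) / 2)))))) :=
          mul_le_mul_of_nonneg_left hP1 (by positivity)
      _ = ((50000 : ℝ) * q ^ 2) ^ (2 * k) * x ^ (2 * k) * (Real.exp (
            k * θ * (x * (2 + (I + 1) * (I + 2) / 2)) - 2 * k * (x * (2 + I * (I + 1) / 2))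
              + k * I * Real.log 16)) := by
          rw [hE, show k * θ * (x * (2 + (I + 1) * (I + 2) / 2)) - 2 * k * (x * (2 + I * (I + 1) / 2))
              + k * I * Real.log 16 = k * θ * (x * (2 + (I + 1) * (I + 2) / 2)) +
              (k * I * Real.log 16 + -(2 * k * (x * (2 + I * (I + 1) / 2)))) by ring,
            Real.exp_add, Real.exp_add]
          ring
      _ ≤ ((50000 : ℝ) * q ^ 2) ^ (2 * k) * x ^ (2 * k) * G := by
          apply mul_le_mul_of_nonneg_left _ (by positivity)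
          rw [hG, h16, ← Real.exp_add]
          apply Real.exp_le_exp.2
          have h1 := q17_expo hk hθ1 hx0.le hI hc1 hc2
          have h2 : (3 * k + 1) * Real.log 16 * I ≤ k * x * c * I :=
            mul_le_mul_of_nonneg_right hkx1 hI0
          nlinarith
  have hS2 : E * A2 ^ (k / q) ≤ G := by
    rw [hP2, hE, ← Real.exp_add, hG, h16, ← Real.exp_add]
    apply Real.exp_le_exp.2
    have h1 := q17_expo2 (q := (q : ℝ)) hk hq1 hθ0 hθ1 hx0.le hI0 hkx2
    linarith
  have hS2' : E * A2 ^ (k / q) ≤ ((50000 : ℝ) * q ^ 2) ^ (2 * k) * x ^ (2 * k) * G := by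
    refine hS2.trans ?_
    have : 1 ≤ ((50000 : ℝ) * q ^ 2) ^ (2 * k) * x ^ (2 * k) := by nlinarith
    nlinarith
  calc L ^ (k ^ 2) * (E * (A1 ^ (k / q) + A2 ^ (k / q)))
      = L ^ (k ^ 2) * (E * A1 ^ (k / q) + E * A2 ^ (k / q)) := by ring
    _ ≤ L ^ (k ^ 2) * (2 * (((50000 : ℝ) * q ^ 2) ^ (2 * k) * x ^ (2 * k) * G)) := by
        apply mul_le_mul_of_nonneg_left _ (by positivity)
        linarith
    _ = 2 * ((50000 : ℝ) * q ^ 2) ^ (2 * k) * x ^ (2 * k) * (1 / 16) ^ ((2 * k + 1) * I)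
        * (L ^ (k ^ 2) * Real.exp (-(k * x) - 2 * k * x * (1 - θ))) := by rw [hG]; ring

end Pool.Agent.Lib.MS
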