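import Mathlib
import Pool.Agent.Lib.MP_f9aece_nt_ms.Coeffs
import Pool.Agent.Lib.MP_f9aece_nt_n4.B5

/-!
Mesoscopic moments of zeta, module Q9: sums over primes.
-/

set_option autoImplicit false

namespace Pool.Agent.Lib.MS

open MeasureTheory Set Filter Topology Complex
open scoped ComplexConjugate
open scoped ArithmeticFunction.Omega
open Pool.Agent.Lib.MP_f9aece_nt (DP pair BK K1 ev PP VV Smo expo EE)
open Pool.Agent.Lib.MP_f9aece_nt_h40 (ind)
open Pool.Agent.Lib.MP_f9aece_nt_h85 (rz Rst)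
open Pool.Agent.Lib.J4 (Sg Yg Jok Vs En V2 SU Sg_prime Sg_log_le Yg_pos Yg_anti sgDisj)
open Pool.Agent.Lib.N4 (OmS)

theorem mert : Mert := by
  refine ⟨6, by norm_num, fun A hA i => ?_⟩
  have hY := hA.hY
  have hU : ∀ p ∈ SU A.v A.p0 A.Y i A.J, p.Prime ∧ Real.log p ≤ Yg A.v A.Y i := by
    intro p hp
    unfold SU at hp
    rw [Finset.mem_biUnion] at hp
    obtain ⟨g, hg, hp⟩ := hp
    exact ⟨Sg_prime p hp, (Sg_log_le p hp).trans (Yg_anti A.v hY (Finset.mem_Ico.mp hg).1)⟩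
  have hQ : A.V i = VV (SU A.v A.p0 A.Y i A.J) := by
    unfold Par.V Vs SU VV
    rw [Finset.sum_biUnion]
    intro g _ h _ hgh
    exact sgDisj A.v A.p0 A.Y hY.le g h hgh
  rw [hQ]
  exact N4.B5I.VV_le (Yg_pos A.v hY i).le hU

end Pool.Agent.Lib.MS
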